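import Pool.Agent.Work.MP_2eb777_ag.Family

set_option autoImplicit false

open CategoryTheory CategoryTheory.Limits AlgebraicGeometry Polynomial

namespace Pool.Agent.Work.MP_2eb777_ag

theorem span_pair_eq_top {R : Type} [CommRing R] (p q : R[X])
    (h : ∀ (κ : Type) [Field κ] (φ : R[X] →+* κ), φ p = 0 → φ q = 0 → False) :
    Ideal.span {p, q} = ⊤ := by
  by_contra hne
  obtain ⟨M, hM, hle⟩ := Ideal.exists_le_maximal _ hne
  let : Field (R[X] ⧸ M) := Ideal.Quotient.field M
  refine h (R[X] ⧸ M) (Ideal.Quotient.mk M) ?_ ?_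
  · exact Ideal.Quotient.eq_zero_iff_mem.2 (hle (Ideal.subset_span (by simp)))
  · exact Ideal.Quotient.eq_zero_iff_mem.2 (hle (Ideal.subset_span (by simp)))

/-- The discriminant, up to sign. -/
def disc {R : Type} [CommRing R] (g : ℕ) (a b : R) : R :=
  (2 * g) ^ (2 * g) * a ^ (2 * g + 1) + (2 * g + 1) ^ (2 * g + 1) * b ^ (2 * g)

theorem disc_eq_zero {κ : Type} [Field κ] (g : ℕ) (x : κ) :
    disc g (-((2 * g + 1) * x ^ (2 * g))) (2 * g * x ^ (2 * g + 1)) = 0 := by
  unfold disc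
  have e1 : (x ^ (2 * g)) ^ (2 * g + 1) = x ^ (2 * g * (2 * g + 1)) := by rw [← pow_mul]
  have e2 : (x ^ (2 * g + 1)) ^ (2 * g) = x ^ (2 * g * (2 * g + 1)) := by
    rw [← pow_mul, mul_comm]
  rw [neg_pow, Odd.neg_one_pow ⟨g, rfl⟩, mul_pow (2 * (g : κ) + 1) (x ^ (2 * g)), e1,
    mul_pow (2 * (g : κ)) (x ^ (2 * g + 1)), e2]
  ring

theorem map_disc {R κ : Type} [CommRing R] [CommRing κ] (φ : R →+* κ) (g : ℕ) (a b : R) :
    φ (disc g a b) = disc g (φ a) (φ b) := by
  have h2 : φ 2 = 2 := map_ofNat φ 2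
  simp [disc, h2]

theorem deriv_fp {R : Type} [CommRing R] (g : ℕ) (a b : R) :
    derivative (fp g a b) = ((2 * g + 1 : ℕ) : R[X]) * X ^ (2 * g) + C a := by
  simp only [fp, derivative_add, derivative_X_pow, derivative_mul, derivative_C, derivative_X,
    Nat.add_sub_cancel, map_natCast]
  ring

theorem deriv_Fp {R : Type} [CommRing R] (g : ℕ) (a b : R) :
    derivative (Fp g a b) = 1 + C a * (((2 * g + 1 : ℕ) : R[X]) * X ^ (2 * g)) +
      C b * (((2 * g + 2 : ℕ) : R[X]) * X ^ (2 * g + 1)) := by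
  simp only [Fp, derivative_add, derivative_X_pow, derivative_mul, derivative_C, derivative_X,
    Nat.add_sub_cancel, map_natCast]
  have : 2 * g + 2 - 1 = 2 * g + 1 := by omega
  rw [this]
  ring

theorem span_fp {R : Type} [CommRing R] (g : ℕ) (a b : R) (h : IsUnit (disc g a b)) :
    Ideal.span {fp g a b, derivative (fp g a b)} = ⊤ := by
  apply span_pair_eq_top
  intro κ _ φ h1 h2
  have h3 : IsUnit (disc g (φ (C a)) (φ (C b))) := by
    have := h.map (φ.comp C)
    rwa [map_disc] at this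
  have h4 : φ X ^ (2 * g + 1) + φ (C a) * φ X + φ (C b) = 0 := by
    rw [← h1]; simp [fp]
  have h5 : (2 * (g : κ) + 1) * φ X ^ (2 * g) + φ (C a) = 0 := by
    rw [← h2, deriv_fp, map_add, map_mul, map_pow, map_natCast]; push_cast; ring
  have h6 : φ (C a) = -((2 * g + 1) * φ X ^ (2 * g)) := by linear_combination h5
  have h7 : φ (C b) = 2 * g * φ X ^ (2 * g + 1) := by
    rw [h6] at h4
    linear_combination h4
  rw [h6, h7, disc_eq_zero] at h3
  exact not_isUnit_zero h3

theorem span_Fp {R : Type} [CommRing R] (g : ℕ) (hg : 1 ≤ g) (a b : R) (h : IsUnit (disc g a b))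
    (hn : IsUnit ((2 * g + 1 : ℕ) : R)) :
    Ideal.span {Fp g a b, derivative (Fp g a b)} = ⊤ := by
  apply span_pair_eq_top
  intro κ _ φ h1 h2
  have h3 : IsUnit (disc g (φ (C a)) (φ (C b))) := by
    have := h.map (φ.comp C)
    rwa [map_disc] at this
  have hn' : (2 * (g : κ) + 1) ≠ 0 := by
    have := (hn.map (φ.comp C)).ne_zero
    rw [map_natCast] at this
    push_cast at this
    exact this
  set A := φ (C a)
  set B := φ (C b)
  set u := φ X with hu
  have h4 : u + A * u ^ (2 * g + 1) + B * u ^ (2 * g + 2) = 0 := by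
    rw [← h1]; simp [Fp, A, B, u]
  have h5 : 1 + (2 * (g : κ) + 1) * A * u ^ (2 * g) + (2 * (g : κ) + 2) * B * u ^ (2 * g + 1) =
      0 := by
    rw [← h2, deriv_Fp]
    simp only [map_add, map_mul, map_pow, map_natCast, map_one]
    push_cast
    ring
  have hu0 : u ≠ 0 := by
    intro h0
    rw [h0] at h4 h5
    rw [zero_pow (by omega), zero_pow (by omega)] at h5
    simp at h5
  have h6 : 1 + A * u ^ (2 * g) + B * u ^ (2 * g + 1) = 0 := by
    have : u * (1 + A * u ^ (2 * g) + B * u ^ (2 * g + 1)) = 0 := by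
      rw [← h4]; ring
    exact (mul_eq_zero.1 this).resolve_left hu0
  have h7 : 2 * (g : κ) * A + (2 * g + 1) * B * u = 0 := by
    have : u ^ (2 * g) * (2 * (g : κ) * A + (2 * g + 1) * B * u) = 0 := by
      linear_combination h5 - h6
    exact (mul_eq_zero.1 this).resolve_left (pow_ne_zero _ hu0)
  have h8 : A * u ^ (2 * g) = -(2 * g + 1) := by
    linear_combination (2 * (g : κ) + 1) * h6 - u ^ (2 * g) * h7
  have hw : u * u⁻¹ = 1 := mul_inv_cancel₀ hu0
  have h9 : A = -((2 * g + 1) * (u⁻¹) ^ (2 * g)) := by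
    have : u ^ (2 * g) * (u⁻¹) ^ (2 * g) = 1 := by rw [← mul_pow, hw, one_pow]
    linear_combination (u⁻¹) ^ (2 * g) * h8 - A * this
  have h10 : B = 2 * g * (u⁻¹) ^ (2 * g + 1) := by
    have : (2 * (g : κ) + 1) * (B - 2 * g * (u⁻¹) ^ (2 * g + 1)) = 0 := by
      rw [h9] at h7
      linear_combination (u⁻¹) * h7 - (2 * (g : κ) + 1) * B * hw
    exact sub_eq_zero.1 ((mul_eq_zero.1 this).resolve_left hn')
  rw [h9, h10, disc_eq_zero] at h3
  exact not_isUnit_zero h3

end Pool.Agent.Work.MP_2eb777_ag
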