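import Mathlib

set_option autoImplicit false

namespace Pool.Agent.Work.MP_2eb777_ag

open Polynomial AlgebraicGeometry

namespace SmoothChart

variable {R : Type} [CommRing R] (f : R[X])

/-- the relation -/
noncomputable def rel : Unit → MvPolynomial (Fin 2) R := fun _ =>
  MvPolynomial.X 1 ^ 2 - Polynomial.aeval (MvPolynomial.X 0) f

/-- the coordinate ring -/
abbrev A : Type := AdjoinRoot (X ^ 2 - C f : R[X][X])

/-- the class of `x` -/
noncomputable def xx : A f := AdjoinRoot.of _ X

/-- the class of `y` -/
noncomputable def yy : A f := AdjoinRoot.root _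

theorem of_eq_aeval (p : R[X]) : AdjoinRoot.of (X ^ 2 - C f : R[X][X]) p = aeval (xx f) p := by
  have h : (AdjoinRoot.of (X ^ 2 - C f : R[X][X])) =
      ((aeval (xx f) : R[X] →ₐ[R] A f) : R[X] →+* A f) := by
    apply Polynomial.ringHom_ext
    · intro a
      simp only [RingHom.coe_coe, aeval_C]
      rfl
    · simp [xx]
  exact congrArg (fun g : R[X] →+* A f => g p) h

theorem yy_sq : yy f ^ 2 = aeval (xx f) f := by
  have h := AdjoinRoot.eval₂_root (X ^ 2 - C f : R[X][X])
  simp only [eval₂_sub, eval₂_pow, eval₂_X, eval₂_C] at h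
  rw [of_eq_aeval] at h
  exact sub_eq_zero.mp h

/-- the ring in naive form -/
abbrev Q : Type := MvPolynomial (Fin 2) R ⧸ Ideal.span (Set.range (rel f))

/-- forward map -/
noncomputable def fwd : Q f →ₐ[R] A f :=
  Ideal.Quotient.liftₐ _ (MvPolynomial.aeval ![xx f, yy f]) (by
    intro a ha
    have : Ideal.span (Set.range (rel f)) ≤
        RingHom.ker (MvPolynomial.aeval ![xx f, yy f] : MvPolynomial (Fin 2) R →ₐ[R] A f) := by
      rw [Ideal.span_le]
      rintro _ ⟨u, rfl⟩
      rw [SetLike.mem_coe, RingHom.mem_ker, rel, map_sub, map_pow, MvPolynomial.aeval_X,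
        ← Polynomial.aeval_algHom_apply, MvPolynomial.aeval_X]
      simp only [Matrix.cons_val_one, Matrix.cons_val_zero]
      rw [yy_sq, sub_self]
    exact this ha)

/-- the class of a variable -/
noncomputable def qv (i : Fin 2) : Q f := Ideal.Quotient.mk _ (MvPolynomial.X i)

theorem qv_rel : qv f 1 ^ 2 = aeval (qv f 0) f := by
  have h : (Ideal.Quotient.mk (Ideal.span (Set.range (rel f)))) (rel f ()) = 0 :=
    Ideal.Quotient.eq_zero_iff_mem.mpr (Ideal.subset_span ⟨(), rfl⟩)
  rw [rel, map_sub, map_pow, sub_eq_zero] at h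
  have h2 : (Ideal.Quotient.mk (Ideal.span (Set.range (rel f))))
      (aeval (MvPolynomial.X 0 : MvPolynomial (Fin 2) R) f) = aeval (qv f 0) f := by
    have := Polynomial.aeval_algHom_apply (Ideal.Quotient.mkₐ R (Ideal.span (Set.range (rel f))))
      (MvPolynomial.X 0 : MvPolynomial (Fin 2) R) f
    exact this.symm
  rw [h2] at h
  exact h

/-- backward map -/
noncomputable def bwd : A f →+* Q f :=
  AdjoinRoot.lift ((aeval (qv f 0) : R[X] →ₐ[R] Q f) : R[X] →+* Q f) (qv f 1) (by
    simp only [eval₂_sub, eval₂_pow, eval₂_X, eval₂_C, RingHom.coe_coe]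
    rw [qv_rel, sub_self])

theorem bwd_of (p : R[X]) : bwd f (AdjoinRoot.of _ p) = aeval (qv f 0) p := by
  simp [bwd]

theorem bwd_xx : bwd f (xx f) = qv f 0 := by
  rw [xx, bwd_of, aeval_X]

theorem bwd_yy : bwd f (yy f) = qv f 1 := by
  simp [bwd, yy]

theorem fwd_qv (i : Fin 2) : fwd f (qv f i) = ![xx f, yy f] i := by
  change (MvPolynomial.aeval ![xx f, yy f]) (MvPolynomial.X i) = _
  rw [MvPolynomial.aeval_X]

theorem fwd_bwd (a : A f) : fwd f (bwd f a) = a := by
  have h : ((fwd f : Q f →+* A f)).comp (bwd f) = RingHom.id (A f) := by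
    apply AdjoinRoot.ringHom_ext
    · apply Polynomial.ringHom_ext
      · intro r
        simp only [RingHom.comp_apply, RingHom.coe_coe, RingHom.id_apply]
        rw [bwd_of, aeval_C, AlgHom.commutes]
        rfl
      · simp only [RingHom.comp_apply, RingHom.coe_coe, RingHom.id_apply]
        rw [bwd_of, aeval_X, fwd_qv]
        rfl
    · simp only [RingHom.comp_apply, RingHom.coe_coe, RingHom.id_apply]
      have : bwd f (AdjoinRoot.root (X ^ 2 - C f)) = qv f 1 := bwd_yy f
      rw [this, fwd_qv]
      rfl
  exact congrArg (fun g : A f →+* A f => g a) h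

theorem bwd_fwd (a : Q f) : bwd f (fwd f a) = a := by
  have h : ((bwd f).comp (fwd f : Q f →+* A f)) = RingHom.id (Q f) := by
    apply Ideal.Quotient.ringHom_ext
    apply MvPolynomial.ringHom_ext
    · intro r
      simp only [RingHom.comp_apply, RingHom.coe_coe, RingHom.id_apply]
      have h1 : (Ideal.Quotient.mk (Ideal.span (Set.range (rel f)))) (MvPolynomial.C r) =
          algebraMap R (Q f) r := rfl
      rw [h1, AlgHom.commutes]
      have h2 : algebraMap R (A f) r = AdjoinRoot.of _ (C r) := rfl
      rw [h2, bwd_of, aeval_C]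
    · intro i
      simp only [RingHom.comp_apply, RingHom.coe_coe, RingHom.id_apply]
      have h1 : (Ideal.Quotient.mk (Ideal.span (Set.range (rel f)))) (MvPolynomial.X i) =
          qv f i := rfl
      rw [h1, fwd_qv]
      fin_cases i
      · exact bwd_xx f
      · exact bwd_yy f
  exact congrArg (fun g : Q f →+* Q f => g a) h

/-- the isomorphism -/
noncomputable def eqv : Q f ≃ₐ[R] A f :=
  { (fwd f : Q f →ₐ[R] A f) with
    invFun := bwd f
    left_inv := bwd_fwd f
    right_inv := fwd_bwd f }

theorem eqv_mk (p : MvPolynomial (Fin 2) R) :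
    eqv f (Ideal.Quotient.mk _ p) = MvPolynomial.aeval ![xx f, yy f] p := rfl

/-- presubmersive presentation with respect to the variable `i` -/
noncomputable def pres (i : Fin 2) : Algebra.PreSubmersivePresentation R (A f) (Fin 2) Unit :=
  (Algebra.PreSubmersivePresentation.naive (v := rel f) (fun _ => i)
    (fun _ _ _ => rfl)).ofAlgEquiv (eqv f)

theorem pres_jacobian (i : Fin 2) :
    (pres f i).jacobian = MvPolynomial.aeval ![xx f, yy f] (MvPolynomial.pderiv i (rel f ())) := by
  rw [pres, Algebra.PreSubmersivePresentation.jacobian_ofAlgEquiv,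
    Algebra.PreSubmersivePresentation.jacobian_eq_jacobiMatrix_det, Matrix.det_unique,
    Algebra.PreSubmersivePresentation.jacobiMatrix_naive]
  rfl

theorem smooth_away (i : Fin 2) (g : A f)
    (hu : IsUnit (algebraMap (A f) (Localization.Away g) (pres f i).jacobian)) :
    Algebra.IsStandardSmoothOfRelativeDimension 1 R (Localization.Away g) := by
  let PP := (Algebra.PreSubmersivePresentation.localizationAway (Localization.Away g) g).comp
    (pres f i)
  have hj : IsUnit PP.jacobian := by
    rw [Algebra.PreSubmersivePresentation.comp_jacobian_eq_jacobian_smul_jacobian,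
      Algebra.PreSubmersivePresentation.localizationAway_jacobian, Algebra.smul_def]
    exact hu.mul (IsLocalization.Away.algebraMap_isUnit g)
  let SP : Algebra.SubmersivePresentation R (Localization.Away g) (Unit ⊕ Fin 2) (Unit ⊕ Unit) :=
    { PP with jacobian_isUnit := hj }
  refine SP.isStandardSmoothOfRelativeDimension ?_
  simp [Algebra.Presentation.dimension]

theorem jac_one : (pres f 1).jacobian = 2 * yy f := by
  rw [pres_jacobian, rel]
  have h0 : MvPolynomial.pderiv (1 : Fin 2) (aeval (MvPolynomial.X 0 : MvPolynomial (Fin 2) R) f) =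
      0 := by
    rw [Derivation.map_aeval, MvPolynomial.pderiv_X_of_ne (by decide), smul_zero]
  rw [map_sub, h0, sub_zero, Derivation.leibniz_pow, MvPolynomial.pderiv_X_self]
  simp [two_mul]

theorem jac_zero : (pres f 0).jacobian = - aeval (xx f) (derivative f) := by
  rw [pres_jacobian, rel]
  have h1 : MvPolynomial.pderiv (0 : Fin 2) ((MvPolynomial.X 1 : MvPolynomial (Fin 2) R) ^ 2) =
      0 := by
    rw [Derivation.leibniz_pow, MvPolynomial.pderiv_X_of_ne (by decide), smul_zero, smul_zero]
  rw [map_sub, h1, zero_sub, Derivation.map_aeval, MvPolynomial.pderiv_X_self, smul_eq_mul,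
    mul_one, map_neg, ← Polynomial.aeval_algHom_apply, MvPolynomial.aeval_X]
  rfl

end SmoothChart

open SmoothChart in
theorem smooth_chart {R : Type} [CommRing R] (f : R[X]) (h2 : IsUnit (2 : R))
    (hf : Ideal.span {f, derivative f} = ⊤) :
    SmoothOfRelativeDimension 1
      (Spec.map (CommRingCat.ofHom (algebraMap R (AdjoinRoot (X ^ 2 - C f : R[X][X]))))) := by
  rw [HasRingHomProperty.Spec_iff (P := @SmoothOfRelativeDimension 1)]
  refine ⟨{yy f, aeval (xx f) (derivative f)}, ?_, ?_⟩
  · rw [Ideal.eq_top_iff_one, Ideal.mem_span_pair] at hf ⊢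
    obtain ⟨a, b, hab⟩ := hf
    refine ⟨aeval (xx f) a * yy f, aeval (xx f) b, ?_⟩
    have h := congrArg (aeval (xx f)) hab
    rw [map_add, map_mul, map_mul, map_one, ← yy_sq] at h
    rw [← h]; ring
  · intro t ht
    rw [Set.mem_insert_iff, Set.mem_singleton_iff] at ht
    have key : Algebra.IsStandardSmoothOfRelativeDimension 1 R (Localization.Away t) := by
      rcases ht with rfl | rfl
      · apply smooth_away f 1
        rw [jac_one, map_mul]
        refine IsUnit.mul ?_ (IsLocalization.Away.algebraMap_isUnit (yy f))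
        have h3 := (h2.map (algebraMap R (A f))).map
          (algebraMap (A f) (Localization.Away (yy f)))
        rwa [map_ofNat] at h3
      · apply smooth_away f 0
        rw [jac_zero, map_neg]
        exact (IsLocalization.Away.algebraMap_isUnit _).neg
    rw [RingHom.IsStandardSmoothOfRelativeDimension]
    have halg : (((algebraMap (A f) (Localization.Away t)).comp
        (CommRingCat.ofHom (algebraMap R (A f))).hom)).toAlgebra =
        (inferInstance : Algebra R (Localization.Away t)) :=
      Algebra.algebra_ext _ _ (fun r => rfl)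
    rw [halg]
    exact key

end Pool.Agent.Work.MP_2eb777_ag
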