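import Pool.Agent.Work.MP_2eb777_ag.Kummer
import Pool.Agent.Work.MP_2eb777_ag.Disc
import Pool.Agent.Work.MP_2eb777_ag.SmoothChart

set_option autoImplicit false

open CategoryTheory CategoryTheory.Limits AlgebraicGeometry Polynomial
open scoped TensorProduct

namespace Pool.Agent.Work.MP_2eb777_ag

theorem kummer_descend {S : Type} [CommRing S] [Algebra ℂ S] [Nontrivial S] (m : ℕ) (hm : m ≠ 0)
    (c : S) (hc : c ∈ nonZeroDivisors S) {M Z : Scheme.{0}} (s : M ⟶ Z) [IsSeparated s]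
    (f : Spec (.of (Kum m c)) ⟶ M) (r : Spec (.of S) ⟶ Z)
    (hr : f ≫ s = Spec.map (CommRingCat.ofHom (algebraMap S (Kum m c))) ≫ r)
    (hf : ∀ (z : ℂ) (hz : z ^ m = 1),
      Spec.map (CommRingCat.ofHom (Kum.tw m c z hz).toRingHom) ≫ f = f) :
    ∃ h : Spec (.of S) ⟶ M,
      Spec.map (CommRingCat.ofHom (algebraMap S (Kum m c))) ≫ h = f := by
  have h1 : Module.Free S (Kum m c) := .of_basis (Kum.pb m c hm).basis
  have h2 : Nontrivial (Kum m c) := by
    have h3 := Kum.pb_dim m c hm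
    have : Nonempty (Fin (Kum.pb m c hm).dim) := ⟨⟨0, by omega⟩⟩
    exact (Kum.pb m c hm).basis.repr.toEquiv.nontrivial
  have h3 : Module.FaithfullyFlat S (Kum m c) := inferInstance
  exact descend s f r hr (fun i : {w : ℂ // w ^ m = 1} => Kum.tw m c i.1 i.2)
    (fun i => hf i.1 i.2) (Kum.injective m c hm hc)

instance kum_noeth {S : Type} [CommRing S] [IsNoetherianRing S] (m : ℕ) (c : S) :
    IsNoetherianRing (Kum m c) := inferInstance

/-- `ℂ[s][a] / (a ^ (2 g + 1) - s)`. -/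
abbrev Base₁ (g : ℕ) : Type := Kum (2 * g + 1) (X : ℂ[X])

/-- The parameter `s`. -/
noncomputable def sPar (g : ℕ) : Base₁ g := algebraMap ℂ[X] (Base₁ g) X

/-- The base ring `ℂ[a, b] / (a ^ (2 g + 1) + b ^ (2 g) - 1)`, as an extension of `ℂ[s]`. -/
abbrev Base (g : ℕ) : Type := Kum (2 * g) (1 - sPar g)

/-- The element `a`. -/
noncomputable def aB (g : ℕ) : Base g := algebraMap (Base₁ g) (Base g) (Kum.y (2 * g + 1) X)

/-- The element `b`. -/
noncomputable def bB (g : ℕ) : Base g := Kum.y (2 * g) (1 - sPar g)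

theorem aB_bB (g : ℕ) : aB g ^ (2 * g + 1) + bB g ^ (2 * g) = 1 := by
  rw [aB, bB, ← map_pow, Kum.y_pow, Kum.y_pow, ← map_add]
  change algebraMap _ _ (sPar g + (1 - sPar g)) = 1
  rw [add_sub_cancel, map_one]

instance (g : ℕ) : IsNoetherianRing (Base g) := inferInstance

/-- Homomorphisms from the base ring. -/
theorem exists_base_hom (g : ℕ) {T : Type} [CommRing T] (ρ : ℂ →+* T) (a b : T)
    (h : a ^ (2 * g + 1) + b ^ (2 * g) = 1) : ∃ φ : Base g →+* T,
      φ.comp (algebraMap ℂ (Base g)) = ρ ∧ φ (aB g) = a ∧ φ (bB g) = b ∧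
      φ.comp ((algebraMap (Base₁ g) (Base g)).comp (algebraMap ℂ[X] (Base₁ g))) =
        eval₂RingHom ρ (a ^ (2 * g + 1)) := by
  let φ₁ : Base₁ g →+* T := Kum.lift (2 * g + 1) X (eval₂RingHom ρ (a ^ (2 * g + 1))) a
    (by rw [coe_eval₂RingHom, eval₂_X])
  have h1 : φ₁ (1 - sPar g) = 1 - a ^ (2 * g + 1) := by
    rw [map_sub, map_one, sPar]
    simp only [φ₁, Kum.lift_algebraMap, coe_eval₂RingHom, eval₂_X]
  let φ : Base g →+* T := Kum.lift (2 * g) (1 - sPar g) φ₁ b (by rw [h1, ← h]; ring)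
  have h2 : φ.comp ((algebraMap (Base₁ g) (Base g)).comp (algebraMap ℂ[X] (Base₁ g))) =
        eval₂RingHom ρ (a ^ (2 * g + 1)) := by
    apply RingHom.ext
    intro p
    simp only [RingHom.comp_apply, φ, φ₁, Kum.lift_algebraMap]
  refine ⟨φ, ?_, ?_, ?_, h2⟩
  · apply RingHom.ext
    intro z
    have h3 := congrArg (fun ψ : ℂ[X] →+* T => ψ (C z)) h2
    simp only [coe_eval₂RingHom, eval₂_C] at h3
    exact h3
  · simp only [φ, φ₁, aB, Kum.lift_algebraMap, Kum.lift_y]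
  · simp only [φ, bB, Kum.lift_y]

theorem base_hom_ext (g : ℕ) {T : Type} [CommRing T] {φ ψ : Base g →+* T}
    (h : φ.comp (algebraMap ℂ (Base g)) = ψ.comp (algebraMap ℂ (Base g)))
    (ha : φ (aB g) = ψ (aB g)) (hb : φ (bB g) = ψ (bB g)) : φ = ψ := by
  apply Kum.hom_ext _ _ _ hb
  apply Kum.hom_ext _ _ _ ha
  apply Polynomial.ringHom_ext
  · intro z
    exact congrArg (fun χ : ℂ →+* T => χ z) h
  · have h1 : ∀ χ : Base g →+* T, χ (algebraMap (Base₁ g) (Base g)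
        (algebraMap ℂ[X] (Base₁ g) X)) = χ (aB g) ^ (2 * g + 1) := by
      intro χ
      rw [← Kum.y_pow, map_pow, map_pow]
      rfl
    exact (h1 φ).trans ((congrArg (fun t => t ^ (2 * g + 1)) ha).trans (h1 ψ).symm)

end Pool.Agent.Work.MP_2eb777_ag
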