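import Pool.Agent.Work.MP_2eb777_ag.Curve

set_option autoImplicit false

open CategoryTheory CategoryTheory.Limits AlgebraicGeometry Polynomial

namespace Pool.Agent.Work.MP_2eb777_ag

section

variable {R R' : Type} [CommRing R] [CommRing R']

/-- The homomorphism `R[X] → R'[X]` over `φ` with `X ↦ l X`. -/
noncomputable def sc (φ : R →+* R') (l : R') : R[X] →+* R'[X] :=
  eval₂RingHom (C.comp φ) (C l * X)

@[simp]
theorem sc_C (φ : R →+* R') (l : R') (r : R) : sc φ l (C r) = C (φ r) := by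
  simp [sc]

@[simp]
theorem sc_X (φ : R →+* R') (l : R') : sc φ l X = C l * X := by
  simp [sc]

/-- The unit `l T`. -/
noncomputable def lT (l : R'ˣ) : (LaurentPolynomial R')ˣ where
  val := LaurentPolynomial.C (l : R') * LaurentPolynomial.T 1
  inv := LaurentPolynomial.C ((l⁻¹ : R'ˣ) : R') * LaurentPolynomial.T (-1)
  val_inv := by
    rw [mul_mul_mul_comm, ← map_mul, ← LaurentPolynomial.T_add]
    simp
  inv_val := by
    rw [mul_mul_mul_comm, ← map_mul, ← LaurentPolynomial.T_add]
    simp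

/-- The homomorphism `R[T;T⁻¹] → R'[T;T⁻¹]` over `φ` with `T ↦ l T`. -/
noncomputable def scL (φ : R →+* R') (l : R'ˣ) : LaurentPolynomial R →+* LaurentPolynomial R' :=
  LaurentPolynomial.eval₂ (LaurentPolynomial.C.comp φ) (lT l)

@[simp]
theorem scL_C (φ : R →+* R') (l : R'ˣ) (r : R) :
    scL φ l (LaurentPolynomial.C r) = LaurentPolynomial.C (φ r) := by
  simp [scL]

@[simp]
theorem scL_T (φ : R →+* R') (l : R'ˣ) (n : ℤ) :
    scL φ l (LaurentPolynomial.T n) =
      LaurentPolynomial.C ((l ^ n : R'ˣ) : R') * LaurentPolynomial.T n := by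
  rw [scL, LaurentPolynomial.eval₂_T]
  induction n using Int.induction_on with
  | zero => simp
  | succ n ih =>
    rw [zpow_add_one, zpow_add_one, Units.val_mul, ih, Units.val_mul, map_mul,
      LaurentPolynomial.T_add]
    simp only [lT]
    ring
  | pred n ih =>
    rw [zpow_sub_one, zpow_sub_one, Units.val_mul, ih, Units.val_mul, map_mul, sub_eq_add_neg,
      LaurentPolynomial.T_add]
    simp only [lT, Units.inv_mk]
    ring

theorem scL_toLaurent (φ : R →+* R') (l : R'ˣ) (p : R[X]) :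
    scL φ l (toLaurent p) = toLaurent (sc φ l p) := by
  have h : (scL φ l).comp (toLaurent : R[X] →+* _) =
      (toLaurent : R'[X] →+* _).comp (sc φ (l : R')) := by
    ext n
    · simp
    · simp
  exact congrArg (fun g : R[X] →+* LaurentPolynomial R' => g p) h

theorem scL_toLaurentInv (φ : R →+* R') (l : R'ˣ) (p : R[X]) :
    scL φ l (toLaurentInv p) = toLaurentInv (sc φ ((l⁻¹ : R'ˣ) : R') p) := by
  have h : (scL φ l).comp (toLaurentInv : R[X] →+* _) =
      (toLaurentInv : R'[X] →+* _).comp (sc φ ((l⁻¹ : R'ˣ) : R')) := by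
    ext n
    · simp [toLaurentInv_apply]
    · simp [toLaurentInv_apply]
  exact congrArg (fun g : R[X] →+* LaurentPolynomial R' => g p) h

/-- Compatibility of the square roots. -/
def Scal (φ : R →+* R') (l m : R') (f : R[X]) (f' : R'[X]) : Prop :=
  C m ^ 2 * f' = sc φ l f

/-- The homomorphism of coordinate rings with `x ↦ l x`, `w ↦ m w`. -/
noncomputable def qsc (φ : R →+* R') (l m : R') {f : R[X]} {f' : R'[X]} (h : Scal φ l m f f') :
    Quad f →+* Quad f' :=
  qmap (sc φ l) (C m) h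

/-- The homomorphism used to verify the universal property. -/
theorem quad_desc (φ : R →+* R') (l m : R'ˣ) {f : R[X]} {f' : R'[X]}
    (h : Scal φ (l : R') (m : R') f f') {T : Type} [CommRing T] (p : Quad f →+* T) (q : R' →+* T)
    (hpq : p.comp (algebraMap R (Quad f)) = q.comp φ) :
    ∃ d : Quad f' →+* T, d.comp (qsc φ (l : R') (m : R') h) = p ∧
      d.comp (algebraMap R' (Quad f')) = q := by
  let ρ : R'[X] →+* T :=
    eval₂RingHom q (q ((l⁻¹ : R'ˣ) : R') * p (algebraMap R[X] (Quad f) X))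
  have hl : q (l : R') * q ((l⁻¹ : R'ˣ) : R') = 1 := by rw [← map_mul]; simp
  have hm : q (m : R') * q ((m⁻¹ : R'ˣ) : R') = 1 := by rw [← map_mul]; simp
  have hρ : ρ.comp (sc φ l) = p.comp (algebraMap R[X] (Quad f)) := by
    apply Polynomial.ringHom_ext
    · intro r
      have h1 := congrArg (fun g : R →+* T => g r) hpq
      simp only [RingHom.comp_apply] at h1
      simp only [RingHom.comp_apply, sc_C, ρ, coe_eval₂RingHom, eval₂_C]
      exact h1.symm
    · simp only [RingHom.comp_apply, sc_X, map_mul, ρ, coe_eval₂RingHom, eval₂_C, eval₂_X]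
      rw [← mul_assoc, hl, one_mul]
  have hρf : ρ (sc φ l f) = p (algebraMap R[X] (Quad f) f) :=
    congrArg (fun g : R[X] →+* T => g f) hρ
  have hw : (q ((m⁻¹ : R'ˣ) : R') * p (Quad.w f)) ^ 2 = ρ f' := by
    have h2 : q (m : R') ^ 2 * ρ f' = p (Quad.w f) ^ 2 := by
      rw [← map_pow p, Quad.w_sq, ← hρf, ← h, map_mul, map_pow]
      simp only [ρ, coe_eval₂RingHom, eval₂_C]
    rw [mul_pow, ← h2, ← mul_assoc, ← mul_pow, mul_comm (q _) (q (m : R')), hm, one_pow, one_mul]
  refine ⟨qlift ρ _ hw, ?_, ?_⟩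
  · apply quad_hom_ext
    · apply RingHom.ext
      intro r
      simp only [RingHom.comp_apply, qsc, qmap_algebraMap, qlift_algebraMap]
      exact congrArg (fun g : R[X] →+* T => g r) hρ
    · simp only [RingHom.comp_apply, qsc, qmap_w, map_mul, qlift_algebraMap, qlift_w]
      simp only [ρ, coe_eval₂RingHom, eval₂_C]
      rw [← mul_assoc, hm, one_mul]
  · apply RingHom.ext
    intro r
    change qlift ρ _ hw (algebraMap R'[X] (Quad f') (C r)) = q r
    rw [qlift_algebraMap]
    simp only [ρ, coe_eval₂RingHom, eval₂_C]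

theorem quad_ext (φ : R →+* R') (l m : R'ˣ) {f : R[X]} {f' : R'[X]}
    (h : Scal φ (l : R') (m : R') f f') {T : Type} [CommRing T] {d d' : Quad f' →+* T}
    (h1 : d.comp (qsc φ (l : R') (m : R') h) = d'.comp (qsc φ (l : R') (m : R') h))
    (h2 : d.comp (algebraMap R' (Quad f')) = d'.comp (algebraMap R' (Quad f'))) : d = d' := by
  have hC : ∀ r : R', d (algebraMap R'[X] (Quad f') (C r)) =
      d' (algebraMap R'[X] (Quad f') (C r)) := fun r =>
    congrArg (fun g : R' →+* T => g r) h2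
  have hX := congrArg (fun g : Quad f →+* T => g (algebraMap R[X] (Quad f) X)) h1
  have hw := congrArg (fun g : Quad f →+* T => g (Quad.w f)) h1
  simp only [RingHom.comp_apply, qsc, qmap_algebraMap, qmap_w, sc_X, map_mul, hC] at hX hw
  have hl : d' (algebraMap R'[X] (Quad f') (C ((l⁻¹ : R'ˣ) : R'))) *
      d' (algebraMap R'[X] (Quad f') (C (l : R'))) = 1 := by
    rw [← map_mul, ← map_mul, ← map_mul]; simp
  have hm : d' (algebraMap R'[X] (Quad f') (C ((m⁻¹ : R'ˣ) : R'))) *
      d' (algebraMap R'[X] (Quad f') (C (m : R'))) = 1 := by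
    rw [← map_mul, ← map_mul, ← map_mul]; simp
  apply quad_hom_ext
  · apply Polynomial.ringHom_ext
    · exact hC
    · simp only [RingHom.comp_apply]
      have h3 := congrArg (fun t => d' (algebraMap R'[X] (Quad f') (C ((l⁻¹ : R'ˣ) : R'))) * t) hX
      rwa [← mul_assoc, ← mul_assoc, hl, one_mul, one_mul] at h3
  · have h3 := congrArg (fun t => d' (algebraMap R'[X] (Quad f') (C ((m⁻¹ : R'ˣ) : R'))) * t) hw
    rwa [← mul_assoc, ← mul_assoc, hm, one_mul, one_mul] at h3

theorem quad_isPushout (φ : R →+* R') (l m : R'ˣ) {f : R[X]} {f' : R'[X]}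
    (h : Scal φ (l : R') (m : R') f f') :
    IsPushout (CommRingCat.ofHom (algebraMap R (Quad f))) (CommRingCat.ofHom φ)
      (CommRingCat.ofHom (qsc φ (l : R') (m : R') h))
      (CommRingCat.ofHom (algebraMap R' (Quad f'))) := by
  have hcomm : (qsc φ (l : R') (m : R') h).comp (algebraMap R (Quad f)) =
      (algebraMap R' (Quad f')).comp φ := by
    apply RingHom.ext
    intro r
    change qmap (sc φ l) (C (m : R')) h (algebraMap R[X] (Quad f) (C r)) =
      algebraMap R'[X] (Quad f') (C (φ r))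
    rw [qmap_algebraMap, sc_C]
  have key : ∀ s : PushoutCocone (CommRingCat.ofHom (algebraMap R (Quad f)))
      (CommRingCat.ofHom φ), ∃ d : CommRingCat.of (Quad f') ⟶ s.pt,
      CommRingCat.ofHom (qsc φ (l : R') (m : R') h) ≫ d = s.inl ∧
      CommRingCat.ofHom (algebraMap R' (Quad f')) ≫ d = s.inr := by
    intro s
    obtain ⟨d, h1, h2⟩ := quad_desc φ l m h s.inl.hom s.inr.hom
      (congrArg CommRingCat.Hom.hom s.condition)
    exact ⟨CommRingCat.ofHom d, CommRingCat.hom_ext h1, CommRingCat.hom_ext h2⟩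
  choose d hd₁ hd₂ using key
  refine ⟨⟨by rw [← CommRingCat.ofHom_comp, ← CommRingCat.ofHom_comp, hcomm]⟩,
    ⟨PushoutCocone.IsColimit.mk _ d hd₁ hd₂ ?_⟩⟩
  intro s e he₁ he₂
  apply CommRingCat.hom_ext
  apply quad_ext φ l m h
  · exact congrArg CommRingCat.Hom.hom (he₁.trans (hd₁ s).symm)
  · exact congrArg CommRingCat.Hom.hom (he₂.trans (hd₂ s).symm)

theorem scal_inv {φ : R →+* R'} {l m : R'ˣ} {f : R[X]} {f' : R'[X]} {g : ℕ} {F : R[X]}
    {F' : R'[X]} (h : Scal φ (l : R') (m : R') f f') (hF : Rev g f F) (hF' : Rev g f' F') :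
    Scal φ ((l⁻¹ : R'ˣ) : R') ((m * (l⁻¹) ^ (g + 1) : R'ˣ) : R') F F' := by
  have h0 : Function.Injective (toLaurentInv : R'[X] →+* LaurentPolynomial R') := by
    intro p q hpq
    rw [toLaurentInv_apply, toLaurentInv_apply] at hpq
    exact toLaurent_injective ((LaurentPolynomial.invert (R := R')).injective hpq)
  apply h0
  rw [map_mul, map_pow, ← scL_toLaurentInv, ← rev_cond hF, ← rev_cond hF', map_mul, map_pow,
    scL_toLaurent, ← h, map_mul, map_pow, scL_T]
  simp only [toLaurentInv_apply, toLaurent_C, LaurentPolynomial.invert_C]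
  have h1 : ((l ^ (-((g : ℤ) + 1)) : R'ˣ) : R') = (((l⁻¹) ^ (g + 1) : R'ˣ) : R') := by
    rw [zpow_neg, inv_pow]
    rfl
  rw [h1, Units.val_mul, map_mul]
  ring

section

variable (φ : R →+* R') (l m : R'ˣ) {f : R[X]} {f' : R'[X]} {g : ℕ} {F : R[X]} {F' : R'[X]}
  (h : Scal φ (l : R') (m : R') f f') (hF : Rev g f F) (hF' : Rev g f' F')

/-- The homomorphism on the overlap. -/
noncomputable def cHom : Quad (toLaurent f) →+* Quad (toLaurent f') :=
  qmap (scL φ l) (LaurentPolynomial.C (m : R'))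
    (by rw [scL_toLaurent, ← h, map_mul, map_pow, toLaurent_C])

theorem cHom_iHom : (cHom φ l m h).comp (iHom f) = (iHom f').comp (qsc φ (l : R') (m : R') h) := by
  apply quad_hom_ext
  · apply RingHom.ext
    intro p
    simp only [RingHom.comp_apply, iHom_algebraMap, cHom, qmap_algebraMap, qsc, scL_toLaurent]
  · simp only [RingHom.comp_apply, cHom, qsc, qmap_w, iHom, map_mul, qmap_algebraMap, map_one,
      one_mul, toLaurent_C]

theorem cHom_jHom : (cHom φ l m h).comp (jHom hF) = (jHom hF').comp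
    (qsc φ ((l⁻¹ : R'ˣ) : R') ((m * (l⁻¹) ^ (g + 1) : R'ˣ) : R') (scal_inv h hF hF')) := by
  apply quad_hom_ext
  · apply RingHom.ext
    intro p
    simp only [RingHom.comp_apply, jHom, cHom, qmap_algebraMap, qsc, scL_toLaurentInv]
  · simp only [RingHom.comp_apply, cHom, qsc, qmap_w, jHom, map_mul, qmap_algebraMap, scL_T,
      toLaurentInv_apply, toLaurent_C, LaurentPolynomial.invert_C]
    have h1 : ((l ^ (-((g : ℤ) + 1)) : R'ˣ) : R') = (((l⁻¹) ^ (g + 1) : R'ˣ) : R') := by
      rw [zpow_neg, inv_pow]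
      rfl
    rw [h1, Units.val_mul, map_mul, map_mul]
    ring

/-- The morphism of curves given by `x ↦ l x`, `y ↦ m y` over `φ`. -/
noncomputable def curveMap : (curve g f' F' hF').X ⟶ (curve g f F hF).X :=
  (curve g f F hF).map (curve g f' F' hF') (CommRingCat.ofHom (qsc φ (l : R') (m : R') h))
    (CommRingCat.ofHom (qsc φ ((l⁻¹ : R'ˣ) : R') ((m * (l⁻¹) ^ (g + 1) : R'ˣ) : R')
      (scal_inv h hF hF')))
    (CommRingCat.ofHom (cHom φ l m h))
    (congrArg CommRingCat.ofHom (cHom_iHom φ l m h))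
    (congrArg CommRingCat.ofHom (cHom_jHom φ l m h hF hF'))

theorem curveMap_isPullback : IsPullback (curveMap φ l m h hF hF') (curve g f' F' hF').toSpec
    (curve g f F hF).toSpec (Spec.map (CommRingCat.ofHom φ)) := by
  refine TwoCharts.isPullback_map _ _ _ _ _ _ _ _ (quad_isPushout φ l m h)
    (quad_isPushout φ (l⁻¹) (m * (l⁻¹) ^ (g + 1)) (scal_inv h hF hF')) ?_ ?_
  · refine ⟨algebraMap R'[X] (Quad f') (C (l : R')), ?_⟩
    change qsc φ (l : R') (m : R') h (algebraMap R[X] (Quad f) X) = _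
    rw [qsc, qmap_algebraMap, sc_X, map_mul, mul_comm]
    rfl
  · refine ⟨algebraMap R'[X] (Quad F') (C ((l⁻¹ : R'ˣ) : R')), ?_⟩
    change qsc φ _ _ (scal_inv h hF hF') (algebraMap R[X] (Quad F) X) = _
    rw [qsc, qmap_algebraMap, sc_X, map_mul, mul_comm]
    rfl

end

end

end Pool.Agent.Work.MP_2eb777_ag
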