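import Pool.Agent.Work.MP_2eb777_ag.GenusCurve

set_option autoImplicit false

open CategoryTheory CategoryTheory.Limits AlgebraicGeometry Polynomial

namespace Pool.Agent.Work.MP_2eb777_ag

theorem TwoCharts.connectedSpace {R : CommRingCat.{0}} (D : TwoCharts R) (hA : IsDomain D.A)
    (hB : IsDomain D.B) (hC : Nontrivial D.C) : ConnectedSpace D.X := by
  have hA' : ConnectedSpace (Spec D.A) := inferInstanceAs (ConnectedSpace (PrimeSpectrum D.A))
  have hB' : ConnectedSpace (Spec D.B) := inferInstanceAs (ConnectedSpace (PrimeSpectrum D.B))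
  have hC' : Nonempty (Spec D.C) := inferInstanceAs (Nonempty (PrimeSpectrum D.C))
  obtain ⟨q⟩ := hC'
  have h1 : _root_.IsConnected (Set.range D.ι₁) := isConnected_range D.ι₁.continuous
  have h2 : _root_.IsConnected (Set.range D.ι₂) := isConnected_range D.ι₂.continuous
  have h3 : _root_.IsConnected (Set.range D.ι₁ ∪ Set.range D.ι₂) := by
    refine IsConnected.union ⟨D.ι₁ (Spec.map D.i q), ⟨_, rfl⟩, ⟨Spec.map D.j q, ?_⟩⟩ h1 h2
    exact ((D.eq_iff _ _).2 ⟨q, rfl, rfl⟩).symm
  have h4 : Set.range D.ι₁ ∪ Set.range D.ι₂ = Set.univ := by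
    ext p
    refine ⟨fun _ => trivial, fun _ => ?_⟩
    rcases D.exists_mem p with h | h
    · exact Or.inl h
    · exact Or.inr h
  rw [h4] at h3
  exact connectedSpace_iff_univ.2 h3

/-- `f` is not the square of a rational function. -/
def NonSquare {k : Type} [Field k] (f : k[X]) : Prop := ∀ p q : k[X], p ^ 2 = f * q ^ 2 → q = 0

theorem nonSquare_of_odd {k : Type} [Field k] (f : k[X]) (hf : Odd f.natDegree) :
    NonSquare f := by
  intro p q h
  by_contra hq
  have hf0 : f ≠ 0 := by
    rintro rfl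
    simp at hf
  have h2 := congrArg Polynomial.natDegree h
  rw [Polynomial.natDegree_mul hf0 (pow_ne_zero 2 hq), Polynomial.natDegree_pow,
    Polynomial.natDegree_pow] at h2
  obtain ⟨m, hm⟩ := hf
  omega

theorem nonSquare_of_odd_trailing {k : Type} [Field k] (f : k[X])
    (hf : Odd f.natTrailingDegree) : NonSquare f := by
  intro p q h
  by_contra hq
  have hf0 : f ≠ 0 := by
    rintro rfl
    simp at hf
  have h2 := congrArg Polynomial.natTrailingDegree h
  rw [sq, sq, Polynomial.natTrailingDegree_mul hf0 (mul_ne_zero hq hq),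
    Polynomial.natTrailingDegree_mul hq hq] at h2
  have hp : p ≠ 0 := by
    rintro rfl
    rw [zero_pow two_ne_zero] at h
    exact (mul_ne_zero hf0 (pow_ne_zero 2 hq)) h.symm
  rw [Polynomial.natTrailingDegree_mul hp hp] at h2
  obtain ⟨m, hm⟩ := hf
  omega

theorem quad_norm_ne {k : Type} [Field k] (f : k[X]) (hf : NonSquare f) (z : Quad f)
    (hz : z ≠ 0) : z.re ^ 2 - f * z.im ^ 2 ≠ 0 := by
  intro h
  have h1 : z.re ^ 2 = f * z.im ^ 2 := sub_eq_zero.1 h
  have him : z.im = 0 := hf _ _ h1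
  rw [him] at h1
  have h2 : z.re = 0 := by
    have : z.re ^ 2 = 0 := by rw [h1]; ring
    exact pow_eq_zero_iff (two_ne_zero) |>.1 this
  exact hz (QuadraticAlgebra.ext h2 him)

theorem quad_mul_conj {S : Type} [CommRing S] (f : S) (z : Quad f) :
    z * ⟨z.re, -z.im⟩ = algebraMap S (Quad f) (z.re ^ 2 - f * z.im ^ 2) := by
  rw [QuadraticAlgebra.algebraMap_eq]
  ext
  · simp only [QuadraticAlgebra.re_mul]
    ring
  · simp only [QuadraticAlgebra.im_mul]
    ring

theorem quad_isDomain {k : Type} [Field k] (f : k[X]) (hf : NonSquare f) :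
    IsDomain (Quad f) := by
  have hne : Nontrivial (Quad f) := inferInstance
  have hno : NoZeroDivisors (Quad f) := by
    refine ⟨fun {a b} hab => ?_⟩
    by_contra hcon
    push Not at hcon
    obtain ⟨ha, hb⟩ := hcon
    have h1 := quad_norm_ne f hf a ha
    have h2 := quad_norm_ne f hf b hb
    have h3 : algebraMap k[X] (Quad f)
        ((a.re ^ 2 - f * a.im ^ 2) * (b.re ^ 2 - f * b.im ^ 2)) = 0 := by
      rw [map_mul, ← quad_mul_conj, ← quad_mul_conj]
      linear_combination (⟨a.re, -a.im⟩ * ⟨b.re, -b.im⟩ : Quad f) * hab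
    rw [QuadraticAlgebra.algebraMap_eq] at h3
    have h4 := congrArg QuadraticAlgebra.re h3
    exact (mul_ne_zero h1 h2) h4
  exact NoZeroDivisors.to_isDomain _

end Pool.Agent.Work.MP_2eb777_ag
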