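import Pool.Agent.Work.MP_2eb777_ag.Quad

set_option autoImplicit false

open CategoryTheory CategoryTheory.Limits AlgebraicGeometry Polynomial

namespace Pool.Agent.Work.MP_2eb777_ag

section

variable {R : Type} [CommRing R]

/-- `F` is the polynomial `X ^ (2 g + 2) f (1 / X)`. -/
def Rev (g : ℕ) (f F : R[X]) : Prop :=
  toLaurent f = LaurentPolynomial.T (2 * g + 2) * LaurentPolynomial.invert (toLaurent F)

/-- The homomorphism `R[X] → R[T;T⁻¹]` with `X ↦ T⁻¹`. -/
noncomputable def toLaurentInv : R[X] →+* LaurentPolynomial R :=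
  (LaurentPolynomial.invert (R := R)).toRingEquiv.toRingHom.comp toLaurent

theorem toLaurentInv_apply (p : R[X]) :
    toLaurentInv p = LaurentPolynomial.invert (toLaurent p) := rfl

theorem rev_cond {g : ℕ} {f F : R[X]} (h : Rev g f F) :
    (LaurentPolynomial.T (-(g + 1)) : LaurentPolynomial R) ^ 2 * toLaurent f =
      toLaurentInv F := by
  rw [h, LaurentPolynomial.T_pow, ← mul_assoc, ← LaurentPolynomial.T_add, toLaurentInv_apply]
  have : ((2 : ℕ) : ℤ) * (-((g : ℤ) + 1)) + (2 * g + 2) = 0 := by push_cast; ring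
  rw [this, LaurentPolynomial.T_zero, one_mul]

theorem isLocalization_toLaurent :
    @IsLocalization.Away _ _ (X : R[X]) (LaurentPolynomial R) _ toLaurent.toAlgebra := by
  have h := LaurentPolynomial.isLocalization (R := R)
  convert h

theorem isLocalization_toLaurentInv :
    @IsLocalization.Away _ _ (X : R[X]) (LaurentPolynomial R) _ toLaurentInv.toAlgebra := by
  let := (toLaurent : R[X] →+* LaurentPolynomial R).toAlgebra
  have h : IsLocalization.Away (X : R[X]) (LaurentPolynomial R) := isLocalization_toLaurent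
  exact @IsLocalization.isLocalization_of_algEquiv _ _ (Submonoid.powers (X : R[X])) _ _ _
    (LaurentPolynomial R) _ toLaurentInv.toAlgebra h
    (@AlgEquiv.ofRingEquiv _ _ _ _ _ _ _ toLaurentInv.toAlgebra
      (LaurentPolynomial.invert (R := R)).toRingEquiv (fun r => rfl))

/-- The inclusion of the coordinate ring of the first chart. -/
noncomputable def iHom (f : R[X]) : Quad f →+* Quad (toLaurent f) :=
  qmap toLaurent 1 (by rw [one_pow, one_mul])

/-- The inclusion of the coordinate ring of the second chart. -/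
noncomputable def jHom {g : ℕ} {f F : R[X]} (h : Rev g f F) : Quad F →+* Quad (toLaurent f) :=
  qmap toLaurentInv (LaurentPolynomial.T (-(g + 1))) (rev_cond h)

theorem iHom_loc (f : R[X]) : @IsLocalization.Away _ _ (algebraMap R[X] (Quad f) X)
    (Quad (toLaurent f)) _ (iHom f).toAlgebra := by
  have h := qmap_isLocalization (f := f) (f' := toLaurent f) toLaurent 1 1
    (by rw [one_pow, one_mul]) (one_mul 1) X isLocalization_toLaurent
  exact h

theorem jHom_loc {g : ℕ} {f F : R[X]} (h : Rev g f F) :
    @IsLocalization.Away _ _ (algebraMap R[X] (Quad F) X)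
    (Quad (toLaurent f)) _ (jHom h).toAlgebra :=
  qmap_isLocalization toLaurentInv _ (LaurentPolynomial.T (g + 1)) _
    (by rw [← LaurentPolynomial.T_add, neg_add_cancel, LaurentPolynomial.T_zero]) X
    isLocalization_toLaurentInv

theorem iHom_algebraMap (f : R[X]) (p : R[X]) :
    iHom f (algebraMap R[X] (Quad f) p) = algebraMap _ _ (toLaurent p) :=
  qmap_algebraMap _ _ _ _

theorem jHom_algebraMap {g : ℕ} {f F : R[X]} (h : Rev g f F) (p : R[X]) :
    jHom h (algebraMap R[X] (Quad F) p) =
      algebraMap _ _ (LaurentPolynomial.invert (toLaurent p)) :=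
  qmap_algebraMap _ _ _ _

theorem iHom_jHom_comm {g : ℕ} {f F : R[X]} (h : Rev g f F) :
    (iHom f).comp (algebraMap R (Quad f)) = (jHom h).comp (algebraMap R (Quad F)) := by
  apply RingHom.ext
  intro r
  change iHom f (algebraMap R[X] (Quad f) (C r)) = jHom h (algebraMap R[X] (Quad F) (C r))
  rw [iHom_algebraMap, jHom_algebraMap, toLaurent_C, LaurentPolynomial.invert_C]

theorem iHom_mul_jHom {g : ℕ} {f F : R[X]} (h : Rev g f F) :
    iHom f (algebraMap R[X] (Quad f) X) * jHom h (algebraMap R[X] (Quad F) X) = 1 := by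
  rw [iHom_algebraMap, jHom_algebraMap, ← map_mul, toLaurent_X,
      LaurentPolynomial.invert_T, ← LaurentPolynomial.T_add, add_neg_cancel,
      LaurentPolynomial.T_zero, map_one]

/-- The two charts of the curve `y ^ 2 = f (x)`, `v ^ 2 = F (u)`, with `u = 1 / x` and
`v = y / x ^ (g + 1)`. -/
noncomputable def curve (g : ℕ) (f F : R[X]) (h : Rev g f F) : TwoCharts (.of R) where
  A := .of (Quad f)
  B := .of (Quad F)
  C := .of (Quad (toLaurent f))
  a := CommRingCat.ofHom (algebraMap R (Quad f))
  b := CommRingCat.ofHom (algebraMap R (Quad F))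
  i := CommRingCat.ofHom (iHom f)
  j := CommRingCat.ofHom (jHom h)
  comm := by
    rw [← CommRingCat.ofHom_comp, ← CommRingCat.ofHom_comp, iHom_jHom_comm]
  x := algebraMap R[X] (Quad f) X
  u := algebraMap R[X] (Quad F) X
  hi := iHom_loc f
  hj := jHom_loc h
  xu := iHom_mul_jHom h

theorem bounded_quad (f : R[X]) :
    Bounded (CommRingCat.ofHom (algebraMap R (Quad f))) (A := .of (Quad f))
      (algebraMap R[X] (Quad f) X) := by
  intro O K _ _ _ _ _ _ φ ψ h hx z
  obtain ⟨t, ht⟩ := hx
  have key : ∀ p : R[X], φ (algebraMap R[X] (Quad f) p) ∈ (algebraMap O K).range := by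
    intro p
    refine ⟨Polynomial.eval₂ ψ t p, ?_⟩
    rw [Polynomial.hom_eval₂, ← h, ht]
    have h1 : φ (algebraMap R[X] (Quad f) p) = (φ.comp (algebraMap R[X] (Quad f))) p := rfl
    rw [h1]
    conv_rhs => rw [← Polynomial.eval₂_C_X (p := p)]
    rw [Polynomial.hom_eval₂]
    rfl
  have hw : φ (Quad.w f) ∈ (algebraMap O K).range := by
    obtain ⟨s, hs⟩ := key f
    have h1 : φ (Quad.w f) ^ 2 = algebraMap O K s := by rw [← map_pow, Quad.w_sq, hs]
    have h2 : IsIntegral O (φ (Quad.w f)) := by
      refine IsIntegral.of_pow (n := 2) (by norm_num) ?_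
      rw [h1]
      exact isIntegral_algebraMap
    exact (IsIntegrallyClosed.isIntegral_iff).1 h2
  have h3 := Quad.eq f z
  have h4 : φ z = φ (algebraMap R[X] (Quad f) z.re) +
      φ (algebraMap R[X] (Quad f) z.im) * φ (Quad.w f) := by
    rw [← map_mul, ← map_add]
    exact congrArg φ h3
  rw [h4]
  exact add_mem (key _) (mul_mem (key _) hw)

theorem finiteType_quad (f : R[X]) : (algebraMap R (Quad f)).FiniteType := by
  have h1 : (algebraMap R R[X]).FiniteType := by
    rw [RingHom.finiteType_algebraMap]
    infer_instance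
  have h2 : (algebraMap R[X] (Quad f)).FiniteType := by
    rw [RingHom.finiteType_algebraMap]
    infer_instance
  exact h2.comp h1

theorem curve_isProper [IsNoetherianRing R] (g : ℕ) (f F : R[X]) (h : Rev g f F) :
    IsProper (curve g f F h).toSpec := by
  have : IsNoetherianRing (CommRingCat.of R) := inferInstanceAs (IsNoetherianRing R)
  exact (curve g f F h).isProper (finiteType_quad f) (finiteType_quad F) (bounded_quad f)
    (bounded_quad F)

end

end Pool.Agent.Work.MP_2eb777_ag
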