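import Mathlib

set_option autoImplicit false

open CategoryTheory CategoryTheory.Limits AlgebraicGeometry

namespace Pool.Agent.Work.MP_2eb777_ag

/-- The ring homomorphism from `k` to the sections over `W` of a scheme `Y` over `Spec k`. -/
noncomputable def scalars {k : Type} [Field k] {Y : Scheme.{0}} (p : Y ⟶ Spec (.of k))
    (W : Y.Opens) : k →+* Γ(Y, W) :=
  ((Scheme.ΓSpecIso (.of k)).inv ≫ p.appTop ≫ Y.presheaf.map (homOfLE le_top).op).hom

/-- The scheme `Y` over the field `k` is the union of two affine open subsets `U` and `V` such that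
`Γ(U ∩ V) / (Γ(U) + Γ(V))`, the first Cech cohomology group of the structure sheaf, has
dimension `g` over `k`. -/
def HasGenus {k : Type} [Field k] {Y : Scheme.{0}} (p : Y ⟶ Spec (.of k)) (g : ℕ) : Prop :=
  ∃ U V : Y.Opens, IsAffineOpen U ∧ IsAffineOpen V ∧ U ⊔ V = ⊤ ∧
    letI : Algebra k Γ(Y, U ⊓ V) := (scalars p (U ⊓ V)).toAlgebra
    Module.rank k (Γ(Y, U ⊓ V) ⧸ Submodule.span k
      (Set.range (Y.presheaf.map (homOfLE (inf_le_left : U ⊓ V ≤ U)).op).hom ∪
        Set.range (Y.presheaf.map (homOfLE (inf_le_right : U ⊓ V ≤ V)).op).hom)) = g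

/-- `π : X ⟶ S` is a family of smooth projective curves of genus `g`: it is smooth of relative
dimension one and proper, and its geometric fibres are connected of genus `g`. -/
structure IsCurveFamily (g : ℕ) {X S : Scheme.{0}} (π : X ⟶ S) : Prop where
  smooth : SmoothOfRelativeDimension 1 π
  proper : IsProper π
  connected : ∀ (k : Type) [Field k] [IsAlgClosed k] (s : Spec (.of k) ⟶ S),
    ConnectedSpace (pullback π s : Scheme.{0})
  genus : ∀ (k : Type) [Field k] [IsAlgClosed k] (s : Spec (.of k) ⟶ S),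
    HasGenus (pullback.snd π s) g

/-- The complex numbers as a base scheme. -/
noncomputable abbrev SpecC : Scheme.{0} := Spec (.of ℂ)

/-- A rule assigning to every family of curves of genus `g` over a complex scheme `S` a morphism
from `S` to the complex scheme `N`, compatible with base change. -/
structure ModuliRule (g : ℕ) {N : Scheme.{0}} (str : N ⟶ SpecC) where
  map : ∀ {X S : Scheme.{0}} (π : X ⟶ S) (σ : S ⟶ SpecC), IsCurveFamily g π → (S ⟶ N)
  map_str : ∀ {X S : Scheme.{0}} (π : X ⟶ S) (σ : S ⟶ SpecC) (h : IsCurveFamily g π),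
    map π σ h ≫ str = σ
  map_pullback : ∀ {X S X' S' : Scheme.{0}} (π : X ⟶ S) (σ : S ⟶ SpecC) (h : IsCurveFamily g π)
    (π' : X' ⟶ S') (h' : IsCurveFamily g π') (F : X' ⟶ X) (f : S' ⟶ S),
    IsPullback F π' π f → map π' (f ≫ σ) h' = f ≫ map π σ h

/-- A coarse moduli space of smooth projective complex curves of genus `g`. -/
structure CoarseModuliSpace (g : ℕ) where
  M : Scheme.{0}
  str : M ⟶ SpecC
  separated : IsSeparated str
  locallyOfFiniteType : LocallyOfFiniteType str
  quasiCompact : QuasiCompact str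
  rule : ModuliRule g str
  points_injective : ∀ {C C' : Scheme.{0}} (π : C ⟶ SpecC) (π' : C' ⟶ SpecC)
    (h : IsCurveFamily g π) (h' : IsCurveFamily g π'),
    rule.map π (𝟙 _) h = rule.map π' (𝟙 _) h' → ∃ e : C ≅ C', e.hom ≫ π' = π
  points_surjective : ∀ p : SpecC ⟶ M, p ≫ str = 𝟙 _ →
    ∃ (C : Scheme.{0}) (π : C ⟶ SpecC) (h : IsCurveFamily g π), rule.map π (𝟙 _) h = p
  universal : ∀ {N : Scheme.{0}} (n : N ⟶ SpecC) (τ : ModuliRule g n),
    ∃! φ : M ⟶ N, φ ≫ n = str ∧ ∀ {X S : Scheme.{0}} (π : X ⟶ S) (σ : S ⟶ SpecC)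
      (h : IsCurveFamily g π), τ.map π σ h = rule.map π σ h ≫ φ

/-- The affine line over the complex numbers. -/
noncomputable abbrev AffLine : Scheme.{0} := Spec (.of (Polynomial ℂ))

/-- Its structure morphism. -/
noncomputable abbrev AffLine.str : AffLine ⟶ SpecC :=
  Spec.map (CommRingCat.ofHom (Polynomial.C : ℂ →+* Polynomial ℂ))

/-- The closed point of the affine line with coordinate `c`. -/
noncomputable abbrev AffLine.pt (c : ℂ) : SpecC ⟶ AffLine :=
  Spec.map (CommRingCat.ofHom (Polynomial.evalRingHom c))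

end Pool.Agent.Work.MP_2eb777_ag
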