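import Mathlib

set_option autoImplicit false

open CategoryTheory CategoryTheory.Limits AlgebraicGeometry Polynomial
open scoped TensorProduct

namespace Pool.Agent.Work.MP_2eb777_ag

theorem ext_of_jointly_injective {P : CommRingCat.{0}} {M Z : Scheme.{0}} (s : M ⟶ Z)
    [IsSeparated s] {p q : Spec P ⟶ M} (h : p ≫ s = q ≫ s) {ι : Type} (T : ι → CommRingCat.{0})
    (μ : ∀ i, P ⟶ T i) (hμ : ∀ i, Spec.map (μ i) ≫ p = Spec.map (μ i) ≫ q)
    (hinj : ∀ z : P, (∀ i, (μ i).hom z = 0) → z = 0) : p = q := by
  let X' : Over Z := Over.mk (p ≫ s)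
  let Y' : Over Z := Over.mk s
  let f' : X' ⟶ Y' := Over.homMk p
  let g' : X' ⟶ Y' := Over.homMk q
  have : IsSeparated Y'.hom := ‹_›
  obtain ⟨I, e, he⟩ := (IsClosedImmersion.Spec_iff (R := P)
    (f := (equalizer.ι f' g').left)).1 inferInstance
  have hI : I = ⊥ := by
    rw [eq_bot_iff]
    intro z hz
    apply hinj
    intro i
    let U' : Over Z := Over.mk (Spec.map (μ i) ≫ p ≫ s)
    let m : U' ⟶ X' := Over.homMk (Spec.map (μ i))
    have hm : m ≫ f' = m ≫ g' := by
      ext1
      exact hμ i
    let l := (equalizer.lift m hm).left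
    have hl : l ≫ (equalizer.ι f' g').left = Spec.map (μ i) := by
      change (equalizer.lift m hm).left ≫ (equalizer.ι f' g').left = _
      rw [← Over.comp_left, equalizer.lift_ι]
      rfl
    let ν : CommRingCat.of (P ⧸ I) ⟶ T i := Spec.preimage (l ≫ e.hom)
    have hν : CommRingCat.ofHom (Ideal.Quotient.mk I) ≫ ν = μ i := by
      apply Spec.map_injective
      rw [Spec.map_comp, Spec.map_preimage, Category.assoc, ← he, hl]
    have h1 : (μ i).hom z = ν.hom (Ideal.Quotient.mk I z) := by
      rw [← hν]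
      rfl
    rw [h1, Ideal.Quotient.eq_zero_iff_mem.2 hz, map_zero]
  have hiso : IsIso (equalizer.ι f' g').left := by
    rw [he]
    have : IsIso (CommRingCat.ofHom (Ideal.Quotient.mk I)) := by
      rw [ConcreteCategory.isIso_iff_bijective]
      constructor
      · intro a b hab
        have h1 : a - b ∈ I := Ideal.Quotient.eq.1 hab
        rw [hI] at h1
        exact sub_eq_zero.1 h1
      · exact Ideal.Quotient.mk_surjective
    infer_instance
  rw [← cancel_epi (equalizer.ι f' g').left]
  exact congrArg (fun f => f.left) (equalizer.condition f' g')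

theorem descend {S T : Type} [CommRing S] [CommRing T] [Algebra S T] [Module.FaithfullyFlat S T]
    {M Z : Scheme.{0}} (s : M ⟶ Z) [IsSeparated s] (f : Spec (.of T) ⟶ M)
    (r : Spec (.of S) ⟶ Z) (hr : f ≫ s = Spec.map (CommRingCat.ofHom (algebraMap S T)) ≫ r)
    {ι : Type} (σ : ι → (T →ₐ[S] T))
    (hσ : ∀ i, Spec.map (CommRingCat.ofHom (σ i).toRingHom) ≫ f = f)
    (hinj : ∀ z : T ⊗[S] T, (∀ i, Algebra.TensorProduct.lift (AlgHom.id S T) (σ i)
      (fun _ _ => Commute.all _ _) z = 0) → z = 0) :
    ∃ h : Spec (.of S) ⟶ M, Spec.map (CommRingCat.ofHom (algebraMap S T)) ≫ h = f := by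
  have hff : Surjective (Spec.map (CommRingCat.ofHom (algebraMap S T))) ∧
      Flat (Spec.map (CommRingCat.ofHom (algebraMap S T))) := by
    constructor
    · exact ⟨PrimeSpectrum.comap_surjective_of_faithfullyFlat⟩
    · rw [HasRingHomProperty.Spec_iff (P := @Flat)]
      exact (RingHom.flat_algebraMap_iff).2 inferInstance
  obtain ⟨hs, hf⟩ := hff
  have hreg : IsRegularEpi (Spec.map (CommRingCat.ofHom (algebraMap S T))) :=
    isRegularEpi_of_flat_of_surjective_of_isAffine _
  have hker : IsKernelPair (Spec.map (CommRingCat.ofHom (algebraMap S T)))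
      (Spec.map (CommRingCat.ofHom (Algebra.TensorProduct.includeLeftRingHom : T →+* T ⊗[S] T)))
      (Spec.map (CommRingCat.ofHom (Algebra.TensorProduct.includeRight : T →ₐ[S] T ⊗[S] T).toRingHom)) :=
    isPullback_SpecMap_of_isPushout _ _ _ _ (CommRingCat.isPushout_tensorProduct S T T)
  refine IsRegularEpi.exists_of_isKernelPair _ hker f ?_
  refine ext_of_jointly_injective s ?_ (fun _ : ι => CommRingCat.of T)
    (fun i => CommRingCat.ofHom (Algebra.TensorProduct.lift (AlgHom.id S T) (σ i)
      (fun _ _ => Commute.all _ _)).toRingHom) ?_ hinj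
  · rw [Category.assoc, Category.assoc, hr, ← Category.assoc, ← Category.assoc, hker.w]
  · intro i
    rw [← Category.assoc, ← Category.assoc, ← Spec.map_comp, ← Spec.map_comp]
    have h1 : CommRingCat.ofHom (Algebra.TensorProduct.includeLeftRingHom : T →+* T ⊗[S] T) ≫
        CommRingCat.ofHom (Algebra.TensorProduct.lift (AlgHom.id S T) (σ i)
          (fun _ _ => Commute.all _ _)).toRingHom = 𝟙 _ := by
      ext t
      simp
    have h2 : CommRingCat.ofHom
        (Algebra.TensorProduct.includeRight : T →ₐ[S] T ⊗[S] T).toRingHom ≫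
        CommRingCat.ofHom (Algebra.TensorProduct.lift (AlgHom.id S T) (σ i)
          (fun _ _ => Commute.all _ _)).toRingHom = CommRingCat.ofHom (σ i).toRingHom := by
      ext t
      simp
    rw [h1, h2, Spec.map_id, Category.id_comp, hσ]

end Pool.Agent.Work.MP_2eb777_ag
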