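import Pool.Agent.Work.MP_2eb777_ag.Connected

set_option autoImplicit false

open CategoryTheory CategoryTheory.Limits AlgebraicGeometry Polynomial

namespace Pool.Agent.Work.MP_2eb777_ag

theorem rev_map {R R' : Type} [CommRing R] [CommRing R'] (φ : R →+* R') {g : ℕ} {f F : R[X]}
    (h : Rev g f F) : Rev g (sc φ 1 f) (sc φ 1 F) := by
  have h1 := congrArg (scL φ 1) h
  rw [scL_toLaurent, map_mul, scL_T, ← toLaurentInv_apply, scL_toLaurentInv, one_zpow,
    Units.val_one, map_one, one_mul, inv_one, Units.val_one] at h1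
  exact h1

theorem scal_one {R R' : Type} [CommRing R] [CommRing R'] (φ : R →+* R') (f : R[X]) :
    Scal φ ((1 : R'ˣ) : R') ((1 : R'ˣ) : R') f (sc φ 1 f) := by
  rw [Scal, Units.val_one, map_one, one_pow, one_mul]

theorem iHom_nontrivial {k : Type} [Field k] (f : k[X]) : Nontrivial (Quad (toLaurent f)) :=
  inferInstance

theorem isCurveFamily_of {R : Type} [CommRing R] [IsNoetherianRing R] {g : ℕ} {f F : R[X]}
    (h : Rev g f F)
    (hsf : SmoothOfRelativeDimension 1 (Spec.map (CommRingCat.ofHom (algebraMap R (Quad f)))))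
    (hsF : SmoothOfRelativeDimension 1 (Spec.map (CommRingCat.ofHom (algebraMap R (Quad F)))))
    (hf : ∀ (k : Type) [Field k] (φ : R →+* k), NonSquare (sc φ 1 f))
    (hF : ∀ (k : Type) [Field k] (φ : R →+* k), NonSquare (sc φ 1 F)) :
    IsCurveFamily g (curve g f F h).toSpec := by
  have key : ∀ (k : Type) [Field k] (s : Spec (.of k) ⟶ Spec (.of R)),
      ∃ (D' : TwoCharts (.of k)) (e : D'.X ≅ pullback (curve g f F h).toSpec s),
        e.hom ≫ pullback.snd _ _ = D'.toSpec ∧ ConnectedSpace D'.X ∧
        HasGenus (pullback.snd (curve g f F h).toSpec s) g := by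
    intro k _ s
    obtain ⟨φ, hφ⟩ : ∃ φ : R →+* k, Spec.map (CommRingCat.ofHom φ) = s :=
      ⟨(Spec.preimage s).hom, by rw [CommRingCat.ofHom_hom, Spec.map_preimage]⟩
    subst hφ
    have hpb := curveMap_isPullback φ 1 1 (scal_one φ f) h (rev_map φ h)
    let D' := curve g (sc φ 1 f) (sc φ 1 F) (rev_map φ h)
    have hconn : ConnectedSpace D'.X :=
      D'.connectedSpace (quad_isDomain _ (hf k φ)) (quad_isDomain _ (hF k φ))
        (iHom_nontrivial _)
    have he : hpb.isoPullback.hom ≫ pullback.snd _ _ = D'.toSpec := hpb.isoPullback_hom_snd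
    exact ⟨D', hpb.isoPullback, he, hconn, D'.hasGenus _ hpb.isoPullback he g
      (curve_rank (rev_map φ h))⟩
  refine ⟨?_, curve_isProper g f F h, ?_, ?_⟩
  · have : IsZariskiLocalAtSource (@SmoothOfRelativeDimension 1) := inferInstance
    exact (curve g f F h).of_charts (P := @SmoothOfRelativeDimension 1) hsf hsF
  · intro k _ _ s
    obtain ⟨D', e, -, hconn, -⟩ := key k s
    exact e.hom.homeomorph.surjective.connectedSpace e.hom.continuous
  · intro k _ _ s
    obtain ⟨D', e, -, -, hg⟩ := key k s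
    exact hg

/-- The polynomial `X ^ (2 g + 1) + a X + b`. -/
noncomputable def fp {R : Type} [CommRing R] (g : ℕ) (a b : R) : R[X] :=
  X ^ (2 * g + 1) + C a * X + C b

/-- The polynomial `X + a X ^ (2 g + 1) + b X ^ (2 g + 2)`. -/
noncomputable def Fp {R : Type} [CommRing R] (g : ℕ) (a b : R) : R[X] :=
  X + C a * X ^ (2 * g + 1) + C b * X ^ (2 * g + 2)

theorem rev_fp {R : Type} [CommRing R] (g : ℕ) (a b : R) : Rev g (fp g a b) (Fp g a b) := by
  unfold Rev fp Fp
  simp only [map_add, map_mul, toLaurent_X_pow, toLaurent_X, toLaurent_C,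
    LaurentPolynomial.invert_T, LaurentPolynomial.invert_C, mul_add]
  have e1 : (LaurentPolynomial.T (2 * (g : ℤ) + 2) : LaurentPolynomial R) *
      LaurentPolynomial.T (-1) = LaurentPolynomial.T ((2 * g + 1 : ℕ) : ℤ) := by
    rw [← LaurentPolynomial.T_add]; congr 1; push_cast; ring
  have e2 : (LaurentPolynomial.T (2 * (g : ℤ) + 2) : LaurentPolynomial R) *
      LaurentPolynomial.T (-((2 * g + 1 : ℕ) : ℤ)) = LaurentPolynomial.T 1 := by
    rw [← LaurentPolynomial.T_add]; congr 1; push_cast; ring
  have e3 : (LaurentPolynomial.T (2 * (g : ℤ) + 2) : LaurentPolynomial R) *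
      LaurentPolynomial.T (-((2 * g + 2 : ℕ) : ℤ)) = 1 := by
    rw [← LaurentPolynomial.T_add, ← LaurentPolynomial.T_zero]; congr 1; push_cast; ring
  rw [e1]
  linear_combination (-(LaurentPolynomial.C a)) * e2 - (LaurentPolynomial.C b) * e3

theorem sc_fp {R R' : Type} [CommRing R] [CommRing R'] (φ : R →+* R') (g : ℕ) (a b : R) :
    sc φ 1 (fp g a b) = fp g (φ a) (φ b) := by
  simp [fp]

theorem sc_Fp {R R' : Type} [CommRing R] [CommRing R'] (φ : R →+* R') (g : ℕ) (a b : R) :
    sc φ 1 (Fp g a b) = Fp g (φ a) (φ b) := by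
  simp [Fp]

theorem nonSquare_fp {k : Type} [Field k] (g : ℕ) (hg : 1 ≤ g) (a b : k) :
    NonSquare (fp g a b) := by
  apply nonSquare_of_odd
  have : (fp g a b).natDegree = 2 * g + 1 := by
    unfold fp
    have h1 : (C a * X + C b : k[X]).natDegree ≤ 1 := by compute_degree
    rw [add_assoc, Polynomial.natDegree_add_eq_left_of_natDegree_lt]
    · simp
    · rw [Polynomial.natDegree_X_pow]
      omega
  rw [this]
  exact ⟨g, rfl⟩

theorem nonSquare_Fp {k : Type} [Field k] (g : ℕ) (hg : 1 ≤ g) (a b : k) :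
    NonSquare (Fp g a b) := by
  apply nonSquare_of_odd_trailing
  have : (Fp g a b).natTrailingDegree = 1 := by
    apply le_antisymm
    · apply Polynomial.natTrailingDegree_le_of_ne_zero
      simp only [Fp, Polynomial.coeff_add, Polynomial.coeff_X_one, Polynomial.coeff_C_mul,
        Polynomial.coeff_X_pow]
      rw [if_neg (by omega), if_neg (by omega)]
      simp
    · apply Polynomial.le_natTrailingDegree
      · intro h
        have h1 := congrArg (fun p : k[X] => p.coeff 1) h
        simp only [Fp, Polynomial.coeff_add, Polynomial.coeff_X_one, Polynomial.coeff_C_mul,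
          Polynomial.coeff_X_pow, Polynomial.coeff_zero] at h1
        rw [if_neg (by omega), if_neg (by omega)] at h1
        simp at h1
      · intro m hm
        obtain rfl : m = 0 := by omega
        simp [Fp]
  rw [this]
  exact odd_one

end Pool.Agent.Work.MP_2eb777_ag
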