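import Pool.Agent.Work.MP_2eb777_ag.Defs
import Pool.Agent.Work.MP_2eb777_ag.BaseChange

set_option autoImplicit false

open CategoryTheory CategoryTheory.Limits AlgebraicGeometry Polynomial

namespace Pool.Agent.Work.MP_2eb777_ag

theorem rank_congr {k C C' : Type} [Field k] [CommRing C] [CommRing C'] (s : k →+* C)
    (s' : k →+* C') (e : C ≃+* C') (hs : (e : C →+* C').comp s = s') (S : Set C) (S' : Set C')
    (hS : e '' S = S') :
    (letI : Algebra k C := s.toAlgebra; Module.rank k (C ⧸ Submodule.span k S)) =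
      (letI : Algebra k C' := s'.toAlgebra; Module.rank k (C' ⧸ Submodule.span k S')) := by
  let : Algebra k C := s.toAlgebra
  let : Algebra k C' := s'.toAlgebra
  let e' : C ≃ₐ[k] C' := AlgEquiv.ofRingEquiv (f := e)
    (fun r => congrArg (fun g : k →+* C' => g r) hs)
  have h1 : Submodule.map (e'.toLinearEquiv : C →ₗ[k] C') (Submodule.span k S) =
      Submodule.span k S' := by
    rw [Submodule.map_span, ← hS]
    rfl
  exact (Submodule.Quotient.equiv _ _ e'.toLinearEquiv h1).rank_eq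

theorem ev_bijective {Y : Scheme.{0}} {C : CommRingCat.{0}} (κ : Spec C ⟶ Y) [IsOpenImmersion κ]
    (U : Y.Opens) (e : ⊤ ≤ κ ⁻¹ᵁ U) (hU : U = κ.opensRange) :
    Function.Bijective (κ.appLE U ⊤ e ≫ (Scheme.ΓSpecIso C).hom).hom := by
  obtain rfl : U = κ ''ᵁ ⊤ := hU.trans (Scheme.Hom.image_top_eq_opensRange κ).symm
  rw [← Scheme.Hom.appIso_hom']
  exact ConcreteCategory.bijective_of_isIso ((κ.appIso ⊤).hom ≫ (Scheme.ΓSpecIso C).hom)

theorem appLE_ev {Y : Scheme.{0}} {A C : CommRingCat.{0}} (α : A ⟶ C) (i₁ : Spec A ⟶ Y)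
    (κ : Spec C ⟶ Y) (h : Spec.map α ≫ i₁ = κ) (U : Y.Opens) (e₁ : ⊤ ≤ i₁ ⁻¹ᵁ U)
    (e : ⊤ ≤ κ ⁻¹ᵁ U) : κ.appLE U ⊤ e ≫ (Scheme.ΓSpecIso C).hom =
      i₁.appLE U ⊤ e₁ ≫ (Scheme.ΓSpecIso A).hom ≫ α := by
  subst h
  rw [← Scheme.Hom.appLE_comp_appLE (Spec.map α) i₁ U ⊤ ⊤ e₁ le_rfl, Category.assoc,
    ← Scheme.ΓSpecIso_naturality]
  congr 2

theorem image_union {G₁ G₂ G A B C : Type} (E : G → C) (r₁ : G₁ → G) (r₂ : G₂ → G)
    (b₁ : G₁ → A) (b₂ : G₂ → B) (α : A → C) (β : B → C) (h₁ : ∀ t, E (r₁ t) = α (b₁ t))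
    (h₂ : ∀ t, E (r₂ t) = β (b₂ t)) (s₁ : Function.Surjective b₁) (s₂ : Function.Surjective b₂) :
    E '' (Set.range r₁ ∪ Set.range r₂) = Set.range α ∪ Set.range β := by
  rw [Set.image_union]
  congr 1
  · ext c
    constructor
    · rintro ⟨_, ⟨t, rfl⟩, rfl⟩
      exact ⟨b₁ t, (h₁ t).symm⟩
    · rintro ⟨a, rfl⟩
      obtain ⟨t, rfl⟩ := s₁ a
      exact ⟨r₁ t, ⟨t, rfl⟩, h₁ t⟩
  · ext c
    constructor
    · rintro ⟨_, ⟨t, rfl⟩, rfl⟩
      exact ⟨b₂ t, (h₂ t).symm⟩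
    · rintro ⟨a, rfl⟩
      obtain ⟨t, rfl⟩ := s₂ a
      exact ⟨r₂ t, ⟨t, rfl⟩, h₂ t⟩

theorem hasGenus_of {k : Type} [Field k] {Y : Scheme.{0}} (p : Y ⟶ Spec (.of k))
    {A B C : CommRingCat.{0}} (α : A ⟶ C) (β : B ⟶ C) (i₁ : Spec A ⟶ Y) (i₂ : Spec B ⟶ Y)
    [IsOpenImmersion i₁] [IsOpenImmersion i₂] [IsOpenImmersion (Spec.map α)]
    (hcov : i₁.opensRange ⊔ i₂.opensRange = ⊤)
    (hint : (Spec.map α ≫ i₁).opensRange = i₁.opensRange ⊓ i₂.opensRange)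
    (hglue : Spec.map α ≫ i₁ = Spec.map β ≫ i₂) (σ : k →+* C)
    (hσ : Spec.map α ≫ i₁ ≫ p = Spec.map (CommRingCat.ofHom σ)) (g : ℕ)
    (hrank : (letI : Algebra k C := σ.toAlgebra
      Module.rank k (C ⧸ Submodule.span k (Set.range α.hom ∪ Set.range β.hom))) = g) :
    HasGenus p g := by
  refine ⟨i₁.opensRange, i₂.opensRange, isAffineOpen_opensRange i₁, isAffineOpen_opensRange i₂,
    hcov, ?_⟩
  set κ := Spec.map α ≫ i₁ with hκ
  have e : ⊤ ≤ κ ⁻¹ᵁ (i₁.opensRange ⊓ i₂.opensRange) := by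
    rw [← hint]
    intro q _
    exact ⟨q, rfl⟩
  have e₁ : ⊤ ≤ i₁ ⁻¹ᵁ i₁.opensRange := fun q _ => ⟨q, rfl⟩
  have e₂ : ⊤ ≤ i₂ ⁻¹ᵁ i₂.opensRange := fun q _ => ⟨q, rfl⟩
  have hb := ev_bijective κ _ e hint.symm
  have hb₁ := ev_bijective i₁ _ e₁ rfl
  have hb₂ := ev_bijective i₂ _ e₂ rfl
  let E : Γ(Y, i₁.opensRange ⊓ i₂.opensRange) ≃+* C := RingEquiv.ofBijective _ hb
  have hn₁ : Y.presheaf.map (homOfLE (inf_le_left : i₁.opensRange ⊓ i₂.opensRange ≤ _)).op ≫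
      κ.appLE _ ⊤ e ≫ (Scheme.ΓSpecIso C).hom =
      (i₁.appLE _ ⊤ e₁ ≫ (Scheme.ΓSpecIso A).hom) ≫ α := by
    rw [← Category.assoc, Scheme.Hom.map_appLE, Category.assoc]
    exact appLE_ev α i₁ κ rfl _ _ _
  have hn₂ : Y.presheaf.map (homOfLE (inf_le_right : i₁.opensRange ⊓ i₂.opensRange ≤ _)).op ≫
      κ.appLE _ ⊤ e ≫ (Scheme.ΓSpecIso C).hom =
      (i₂.appLE _ ⊤ e₂ ≫ (Scheme.ΓSpecIso B).hom) ≫ β := by
    rw [← Category.assoc, Scheme.Hom.map_appLE, Category.assoc]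
    exact appLE_ev β i₂ κ hglue.symm _ _ _
  rw [← hrank]
  apply rank_congr (scalars p (i₁.opensRange ⊓ i₂.opensRange)) σ E
  · have h1 : ((Scheme.ΓSpecIso (.of k)).inv ≫ p.appTop ≫ Y.presheaf.map
        (homOfLE (le_top : i₁.opensRange ⊓ i₂.opensRange ≤ ⊤)).op) ≫
        κ.appLE _ ⊤ e ≫ (Scheme.ΓSpecIso C).hom = CommRingCat.ofHom σ := by
      rw [Category.assoc, Category.assoc, ← Category.assoc (Y.presheaf.map _),
        Scheme.Hom.map_appLE, Iso.inv_comp_eq, ← Scheme.ΓSpecIso_naturality, ← hσ,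
        ← Category.assoc (Spec.map α), ← hκ, ← Category.assoc]
      congr 1
    exact congrArg CommRingCat.Hom.hom h1
  · exact image_union _ _ _ _ _ α.hom β.hom
      (fun t => congrArg (fun f : Γ(Y, i₁.opensRange) ⟶ C => f.hom t) hn₁)
      (fun t => congrArg (fun f : Γ(Y, i₂.opensRange) ⟶ C => f.hom t) hn₂) hb₁.2 hb₂.2

theorem TwoCharts.opensRange_inf {R : CommRingCat.{0}} (D : TwoCharts R) :
    (Spec.map D.i ≫ D.ι₁).opensRange = D.ι₁.opensRange ⊓ D.ι₂.opensRange := by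
  apply TopologicalSpace.Opens.ext
  ext p
  constructor
  · rintro ⟨q, rfl⟩
    refine ⟨⟨Spec.map D.i q, rfl⟩, ⟨Spec.map D.j q, ?_⟩⟩
    rw [← Scheme.Hom.comp_apply, ← D.glue]
  · rintro ⟨⟨q, rfl⟩, ⟨r, hr⟩⟩
    obtain ⟨t, rfl, ht⟩ := (D.eq_iff q r).1 hr.symm
    exact ⟨t, rfl⟩

theorem TwoCharts.hasGenus {k : Type} [Field k] (D : TwoCharts (.of k)) {Y : Scheme.{0}}
    (p : Y ⟶ Spec (.of k)) (e : D.X ≅ Y) (he : e.hom ≫ p = D.toSpec) (g : ℕ)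
    (hrank : (letI : Algebra k D.C := (D.a ≫ D.i).hom.toAlgebra
      Module.rank k (D.C ⧸ Submodule.span k (Set.range D.i.hom ∪ Set.range D.j.hom))) = g) :
    HasGenus p g := by
  refine hasGenus_of p D.i D.j (D.ι₁ ≫ e.hom) (D.ι₂ ≫ e.hom) ?_ ?_ ?_ (D.a ≫ D.i).hom ?_ g hrank
  · rw [Scheme.Hom.opensRange_comp, Scheme.Hom.opensRange_comp]
    apply TopologicalSpace.Opens.ext
    ext q
    refine ⟨fun _ => trivial, fun _ => ?_⟩
    have h1 : e.inv q ∈ D.ι₁.opensRange ⊔ D.ι₂.opensRange := by rw [D.sup_eq_top]; trivial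
    have h2 : e.hom (e.inv q) = q := by rw [← Scheme.Hom.comp_apply]; simp
    rcases h1 with h1 | h1
    · exact Or.inl ⟨_, h1, h2⟩
    · exact Or.inr ⟨_, h1, h2⟩
  · have h1 : (Spec.map D.i ≫ D.ι₁ ≫ e.hom).opensRange =
        e.hom ''ᵁ (Spec.map D.i ≫ D.ι₁).opensRange := by
      rw [← Scheme.Hom.opensRange_comp]
      simp only [Category.assoc]
    rw [h1, D.opensRange_inf, Scheme.Hom.opensRange_comp, Scheme.Hom.opensRange_comp]
    apply TopologicalSpace.Opens.ext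
    exact Set.image_inter e.hom.injective
  · rw [← Category.assoc, ← Category.assoc, D.glue]
  · rw [Category.assoc, he, D.ι₁_toSpec, ← Spec.map_comp]
    rfl

end Pool.Agent.Work.MP_2eb777_ag
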