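import Pool.Agent.Work.MP_2eb777_ag.Genus

set_option autoImplicit false

open CategoryTheory CategoryTheory.Limits AlgebraicGeometry Polynomial

namespace Pool.Agent.Work.MP_2eb777_ag

theorem laurent_sum {R : Type} [CommRing R] (p : LaurentPolynomial R) :
    p = ∑ n ∈ p.coeff.support, LaurentPolynomial.C (p.coeff n) * LaurentPolynomial.T n := by
  ext a
  simp_rw [← LaurentPolynomial.single_eq_C_mul_T]
  simp only [AddMonoidAlgebra.coeff_sum, AddMonoidAlgebra.coeff_single]
  rw [Finset.sum_apply', Finset.sum_eq_single a, Finsupp.single_eq_same]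
  · intro b _ hb
    rw [Finsupp.single_eq_of_ne' hb]
  · intro ha
    rw [Finsupp.single_eq_same, Finsupp.notMem_support_iff.mp ha]

theorem coeff_mul_T {R : Type} [CommRing R] (p : LaurentPolynomial R) (m n : ℤ) :
    (p * LaurentPolynomial.T m).coeff n = p.coeff (n - m) := by
  induction p using LaurentPolynomial.induction_on' with
  | add p q hp hq => simp only [add_mul, AddMonoidAlgebra.coeff_add, Finsupp.add_apply, hp, hq]
  | C_mul_T a r =>
    rw [mul_assoc, ← LaurentPolynomial.T_add, ← LaurentPolynomial.single_eq_C_mul_T,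
      ← LaurentPolynomial.single_eq_C_mul_T]
    simp only [AddMonoidAlgebra.coeff_single, Finsupp.single_apply]
    congr 1
    apply propext
    omega

theorem coeff_toLaurent_neg {R : Type} [CommRing R] (p : R[X]) (n : ℤ) (hn : n < 0) :
    (toLaurent p).coeff n = 0 := by
  rw [← Finsupp.notMem_support_iff, LaurentPolynomial.support_coeff_toLaurent]
  simp only [Finset.mem_map, not_exists, not_and]
  rintro m - hm
  have : ((m : ℕ) : ℤ) = n := hm
  omega

theorem coeff_C_mul {R : Type} [CommRing R] (r : R) (p : LaurentPolynomial R) (n : ℤ) :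
    (LaurentPolynomial.C r * p).coeff n = r * p.coeff n := by
  rw [← LaurentPolynomial.smul_eq_C_mul]
  simp

theorem mk_mul_quad {S : Type} [CommRing S] {f : S} (a : S) (z : Quad f) :
    (⟨a, 0⟩ : Quad f) * z = ⟨a * z.re, a * z.im⟩ := by
  ext <;> simp

section

variable {k : Type} [Field k] {g : ℕ} {f F : k[X]} (h : Rev g f F)

/-- The coordinate ring of the overlap. -/
def Ov (f : k[X]) : Type := Quad (toLaurent f)

noncomputable instance (f : k[X]) : CommRing (Ov f) := inferInstanceAs (CommRing (Quad (toLaurent f)))

/-- The scalars on the overlap. -/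
noncomputable def sC (f : k[X]) : k →+* Ov f := (iHom f).comp (algebraMap k (Quad f))

theorem sC_apply (f : k[X]) (r : k) : sC f r = (⟨LaurentPolynomial.C r, 0⟩ : Quad (toLaurent f)) := by
  change iHom f (algebraMap k[X] (Quad f) (C r)) = _
  rw [iHom_algebraMap, toLaurent_C, QuadraticAlgebra.algebraMap_eq]

/-- The inclusions of the two charts. -/
noncomputable def iOv (f : k[X]) : Quad f →+* Ov f := iHom f

noncomputable def jOv : Quad F →+* Ov f := jHom h

theorem curve_rank :
    (letI : Algebra k (Ov f) := (sC f).toAlgebra;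
      Module.rank k (Ov f ⧸
        Submodule.span k (Set.range (iOv f) ∪ Set.range (jOv h)))) = g := by
  let : Algebra k (Ov f) := (sC f).toAlgebra
  have hsmul : ∀ (r : k) (z : Ov f), (r • z : Ov f) =
      (⟨LaurentPolynomial.C r * QuadraticAlgebra.re z, LaurentPolynomial.C r * QuadraticAlgebra.im z⟩ :
        Quad (toLaurent f)) := by
    intro r z
    rw [Algebra.smul_def]
    change sC f r * z = _
    rw [sC_apply]
    exact mk_mul_quad _ z
  let L : Ov f →ₗ[k] (Fin g → k) :=
    { toFun := fun z n => (QuadraticAlgebra.im z).coeff (-((n : ℕ) + 1 : ℤ))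
      map_add' := fun z z' => by
        ext n
        change (QuadraticAlgebra.im z + QuadraticAlgebra.im z').coeff _ = _
        simp
      map_smul' := fun r z => by
        ext n
        rw [hsmul]
        exact coeff_C_mul _ _ _ }
  have hL : ∀ z (n : Fin g), L z n = (QuadraticAlgebra.im z).coeff (-((n : ℕ) + 1 : ℤ)) :=
    fun z n => rfl
  have hsurj : Function.Surjective L := by
    intro v
    refine ⟨(⟨0, ∑ m : Fin g, LaurentPolynomial.C (v m) *
      LaurentPolynomial.T (-((m : ℕ) + 1 : ℤ))⟩ : Quad (toLaurent f)), ?_⟩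
    ext n
    rw [hL]
    simp only [← LaurentPolynomial.single_eq_C_mul_T, AddMonoidAlgebra.coeff_sum,
      AddMonoidAlgebra.coeff_single]
    rw [Finset.sum_apply', Finset.sum_eq_single n, Finsupp.single_eq_same]
    · intro b _ hb
      rw [Finsupp.single_apply, if_neg]
      intro hbn
      apply hb
      apply Fin.ext
      omega
    · intro hn
      exact absurd (Finset.mem_univ n) hn
  have hker : LinearMap.ker L = Submodule.span k (Set.range (iOv f) ∪ Set.range (jOv h)) := by
    apply le_antisymm
    · intro z hz
      have hz' : ∀ n : Fin g, (QuadraticAlgebra.im z).coeff (-((n : ℕ) + 1 : ℤ)) = 0 :=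
        fun n => congrFun (LinearMap.mem_ker.1 hz) n
      have hi : ∀ t : Quad f, iHom f t ∈ Submodule.span k (Set.range (iOv f) ∪ Set.range (jOv h)) :=
        fun t => Submodule.subset_span (Or.inl ⟨t, rfl⟩)
      have hj : ∀ t : Quad F, jHom h t ∈ Submodule.span k (Set.range (iOv f) ∪ Set.range (jOv h)) :=
        fun t => Submodule.subset_span (Or.inr ⟨t, rfl⟩)
      have c1 : ∀ (n : ℤ) (c : k), (⟨LaurentPolynomial.C c * LaurentPolynomial.T n, 0⟩ :
          Quad (toLaurent f)) ∈
          Submodule.span k (Set.range (iOv f) ∪ Set.range (jOv h)) := by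
        intro n c
        rcases Int.eq_nat_or_neg n with ⟨m, rfl | rfl⟩
        · have := hi (algebraMap k[X] (Quad f) (C c * X ^ m))
          rwa [iHom_algebraMap, toLaurent_C_mul_X_pow, QuadraticAlgebra.algebraMap_eq] at this
        · have := hj (algebraMap k[X] (Quad F) (C c * X ^ m))
          rwa [jHom_algebraMap, toLaurent_C_mul_X_pow, map_mul, LaurentPolynomial.invert_C,
            LaurentPolynomial.invert_T, QuadraticAlgebra.algebraMap_eq] at this
      have c2 : ∀ (n : ℤ) (c : k), 0 ≤ n ∨ n ≤ -((g : ℤ) + 1) →
          (⟨0, LaurentPolynomial.C c * LaurentPolynomial.T n⟩ : Quad (toLaurent f)) ∈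
          Submodule.span k (Set.range (iOv f) ∪ Set.range (jOv h)) := by
        intro n c hn
        rcases hn with hn | hn
        · obtain ⟨m, rfl⟩ := Int.eq_ofNat_of_zero_le hn
          have := hi (⟨0, C c * X ^ m⟩ : Quad f)
          convert this using 1
          apply QuadraticAlgebra.ext
          · rw [iHom, qmap_re, map_zero]
          · rw [iHom, qmap_im, toLaurent_C_mul_X_pow, mul_one]
        · obtain ⟨m, hm⟩ := Int.eq_ofNat_of_zero_le (show 0 ≤ -(n + ((g : ℤ) + 1)) by omega)
          have := hj (⟨0, C c * X ^ m⟩ : Quad F)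
          convert this using 1
          apply QuadraticAlgebra.ext
          · rw [jHom, qmap_re, map_zero]
          · rw [jHom, qmap_im, toLaurentInv_apply, toLaurent_C_mul_X_pow, map_mul,
              LaurentPolynomial.invert_C, LaurentPolynomial.invert_T, mul_assoc,
              ← LaurentPolynomial.T_add]
            rw [show -(m : ℤ) + -((g : ℤ) + 1) = n by omega]
      let P₁ : LaurentPolynomial k →+ Ov f :=
        { toFun := fun p => (⟨p, 0⟩ : Quad (toLaurent f))
          map_zero' := rfl
          map_add' := fun p q => by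
            change (⟨p + q, 0⟩ : Quad (toLaurent f)) = ⟨p, 0⟩ + ⟨q, 0⟩
            ext <;> simp }
      let P₂ : LaurentPolynomial k →+ Ov f :=
        { toFun := fun p => (⟨0, p⟩ : Quad (toLaurent f))
          map_zero' := rfl
          map_add' := fun p q => by
            change (⟨0, p + q⟩ : Quad (toLaurent f)) = ⟨0, p⟩ + ⟨0, q⟩
            ext <;> simp }
      have hz1 : z = P₁ (QuadraticAlgebra.re z) + P₂ (QuadraticAlgebra.im z) := by
        change (z : Ov f) = (⟨QuadraticAlgebra.re z, 0⟩ : Quad (toLaurent f)) +
          (⟨0, QuadraticAlgebra.im z⟩ : Quad (toLaurent f))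
        apply QuadraticAlgebra.ext <;> simp
      rw [hz1]
      apply Submodule.add_mem
      · rw [laurent_sum (QuadraticAlgebra.re z), map_sum]
        exact Submodule.sum_mem _ (fun n _ => c1 n _)
      · rw [laurent_sum (QuadraticAlgebra.im z), map_sum]
        refine Submodule.sum_mem _ (fun n hn => c2 n _ ?_)
        by_contra hcon
        push Not at hcon
        obtain ⟨m, hm⟩ := Int.eq_ofNat_of_zero_le (show 0 ≤ -n - 1 by omega)
        have hmg : m < g := by omega
        apply Finsupp.mem_support_iff.1 hn
        have := hz' ⟨m, hmg⟩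
        rwa [show (-(((⟨m, hmg⟩ : Fin g) : ℕ) + 1 : ℤ)) = n by simp; omega] at this
    · rw [Submodule.span_le]
      rintro _ (⟨t, rfl⟩ | ⟨t, rfl⟩)
      · apply LinearMap.mem_ker.2
        ext n
        rw [hL]
        change (QuadraticAlgebra.im (iHom f t)).coeff _ = 0
        rw [iHom, qmap_im, mul_one]
        exact coeff_toLaurent_neg _ _ (by omega)
      · apply LinearMap.mem_ker.2
        ext n
        rw [hL]
        change (QuadraticAlgebra.im (jHom h t)).coeff _ = 0
        rw [jHom, qmap_im, coeff_mul_T, toLaurentInv_apply, LaurentPolynomial.invert_apply]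
        exact coeff_toLaurent_neg _ _ (by have := n.2; omega)
  rw [← hker, (L.quotKerEquivOfSurjective hsurj).rank_eq]
  simp

end

end Pool.Agent.Work.MP_2eb777_ag
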