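import Mathlib

set_option autoImplicit false

open CategoryTheory CategoryTheory.Limits AlgebraicGeometry

namespace Pool.Agent.Work.MP_2eb777_ag

/-- Two affine charts over `Spec R`, glued along basic open subsets. -/
structure TwoCharts (R : CommRingCat.{0}) where
  A : CommRingCat.{0}
  B : CommRingCat.{0}
  C : CommRingCat.{0}
  a : R ⟶ A
  b : R ⟶ B
  i : A ⟶ C
  j : B ⟶ C
  comm : a ≫ i = b ≫ j
  x : A
  u : B
  hi : @IsLocalization.Away _ _ x C _ i.hom.toAlgebra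
  hj : @IsLocalization.Away _ _ u C _ j.hom.toAlgebra
  xu : i.hom x * j.hom u = 1

namespace TwoCharts

variable {R : CommRingCat.{0}} (D : TwoCharts R)

instance isOpenImmersion_i : IsOpenImmersion (Spec.map D.i) := by
  let := D.i.hom.toAlgebra
  have := D.hi
  exact IsOpenImmersion.of_isLocalization D.x

instance isOpenImmersion_j : IsOpenImmersion (Spec.map D.j) := by
  let := D.j.hom.toAlgebra
  have := D.hj
  exact IsOpenImmersion.of_isLocalization D.u

/-- The glued scheme. -/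
noncomputable def X : Scheme.{0} := pushout (Spec.map D.i) (Spec.map D.j)

/-- The first chart. -/
noncomputable def ι₁ : Spec D.A ⟶ D.X := pushout.inl _ _

/-- The second chart. -/
noncomputable def ι₂ : Spec D.B ⟶ D.X := pushout.inr _ _

theorem glue : Spec.map D.i ≫ D.ι₁ = Spec.map D.j ≫ D.ι₂ := pushout.condition

instance isOpenImmersion_ι₁ : IsOpenImmersion D.ι₁ :=
  inferInstanceAs (IsOpenImmersion (colimit.ι (span (Spec.map D.i) (Spec.map D.j)) .left))

instance isOpenImmersion_ι₂ : IsOpenImmersion D.ι₂ :=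
  inferInstanceAs (IsOpenImmersion (colimit.ι (span (Spec.map D.i) (Spec.map D.j)) .right))

/-- The structure morphism. -/
noncomputable def toSpec : D.X ⟶ Spec R :=
  pushout.desc (Spec.map D.a) (Spec.map D.b) (by rw [← Spec.map_comp, ← Spec.map_comp, D.comm])

@[reassoc (attr := simp)]
theorem ι₁_toSpec : D.ι₁ ≫ D.toSpec = Spec.map D.a := pushout.inl_desc _ _ _

@[reassoc (attr := simp)]
theorem ι₂_toSpec : D.ι₂ ≫ D.toSpec = Spec.map D.b := pushout.inr_desc _ _ _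

theorem hom_ext {Z : Scheme.{0}} {f g : D.X ⟶ Z} (h₁ : D.ι₁ ≫ f = D.ι₁ ≫ g)
    (h₂ : D.ι₂ ≫ f = D.ι₂ ≫ g) : f = g := pushout.hom_ext h₁ h₂

theorem exists_mem (p : D.X) : (∃ q, D.ι₁ q = p) ∨ ∃ q, D.ι₂ q = p := by
  obtain ⟨k, q, hq⟩ := Scheme.IsLocallyDirected.ι_jointly_surjective
    (span (Spec.map D.i) (Spec.map D.j)) p
  rcases k with (_ | (_ | _))
  · left
    refine ⟨Spec.map D.i q, ?_⟩
    rw [← hq, ← Scheme.Hom.comp_apply]
    exact congrArg (fun f : Spec D.C ⟶ D.X => f q)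
      (colimit.w (span (Spec.map D.i) (Spec.map D.j)) WalkingSpan.Hom.fst)
  · exact Or.inl ⟨q, hq⟩
  · exact Or.inr ⟨q, hq⟩

theorem sup_eq_top : D.ι₁.opensRange ⊔ D.ι₂.opensRange = ⊤ := by
  rw [eq_top_iff]
  intro p _
  rcases D.exists_mem p with ⟨q, hq⟩ | ⟨q, hq⟩
  · exact Or.inl ⟨q, hq⟩
  · exact Or.inr ⟨q, hq⟩

theorem eq_iff (p : Spec D.A) (q : Spec D.B) :
    D.ι₁ p = D.ι₂ q ↔ ∃ r, Spec.map D.i r = p ∧ Spec.map D.j r = q := by
  constructor
  · intro h
    obtain ⟨k, fi, fj, r, hr₁, hr₂⟩ := (Scheme.IsLocallyDirected.ι_eq_ι_iff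
      (span (Spec.map D.i) (Spec.map D.j)) (i := .left) (j := .right) (xi := p) (xj := q)).1 h
    rcases k with (_ | (_ | _))
    · obtain rfl : fi = WalkingSpan.Hom.fst := Subsingleton.elim _ _
      obtain rfl : fj = WalkingSpan.Hom.snd := Subsingleton.elim _ _
      exact ⟨r, hr₁, hr₂⟩
    · exact nomatch fj
    · exact nomatch fi
  · rintro ⟨r, rfl, rfl⟩
    rw [← Scheme.Hom.comp_apply, ← Scheme.Hom.comp_apply, glue]

theorem isPullback : IsPullback (Spec.map D.i) (Spec.map D.j) D.ι₁ D.ι₂ := by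
  refine IsOpenImmersion.isPullback _ _ _ _ D.glue.symm ?_
  apply TopologicalSpace.Opens.ext
  ext q
  constructor
  · rintro ⟨p, hp⟩
    obtain ⟨r, -, hr⟩ := (D.eq_iff p q).1 hp
    exact ⟨r, hr⟩
  · rintro ⟨r, hr⟩
    exact ⟨Spec.map D.i r, (D.eq_iff _ _).2 ⟨r, rfl, hr⟩⟩

/-- The open cover by the two charts. -/
noncomputable def cover : Scheme.OpenCover.{0} D.X :=
  Scheme.Cover.mkOfCovers Bool (fun t => cond t (Spec D.A) (Spec D.B))
    (fun t => match t with | true => D.ι₁ | false => D.ι₂)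
    (fun p => by
      rcases D.exists_mem p with ⟨q, hq⟩ | ⟨q, hq⟩
      · exact ⟨true, q, hq⟩
      · exact ⟨false, q, hq⟩)
    (fun t => by cases t <;> infer_instance)

theorem of_charts {P : MorphismProperty Scheme.{0}} [IsZariskiLocalAtSource P]
    (ha : P (Spec.map D.a)) (hb : P (Spec.map D.b)) : P D.toSpec := by
  rw [IsZariskiLocalAtSource.iff_of_openCover (P := P) D.cover]
  rintro (_ | _)
  · change P (D.ι₂ ≫ D.toSpec)
    rwa [ι₂_toSpec]
  · change P (D.ι₁ ≫ D.toSpec)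
    rwa [ι₁_toSpec]

instance compactSpace : CompactSpace D.X := by
  have : Finite D.cover.I₀ := inferInstanceAs (Finite Bool)
  have (t : D.cover.I₀) : CompactSpace (D.cover.X t) := by
    rcases t with (_ | _)
    · exact inferInstanceAs (CompactSpace (Spec D.B))
    · exact inferInstanceAs (CompactSpace (Spec D.A))
  exact D.cover.compactSpace

instance quasiCompact : QuasiCompact D.toSpec :=
  (quasiCompact_iff_compactSpace D.toSpec).2 inferInstance

section Map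

variable {R' : CommRingCat.{0}} (D' : TwoCharts R') (φ : R ⟶ R') (fA : D.A ⟶ D'.A)
  (fB : D.B ⟶ D'.B) (fC : D.C ⟶ D'.C)

/-- The morphism of glued schemes induced by compatible ring homomorphisms. -/
noncomputable def map (h₁ : D.i ≫ fC = fA ≫ D'.i) (h₂ : D.j ≫ fC = fB ≫ D'.j) : D'.X ⟶ D.X :=
  pushout.map _ _ _ _ (Spec.map fA) (Spec.map fB) (Spec.map fC)
    (by rw [← Spec.map_comp, ← Spec.map_comp, h₁]) (by rw [← Spec.map_comp, ← Spec.map_comp, h₂])

variable (h₁ : D.i ≫ fC = fA ≫ D'.i) (h₂ : D.j ≫ fC = fB ≫ D'.j)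

@[reassoc (attr := simp)]
theorem ι₁_map : D'.ι₁ ≫ D.map D' fA fB fC h₁ h₂ = Spec.map fA ≫ D.ι₁ := pushout.inl_desc _ _ _

@[reassoc (attr := simp)]
theorem ι₂_map : D'.ι₂ ≫ D.map D' fA fB fC h₁ h₂ = Spec.map fB ≫ D.ι₂ := pushout.inr_desc _ _ _

theorem range_j : (Spec.map D.j).opensRange = PrimeSpectrum.basicOpen D.u := by
  let := D.j.hom.toAlgebra
  have := D.hj
  apply TopologicalSpace.Opens.ext
  exact PrimeSpectrum.localization_away_comap_range D.C D.u

theorem range_i : (Spec.map D.i).opensRange = PrimeSpectrum.basicOpen D.x := by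
  let := D.i.hom.toAlgebra
  have := D.hi
  apply TopologicalSpace.Opens.ext
  exact PrimeSpectrum.localization_away_comap_range D.C D.x

theorem isPullback_ι₁ (hu : D'.u ∣ fB.hom D.u) :
    IsPullback (Spec.map fA) D'.ι₁ D.ι₁ (D.map D' fA fB fC h₁ h₂) := by
  refine IsOpenImmersion.isPullback _ _ _ _ (by simp) ?_
  apply TopologicalSpace.Opens.ext
  ext p
  constructor
  · intro hp
    rcases D'.exists_mem p with ⟨q, hq⟩ | ⟨q, hq⟩
    · exact ⟨q, hq⟩
    · obtain ⟨r, hr⟩ := hp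
      rw [← hq, ← Scheme.Hom.comp_apply, ι₂_map, Scheme.Hom.comp_apply] at hr
      obtain ⟨s, -, hs⟩ := (D.eq_iff _ _).1 hr
      have h3 : Spec.map fB q ∈ (Spec.map D.j).opensRange := ⟨s, hs⟩
      rw [range_j] at h3
      have h4 : q ∈ (Spec.map D'.j).opensRange := by
        rw [range_j]
        intro h5
        exact h3 (q.asIdeal.mem_of_dvd hu h5)
      obtain ⟨t, ht⟩ := h4
      refine ⟨Spec.map D'.i t, ?_⟩
      rw [← hq, ← ht, ← Scheme.Hom.comp_apply, ← Scheme.Hom.comp_apply, D'.glue]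
  · rintro ⟨q, hq⟩
    refine ⟨Spec.map fA q, ?_⟩
    rw [← hq, ← Scheme.Hom.comp_apply, ← Scheme.Hom.comp_apply, ι₁_map]

theorem isPullback_ι₂ (hx : D'.x ∣ fA.hom D.x) :
    IsPullback (Spec.map fB) D'.ι₂ D.ι₂ (D.map D' fA fB fC h₁ h₂) := by
  refine IsOpenImmersion.isPullback _ _ _ _ (by simp) ?_
  apply TopologicalSpace.Opens.ext
  ext p
  constructor
  · intro hp
    rcases D'.exists_mem p with ⟨q, hq⟩ | ⟨q, hq⟩
    · obtain ⟨r, hr⟩ := hp
      rw [← hq, ← Scheme.Hom.comp_apply, ι₁_map, Scheme.Hom.comp_apply] at hr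
      obtain ⟨s, hs, -⟩ := (D.eq_iff _ _).1 hr.symm
      have h3 : Spec.map fA q ∈ (Spec.map D.i).opensRange := ⟨s, hs⟩
      rw [range_i] at h3
      have h4 : q ∈ (Spec.map D'.i).opensRange := by
        rw [range_i]
        intro h5
        exact h3 (q.asIdeal.mem_of_dvd hx h5)
      obtain ⟨t, ht⟩ := h4
      refine ⟨Spec.map D'.j t, ?_⟩
      rw [← hq, ← ht, ← Scheme.Hom.comp_apply, ← Scheme.Hom.comp_apply, D'.glue]
    · exact ⟨q, hq⟩
  · rintro ⟨q, hq⟩
    refine ⟨Spec.map fB q, ?_⟩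
    rw [← hq, ← Scheme.Hom.comp_apply, ← Scheme.Hom.comp_apply, ι₂_map]

theorem isPullback_map (hA : IsPushout D.a φ fA D'.a) (hB : IsPushout D.b φ fB D'.b)
    (hx : D'.x ∣ fA.hom D.x) (hu : D'.u ∣ fB.hom D.u) :
    IsPullback (D.map D' fA fB fC h₁ h₂) D'.toSpec D.toSpec (Spec.map φ) := by
  refine Scheme.isPullback_of_openCover _ _ _ _ D.cover ?_
  rintro (_ | _)
  · have h3 := D.isPullback_ι₂ D' fA fB fC h₁ h₂ hx
    have h4 := isPullback_SpecMap_of_isPushout _ _ _ _ hB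
    change IsPullback (pullback.snd (D.map D' fA fB fC h₁ h₂) D.ι₂)
      (pullback.fst (D.map D' fA fB fC h₁ h₂) D.ι₂ ≫ D'.toSpec) (D.ι₂ ≫ D.toSpec) (Spec.map φ)
    refine h4.of_iso h3.flip.isoPullback (Iso.refl _) (Iso.refl _) (Iso.refl _) ?_ ?_ ?_ ?_
    · simp
    · simp
    · simp
    · simp
  · have h3 := D.isPullback_ι₁ D' fA fB fC h₁ h₂ hu
    have h4 := isPullback_SpecMap_of_isPushout _ _ _ _ hA
    change IsPullback (pullback.snd (D.map D' fA fB fC h₁ h₂) D.ι₁)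
      (pullback.fst (D.map D' fA fB fC h₁ h₂) D.ι₁ ≫ D'.toSpec) (D.ι₁ ≫ D.toSpec) (Spec.map φ)
    refine h4.of_iso h3.flip.isoPullback (Iso.refl _) (Iso.refl _) (Iso.refl _) ?_ ?_ ?_ ?_
    · simp
    · simp
    · simp
    · simp

end Map

end TwoCharts

end Pool.Agent.Work.MP_2eb777_ag
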