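import Pool.Agent.Work.MP_2eb777_ag.Univ

set_option autoImplicit false

open CategoryTheory CategoryTheory.Limits AlgebraicGeometry Polynomial

namespace Pool.Agent.Work.MP_2eb777_ag

theorem gen_of (f : ℂ[X]) (hf : NonSquare f) {K : Type} [Field K] [Algebra ℂ K]
    (φ : Quad f →+* K) (hφ : ∀ c : ℂ, φ (algebraMap ℂ (Quad f) c) = algebraMap ℂ K c)
    (hinj : Function.Injective φ) (hsurj : ∀ z : K, ∃ n d : Quad f, d ≠ 0 ∧ z * φ d = φ n) :
    Transcendental ℂ (φ (algebraMap ℂ[X] (Quad f) X)) ∧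
    φ (Quad.w f) ^ 2 = aeval (φ (algebraMap ℂ[X] (Quad f) X)) f ∧
    ∀ z : K, ∃ p q r : ℂ[X], aeval (φ (algebraMap ℂ[X] (Quad f) X)) r ≠ 0 ∧
      z * aeval (φ (algebraMap ℂ[X] (Quad f) X)) r =
        aeval (φ (algebraMap ℂ[X] (Quad f) X)) p +
          aeval (φ (algebraMap ℂ[X] (Quad f) X)) q * φ (Quad.w f) := by
  set x := φ (algebraMap ℂ[X] (Quad f) X) with hx
  have key : ∀ p : ℂ[X], aeval x p = φ (algebraMap ℂ[X] (Quad f) p) := by
    intro p
    have h1 : (aeval x : ℂ[X] →ₐ[ℂ] K).toRingHom = φ.comp (algebraMap ℂ[X] (Quad f)) := by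
      apply Polynomial.ringHom_ext
      · intro c
        change aeval x (C c) = φ (algebraMap ℂ (Quad f) c)
        rw [aeval_C, hφ]
      · change aeval x X = _
        rw [aeval_X]
        rfl
    exact congrArg (fun χ : ℂ[X] →+* K => χ p) h1
  have hne : ∀ p : ℂ[X], p ≠ 0 → aeval x p ≠ 0 := by
    intro p hp h0
    rw [key, ← map_zero φ] at h0
    have h1 := hinj h0
    rw [QuadraticAlgebra.algebraMap_eq] at h1
    exact hp (congrArg QuadraticAlgebra.re h1)
  refine ⟨?_, ?_, ?_⟩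
  · intro ⟨p, hp, h0⟩
    exact hne p hp h0
  · rw [key, ← map_pow, Quad.w_sq]
  · intro z
    obtain ⟨n, d, hd, hz⟩ := hsurj z
    refine ⟨(n * ⟨d.re, -d.im⟩ : Quad f).re, (n * ⟨d.re, -d.im⟩ : Quad f).im,
      d.re ^ 2 - f * d.im ^ 2, hne _ (quad_norm_ne f hf d hd), ?_⟩
    rw [key, key, key, ← map_mul, ← map_add, ← Quad.eq, map_mul, ← hz, ← quad_mul_conj, map_mul]
    ring

/-- The generic point of the spectrum of a domain. -/
def genPt (A : CommRingCat.{0}) [IsDomain A] : Spec A := (⊥ : PrimeSpectrum A)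

theorem genPt_specializes (A : CommRingCat.{0}) [IsDomain A] (q : Spec A) : genPt A ⤳ q :=
  (PrimeSpectrum.le_iff_specializes (⊥ : PrimeSpectrum A) q).1 bot_le

theorem genPt_eq (A : CommRingCat.{0}) [IsDomain A] {K : Type} [Field K] (κ : A →+* K)
    (hκ : Function.Injective κ) (t : Spec (.of K)) :
    Spec.map (CommRingCat.ofHom κ) t = genPt A := by
  apply PrimeSpectrum.ext
  change Ideal.comap κ t.asIdeal = ⊥
  have ht : t.asIdeal = ⊥ := (Ideal.eq_bot_or_top _).resolve_right t.2.ne_top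
  rw [ht]
  rw [eq_bot_iff]
  intro a ha
  have h1 : κ a = 0 := ha
  exact (map_eq_zero_iff κ hκ).1 h1

theorem TwoCharts.mem_open {R : CommRingCat.{0}} (D : TwoCharts R) [IsDomain D.A] [IsDomain D.B]
    (hu : D.u ≠ 0) {K : Type} [Field K] (κ : D.A →+* K) (hκ : Function.Injective κ)
    (V : D.X.Opens) (hV : (V : Set D.X).Nonempty) (t : Spec (.of K)) :
    (Spec.map (CommRingCat.ofHom κ) ≫ D.ι₁) t ∈ V := by
  have h1 : ∀ q : Spec D.A, D.ι₁ q ∈ V → D.ι₁ (genPt D.A) ∈ V := fun q hq =>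
    ((genPt_specializes D.A q).map D.ι₁.continuous).mem_open V.2 hq
  rw [Scheme.Hom.comp_apply, genPt_eq D.A κ hκ]
  obtain ⟨p, hp⟩ := hV
  rcases D.exists_mem p with ⟨q, rfl⟩ | ⟨q, rfl⟩
  · exact h1 q hp
  · have h2 : D.ι₂ (genPt D.B) ∈ V :=
      ((genPt_specializes D.B q).map D.ι₂.continuous).mem_open V.2 hp
    have h3 : genPt D.B ∈ (Spec.map D.j).opensRange := by
      rw [D.range_j]
      exact hu
    obtain ⟨r, hr⟩ := h3
    apply h1 (Spec.map D.i r)
    rw [(D.eq_iff _ _).2 ⟨r, rfl, rfl⟩]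
    have h4 : Spec.map D.j r = genPt D.B := hr
    rw [h4]
    exact h2

/-- An isomorphism of glued schemes induces a homomorphism into the function field. -/
theorem TwoCharts.exists_theta {R : CommRingCat.{0}} (D D' : TwoCharts R) [IsDomain D.A]
    [IsDomain D.B] (hu : D.u ≠ 0) {K : Type} [Field K] (κ : D.A →+* K)
    (hκ : Function.Injective κ) (e : D.X ≅ D'.X) [IsDomain D'.A] :
    ∃ θ : D'.A →+* K, Function.Injective θ ∧
      Spec.map (CommRingCat.ofHom θ) ≫ D'.ι₁ = (Spec.map (CommRingCat.ofHom κ) ≫ D.ι₁) ≫ e.hom := by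
  set η := Spec.map (CommRingCat.ofHom κ) ≫ D.ι₁ with hη
  have hmem : ∀ (V : D'.X.Opens), (V : Set D'.X).Nonempty → ∀ t, (η ≫ e.hom) t ∈ V := by
    intro V hV t
    have h1 : η t ∈ e.hom ⁻¹ᵁ V := by
      apply D.mem_open hu κ hκ
      obtain ⟨p, hp⟩ := hV
      refine ⟨e.inv p, ?_⟩
      have : e.hom (e.inv p) = p := by rw [← Scheme.Hom.comp_apply]; simp
      change e.hom (e.inv p) ∈ V
      rwa [this]
    rw [Scheme.Hom.comp_apply]
    exact h1
  obtain ⟨q₀⟩ : Nonempty (Spec D'.A) := inferInstanceAs (Nonempty (PrimeSpectrum D'.A))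
  have hr : Set.range (η ≫ e.hom) ⊆ Set.range D'.ι₁ := by
    rintro _ ⟨t, rfl⟩
    exact hmem D'.ι₁.opensRange ⟨_, q₀, rfl⟩ t
  let θ : D'.A →+* K := (Spec.preimage (IsOpenImmersion.lift D'.ι₁ (η ≫ e.hom) hr)).hom
  have hθ : Spec.map (CommRingCat.ofHom θ) ≫ D'.ι₁ = η ≫ e.hom := by
    rw [CommRingCat.ofHom_hom, Spec.map_preimage, IsOpenImmersion.lift_fac]
  refine ⟨θ, ?_, hθ⟩
  rw [injective_iff_map_eq_zero]
  intro a ha
  by_contra hne
  let W : (Spec D'.A).Opens := PrimeSpectrum.basicOpen a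
  have hW : genPt D'.A ∈ W := hne
  obtain ⟨t⟩ : Nonempty (Spec (.of K)) := inferInstanceAs (Nonempty (PrimeSpectrum K))
  have h1 := hmem (D'.ι₁ ''ᵁ W) ⟨_, genPt D'.A, hW, rfl⟩ t
  rw [← hθ, Scheme.Hom.comp_apply, Scheme.Hom.apply_mem_image_iff] at h1
  have h2 : θ a ∉ t.asIdeal := h1
  rw [ha] at h2
  exact h2 (zero_mem _)

theorem frac_surj {A K : Type} [CommRing A] [IsDomain A] [Field K] [Algebra A K]
    [IsFractionRing A K] (z : K) : ∃ n d : A, d ≠ 0 ∧ z * algebraMap A K d = algebraMap A K n := by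
  obtain ⟨n, d, hd, rfl⟩ := IsFractionRing.div_surjective (A := A) z
  refine ⟨n, d, nonZeroDivisors.ne_zero hd, ?_⟩
  rw [div_mul_cancel₀]
  exact IsFractionRing.to_map_ne_zero_of_mem_nonZeroDivisors hd

/-- An isomorphism of curves gives two presentations of the function field. -/
theorem TwoCharts.iso_field {R : CommRingCat.{0}} (D D' : TwoCharts R) [IsDomain D.A]
    [IsDomain D.B] [IsDomain D'.A] [IsDomain D'.B] (hu : D.u ≠ 0) (hu' : D'.u ≠ 0)
    (e : D.X ≅ D'.X) (he : e.hom ≫ D'.toSpec = D.toSpec) :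
    ∃ θ : D'.A →+* FractionRing D.A, Function.Injective θ ∧
      θ.comp D'.a.hom = (algebraMap D.A (FractionRing D.A)).comp D.a.hom ∧
      ∀ z : FractionRing D.A, ∃ n d : D'.A, d ≠ 0 ∧ z * θ d = θ n := by
  have hκ := IsFractionRing.injective D.A (FractionRing D.A)
  have hκ' := IsFractionRing.injective D'.A (FractionRing D'.A)
  obtain ⟨θ, hθ, hθ'⟩ := D.exists_theta D' hu _ hκ e
  obtain ⟨ψ, hψ, hψ'⟩ := D'.exists_theta D hu' _ hκ' e.symm
  let Θ : FractionRing D'.A →+* FractionRing D.A := IsFractionRing.lift hθ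
  have hΘ : ∀ a, Θ (algebraMap D'.A _ a) = θ a := fun a => IsFractionRing.lift_algebraMap hθ a
  let Ψ : FractionRing D.A →+* FractionRing D'.A := IsFractionRing.lift hψ
  have hΨ : ∀ a, Ψ (algebraMap D.A _ a) = ψ a := fun a => IsFractionRing.lift_algebraMap hψ a
  have hΘc : Θ.comp (algebraMap D'.A _) = θ := RingHom.ext hΘ
  have hΨc : Ψ.comp (algebraMap D.A _) = ψ := RingHom.ext hΨ
  have h1 : Spec.map (CommRingCat.ofHom (Θ.comp (Ψ.comp (algebraMap D.A _)))) ≫ D.ι₁ =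
      Spec.map (CommRingCat.ofHom (algebraMap D.A (FractionRing D.A))) ≫ D.ι₁ := by
    rw [hΨc, CommRingCat.ofHom_comp, Spec.map_comp, Category.assoc, hψ', Iso.symm_hom,
      ← Category.assoc, ← Category.assoc, ← Spec.map_comp, ← CommRingCat.ofHom_comp, hΘc, hθ']
    simp
  have h2 : Θ.comp (Ψ.comp (algebraMap D.A _)) = algebraMap D.A (FractionRing D.A) := by
    rw [cancel_mono] at h1
    exact congrArg CommRingCat.Hom.hom (Spec.map_injective h1)
  have h3 : ∀ z, Θ (Ψ z) = z := by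
    intro z
    obtain ⟨n, d, hd, hz⟩ := frac_surj (A := D.A) z
    have h4 : ∀ a, Θ (Ψ (algebraMap D.A _ a)) = algebraMap D.A (FractionRing D.A) a := fun a =>
      congrArg (fun χ : D.A →+* FractionRing D.A => χ a) h2
    have h5 := congrArg (fun t => Θ (Ψ t)) hz
    simp only [map_mul, h4] at h5
    have h6 : algebraMap D.A (FractionRing D.A) d ≠ 0 := by
      rw [Ne, map_eq_zero_iff _ hκ]
      exact hd
    exact mul_right_cancel₀ h6 (h5.trans hz.symm)
  refine ⟨θ, hθ, ?_, ?_⟩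
  · have h4 := congrArg (fun t => t ≫ D'.toSpec) hθ'
    simp only [Category.assoc, ι₁_toSpec, he] at h4
    rw [← Spec.map_comp, ← Spec.map_comp] at h4
    exact congrArg CommRingCat.Hom.hom (Spec.map_injective h4)
  · intro z
    obtain ⟨n, d, hd, hz⟩ := frac_surj (A := D'.A) (Ψ z)
    refine ⟨n, d, hd, ?_⟩
    have h5 := congrArg Θ hz
    rwa [map_mul, h3, hΘ, hΘ] at h5

end Pool.Agent.Work.MP_2eb777_ag
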