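import Pool.Agent.Work.MP_2eb777_ag.Descent

set_option autoImplicit false
set_option linter.unusedSectionVars false

open CategoryTheory CategoryTheory.Limits AlgebraicGeometry Polynomial
open scoped TensorProduct

namespace Pool.Agent.Work.MP_2eb777_ag

/-- The Kummer extension `S[y] / (y ^ m - c)`. -/
abbrev Kum {S : Type} [CommRing S] (m : ℕ) (c : S) : Type := AdjoinRoot (X ^ m - C c : S[X])

section

variable {S : Type} [CommRing S] [Algebra ℂ S] (m : ℕ) (c : S)

/-- The generator. -/
noncomputable def Kum.y : Kum m c := AdjoinRoot.root (X ^ m - C c : S[X])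

theorem Kum.y_pow : Kum.y m c ^ m = algebraMap S (Kum m c) c := by
  have h := AdjoinRoot.eval₂_root (X ^ m - C c : S[X])
  rw [eval₂_sub, eval₂_X_pow, eval₂_C, sub_eq_zero] at h
  exact h

/-- Homomorphisms out of a Kummer extension. -/
noncomputable def Kum.lift {T : Type} [CommRing T] (ρ : S →+* T) (t : T) (h : t ^ m = ρ c) :
    Kum m c →+* T :=
  AdjoinRoot.lift ρ t (by rw [eval₂_sub, eval₂_X_pow, eval₂_C, h, sub_self])

@[simp]
theorem Kum.lift_y {T : Type} [CommRing T] (ρ : S →+* T) (t : T) (h : t ^ m = ρ c) :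
    Kum.lift m c ρ t h (Kum.y m c) = t := AdjoinRoot.lift_root _

@[simp]
theorem Kum.lift_algebraMap {T : Type} [CommRing T] (ρ : S →+* T) (t : T) (h : t ^ m = ρ c)
    (s : S) : Kum.lift m c ρ t h (algebraMap S (Kum m c) s) = ρ s := AdjoinRoot.lift_of _

theorem Kum.hom_ext {T : Type} [CommRing T] {φ ψ : Kum m c →+* T}
    (h : φ.comp (algebraMap S (Kum m c)) = ψ.comp (algebraMap S (Kum m c)))
    (hy : φ (Kum.y m c) = ψ (Kum.y m c)) : φ = ψ := AdjoinRoot.ringHom_ext h hy

/-- The automorphism `y ↦ z y`. -/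
noncomputable def Kum.tw (z : ℂ) (hz : z ^ m = 1) : Kum m c →ₐ[S] Kum m c :=
  { Kum.lift m c (algebraMap S (Kum m c)) (algebraMap ℂ (Kum m c) z * Kum.y m c)
      (by rw [mul_pow, ← map_pow, hz, map_one, one_mul, Kum.y_pow]) with
    commutes' := fun s => Kum.lift_algebraMap m c _ _ _ s }

@[simp]
theorem Kum.tw_y (z : ℂ) (hz : z ^ m = 1) :
    Kum.tw m c z hz (Kum.y m c) = algebraMap ℂ (Kum m c) z * Kum.y m c :=
  Kum.lift_y m c (algebraMap S (Kum m c)) (algebraMap ℂ (Kum m c) z * Kum.y m c)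
    (by rw [mul_pow, ← map_pow, hz, map_one, one_mul, Kum.y_pow])

variable (hm : m ≠ 0)

/-- The power basis. -/
noncomputable def Kum.pb : PowerBasis S (Kum m c) :=
  AdjoinRoot.powerBasis' (monic_X_pow_sub_C c hm)

theorem Kum.pb_gen : (Kum.pb m c hm).gen = Kum.y m c := rfl

theorem Kum.pb_dim [Nontrivial S] : (Kum.pb m c hm).dim = m :=
  (AdjoinRoot.powerBasis'_dim _).trans (natDegree_X_pow_sub_C)

include hm in
theorem Kum.algebraMap_regular (s : S) (hs : s ∈ nonZeroDivisors S) (t : Kum m c)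
    (h : algebraMap S (Kum m c) s * t = 0) : t = 0 := by
  rw [← Algebra.smul_def] at h
  apply (Kum.pb m c hm).basis.ext_elem
  intro i
  have h1 := congrArg (fun z => (Kum.pb m c hm).basis.repr z i) h
  simp only [map_smul, map_zero, Finsupp.smul_apply, Finsupp.zero_apply, smul_eq_mul] at h1 ⊢
  exact (mul_right_mem_nonZeroDivisors_eq_zero_iff hs).1 (by rwa [mul_comm] at h1)

include hm in
theorem Kum.y_regular (hc : c ∈ nonZeroDivisors S) (t : Kum m c) (j : ℕ)
    (h : t * Kum.y m c ^ j = 0) : t = 0 := by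
  induction j with
  | zero => simpa using h
  | succ j ih =>
    apply ih
    apply Kum.algebraMap_regular m c hm c hc
    have h2 : Kum.y m c ^ (m - 1) * Kum.y m c = Kum.y m c ^ m := pow_sub_one_mul hm _
    rw [← Kum.y_pow, ← h2]
    have h3 : Kum.y m c ^ (m - 1) * Kum.y m c * (t * Kum.y m c ^ j) =
      Kum.y m c ^ (m - 1) * (t * Kum.y m c ^ (j + 1)) := by ring
    rw [h3, h, mul_zero]

theorem vandermonde_vec {V : Type} [AddCommGroup V] [Module ℂ V] {n : ℕ} (f : Fin n → ℂ)
    (hf : Function.Injective f) (v : Fin n → V)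
    (h : ∀ j, ∑ i : Fin n, (f j ^ (i : ℕ)) • v i = 0) : v = 0 := by
  funext i
  rw [Pi.zero_apply, ← Module.forall_dual_apply_eq_zero_iff ℂ]
  intro l
  have h1 : (fun i => l (v i)) = 0 := by
    apply Matrix.eq_zero_of_forall_index_sum_pow_mul_eq_zero hf
    intro j
    have h2 := congrArg l (h j)
    rw [map_sum, map_zero] at h2
    rw [← h2]
    refine Finset.sum_congr rfl fun i _ => ?_
    rw [map_smul, smul_eq_mul]
  exact congrFun h1 i

include hm in
theorem Kum.injective (hc : c ∈ nonZeroDivisors S) (z : Kum m c ⊗[S] Kum m c)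
    (h : ∀ i : {w : ℂ // w ^ m = 1}, Algebra.TensorProduct.lift (AlgHom.id S (Kum m c))
      (Kum.tw m c i.1 i.2) (fun _ _ => Commute.all _ _) z = 0) : z = 0 := by
  rcases subsingleton_or_nontrivial S with hS | hS
  · have : Subsingleton (Kum m c) := Module.subsingleton S _
    have : Subsingleton (Kum m c ⊗[S] Kum m c) := inferInstance
    exact Subsingleton.elim _ _
  have hn := Kum.pb_dim m c hm
  set n := (Kum.pb m c hm).dim with hndef
  let b := Algebra.TensorProduct.basis (Kum m c) (Kum.pb m c hm).basis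
  let w : ℂ := Complex.exp (2 * Real.pi * Complex.I / m)
  have hw : IsPrimitiveRoot w m := Complex.isPrimitiveRoot_exp m hm
  have hz : z = ∑ i, b.repr z i • b i := (b.sum_repr z).symm
  have h1 : (fun i : Fin n => b.repr z i * Kum.y m c ^ (i : ℕ)) = 0 := by
    apply vandermonde_vec (fun j : Fin n => w ^ (j : ℕ))
    · intro i j hij
      have := hw.pow_inj (hn ▸ i.2) (hn ▸ j.2) hij
      exact Fin.ext this
    · intro j
      have hj : (w ^ (j : ℕ)) ^ m = 1 := by rw [← pow_mul, mul_comm, pow_mul, hw.pow_eq_one, one_pow]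
      have h2 := h ⟨w ^ (j : ℕ), hj⟩
      rw [hz, map_sum] at h2
      rw [← h2]
      refine Finset.sum_congr rfl fun i _ => ?_
      have h3 : b.repr z i • b i = b.repr z i ⊗ₜ[S] (Kum.y m c ^ (i : ℕ)) := by
        rw [Algebra.TensorProduct.basis_apply, PowerBasis.coe_basis, Kum.pb_gen,
          TensorProduct.smul_tmul', smul_eq_mul, mul_one]
      rw [h3, Algebra.TensorProduct.lift_tmul, map_pow, Kum.tw_y, AlgHom.id_apply, mul_pow,
        Algebra.smul_def, map_pow, map_pow]
      ring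
  apply b.ext_elem
  intro i
  rw [map_zero, Finsupp.zero_apply]
  exact Kum.y_regular m c hm hc _ _ (congrFun h1 i)

end

end Pool.Agent.Work.MP_2eb777_ag
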