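import Mathlib

/-! The function fields of `y² = x^(2g+1) + b` and `y² = x^(2g+1) + a x` (with `g ≥ 2`, `a, b ≠ 0`)
over `ℂ` are not isomorphic. -/

namespace Pool.Agent.Work.MP_2eb777_ag

open Polynomial Polynomial.Bivariate

section Aux

/-- coprime reduction of a pair of polynomials -/
theorem exists_coprime_red (e r : ℂ[X]) (hr : r ≠ 0) :
    ∃ d e₁ r₁ : ℂ[X], d ≠ 0 ∧ e = d * e₁ ∧ r = d * r₁ ∧ IsCoprime e₁ r₁ := by
  classical
  let _ := EuclideanDomain.gcdMonoid ℂ[X]
  obtain ⟨e₁, he⟩ := GCDMonoid.gcd_dvd_left e r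
  obtain ⟨r₁, hr₁⟩ := GCDMonoid.gcd_dvd_right e r
  have hd : GCDMonoid.gcd e r ≠ 0 := fun h => hr (by rw [hr₁, h, zero_mul])
  refine ⟨GCDMonoid.gcd e r, e₁, r₁, hd, he, hr₁, ?_⟩
  have := isCoprime_div_gcd_div_gcd (p := e) (q := r) hr
  have h1 : e / GCDMonoid.gcd e r = e₁ := by
    nth_rewrite 1 [he]
    exact mul_div_cancel_left₀ _ hd
  have h2 : r / GCDMonoid.gcd e r = r₁ := by
    nth_rewrite 1 [hr₁]
    exact mul_div_cancel_left₀ _ hd
  rwa [h1, h2] at this

theorem dvd_of_sq (D e r f : ℂ[X]) (hf : Squarefree f) (hr : r ≠ 0)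
    (h : D * r ^ 2 = e ^ 2 * f) : f ∣ D := by
  obtain ⟨d, e₁, r₁, hd, rfl, rfl, hco⟩ := exists_coprime_red e r hr
  have h1 : D * r₁ ^ 2 = e₁ ^ 2 * f := by
    have : d ^ 2 * (D * r₁ ^ 2) = d ^ 2 * (e₁ ^ 2 * f) := by
      linear_combination h
    exact mul_left_cancel₀ (pow_ne_zero 2 hd) this
  have h2 : r₁ ^ 2 ∣ f := by
    have hc : IsCoprime (r₁ ^ 2) (e₁ ^ 2) := (hco.symm).pow
    exact hc.dvd_of_dvd_mul_left ⟨D, by rw [← h1]; ring⟩
  have h3 : IsUnit r₁ := hf r₁ (by rwa [← sq])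
  have h4 : f ∣ D * r₁ ^ 2 := ⟨e₁ ^ 2, by rw [h1]; ring⟩
  exact (IsUnit.dvd_mul_right (h3.pow 2)).1 h4

theorem not_sq (p q f : ℂ[X]) (hf : Squarefree f) (hfd : 0 < f.natDegree) (hq : q ≠ 0)
    (h : p ^ 2 = q ^ 2 * f) : False := by
  have hd : q ∣ p := by
    have : q ^ 2 ∣ p ^ 2 := ⟨f, h⟩
    exact (IsIntegrallyClosed.pow_dvd_pow_iff two_ne_zero).1 this
  obtain ⟨s, rfl⟩ := hd
  have h1 : s ^ 2 = f := by
    have : q ^ 2 * s ^ 2 = q ^ 2 * f := by linear_combination h
    exact mul_left_cancel₀ (pow_ne_zero 2 hq) this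
  have h2 : IsUnit s := hf s ⟨1, by rw [← h1]; ring⟩
  have h3 : f.natDegree = 0 := by
    rw [← h1]
    exact natDegree_eq_zero_of_isUnit (h2.pow 2)
  omega

variable {L : Type} [Field L] [Algebra ℂ L]

theorem aeval_ne_zero {x : L} (hx : Transcendental ℂ x) {p : ℂ[X]} (hp : p ≠ 0) :
    aeval x p ≠ 0 := by
  intro h
  exact hp ((transcendental_iff.1 hx) p h)

theorem eq_zero_of_aeval {x : L} (hx : Transcendental ℂ x) {p : ℂ[X]} (h : aeval x p = 0) :
    p = 0 := (transcendental_iff.1 hx) p h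

theorem eq_of_aeval {x : L} (hx : Transcendental ℂ x) {p q : ℂ[X]}
    (h : aeval x p = aeval x q) : p = q := by
  have : aeval x (p - q) = 0 := by rw [map_sub, h, sub_self]
  exact sub_eq_zero.1 (eq_zero_of_aeval hx this)

theorem lin_indep {x y : L} (hx : Transcendental ℂ x) (f : ℂ[X]) (hf : Squarefree f)
    (hfd : 0 < f.natDegree) (hy : y ^ 2 = aeval x f) (p q : ℂ[X])
    (h : aeval x p + aeval x q * y = 0) : p = 0 ∧ q = 0 := by
  by_cases hq : q = 0
  · subst hq
    refine ⟨eq_zero_of_aeval hx (by simpa using h), rfl⟩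
  · exfalso
    refine not_sq p q f hf hfd hq (eq_of_aeval hx ?_)
    have h1 : aeval x p = - (aeval x q * y) := by linear_combination h
    rw [map_pow, map_mul, map_pow, h1, ← hy]
    ring

theorem coeff_coeff_swap (p : ℂ[X][Y]) (i j : ℕ) :
    ((swap p).coeff i).coeff j = (p.coeff j).coeff i := by
  induction p using Polynomial.induction_on' with
  | add p q hp hq => simp [hp, hq]
  | monomial n a =>
    induction a using Polynomial.induction_on' with
    | add p q hp hq => rw [map_add, map_add]; simp [hp, hq]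
    | monomial m r =>
      rw [swap_monomial_monomial]
      simp only [coeff_monomial]
      split_ifs <;> simp_all [coeff_monomial]

theorem natDegree_le_of_irreducible_aux (K : Type) [Field K] [Algebra ℂ[X] K]
    [IsFractionRing ℂ[X] K] {a b : L} (ha : Transcendental ℂ a) {P F : ℂ[X][Y]}
    (hP : Irreducible P) (hPv : aevalAeval a b P = 0) (hF : F ≠ 0)
    (hFv : aevalAeval a b F = 0) : P.natDegree ≤ F.natDegree := by
  classical
  have hinj : Function.Injective (aeval (R := ℂ) a).toRingHom := by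
    intro p q h
    exact eq_of_aeval ha h
  let φ : K →+* L := IsFractionRing.lift hinj
  have hφ : φ.comp (algebraMap ℂ[X] K) = (aeval (R := ℂ) a).toRingHom := by
    ext z
    · simp [φ]
    · simp [φ]
  have hev : ∀ G : ℂ[X][Y], eval₂ φ b (G.map (algebraMap ℂ[X] K)) = aevalAeval a b G := by
    intro G
    rw [eval₂_map, hφ]
    induction G using Polynomial.induction_on' with
    | add p q hp hq => rw [eval₂_add, hp, hq, map_add]
    | monomial n c =>
      rw [eval₂_monomial, ← C_mul_X_pow_eq_monomial, map_mul, map_pow, aevalAeval_C, aevalAeval_Y]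
      rfl
  have hdeg : P.natDegree ≠ 0 := by
    intro h0
    rw [natDegree_eq_zero] at h0
    obtain ⟨c, rfl⟩ := h0
    rw [aevalAeval_C] at hPv
    have := eq_zero_of_aeval ha hPv
    subst this
    exact hP.ne_zero (by simp)
  have hprim : P.IsPrimitive := hP.isPrimitive hdeg
  have hirr : Irreducible (P.map (algebraMap ℂ[X] K)) :=
    (hprim.irreducible_iff_irreducible_map_fraction_map).1 hP
  have hdvd : P.map (algebraMap ℂ[X] K) ∣ F.map (algebraMap ℂ[X] K) := by
    by_contra hnd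
    have hco := (Irreducible.coprime_iff_not_dvd hirr).2 hnd
    obtain ⟨u, v, huv⟩ := hco
    have := congrArg (eval₂ φ b) huv
    rw [eval₂_add, eval₂_mul, eval₂_mul, hev, hev, hPv, hFv] at this
    simp at this
  exact natDegree_le_of_dvd (hprim.dvd_of_fraction_map_dvd_fraction_map hdvd) hF

theorem natDegree_le_of_irreducible {a b : L} (ha : Transcendental ℂ a) {P F : ℂ[X][Y]}
    (hP : Irreducible P) (hPv : aevalAeval a b P = 0) (hF : F ≠ 0)
    (hFv : aevalAeval a b F = 0) : P.natDegree ≤ F.natDegree :=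
  natDegree_le_of_irreducible_aux (RatFunc ℂ) ha hP hPv hF hFv

theorem key {x y x' : L} (hx : Transcendental ℂ x) (f : ℂ[X]) (hf : Squarefree f)
    (hfd : 5 ≤ f.natDegree) (hy : y ^ 2 = aeval x f) (p₁ q₁ r₁ : ℂ[X]) (hr₁ : r₁ ≠ 0)
    (h : x' * aeval x r₁ = aeval x p₁ + aeval x q₁ * y) (A B C : ℂ[X])
    (hA : A.natDegree ≤ 2) (hB : B.natDegree ≤ 2) (hC : C.natDegree ≤ 2)
    (hne : ¬ (A = 0 ∧ B = 0 ∧ C = 0))
    (hP : aeval x A * x' ^ 2 + aeval x B * x' + aeval x C = 0) : q₁ = 0 := by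
  by_contra hq
  have e1 : aeval x A * (aeval x p₁ + aeval x q₁ * y) ^ 2
      + aeval x B * aeval x r₁ * (aeval x p₁ + aeval x q₁ * y) + aeval x C * aeval x r₁ ^ 2
      = 0 := by
    rw [← h]
    linear_combination (aeval x r₁) ^ 2 * hP
  have e2 : aeval x (A * (p₁ ^ 2 + q₁ ^ 2 * f) + B * r₁ * p₁ + C * r₁ ^ 2)
      + aeval x (2 * A * p₁ * q₁ + B * r₁ * q₁) * y = 0 := by
    simp only [map_add, map_mul, map_pow, map_ofNat]
    rw [← hy]
    linear_combination e1
  obtain ⟨e3, e4⟩ := lin_indep hx f hf (by omega) hy _ _ e2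
  have e5 : 2 * A * p₁ + B * r₁ = 0 := by
    have : q₁ * (2 * A * p₁ + B * r₁) = 0 := by linear_combination e4
    exact (mul_eq_zero.1 this).resolve_left hq
  have e6 : (B ^ 2 - 4 * A * C) * r₁ ^ 2 = (2 * A * q₁) ^ 2 * f := by
    linear_combination (-4 * A) * e3 + (2 * A * p₁ + B * r₁) * e5
  have e7 := dvd_of_sq _ _ _ f hf hr₁ e6
  have e8 : B ^ 2 - 4 * A * C = 0 := by
    by_contra hD
    have h1 := natDegree_le_of_dvd e7 hD
    have h2 : (B ^ 2 - 4 * A * C).natDegree ≤ 4 := by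
      refine (natDegree_sub_le _ _).trans (max_le ?_ ?_)
      · exact natDegree_pow_le.trans (by omega)
      · have h4 : ((4 : ℂ[X])).natDegree = 0 := by
          have : (4 : ℂ[X]) = Polynomial.C 4 := rfl
          rw [this, natDegree_C]
        refine natDegree_mul_le.trans ?_
        have := natDegree_mul_le (p := (4 : ℂ[X])) (q := A)
        omega
    omega
  rw [e8, zero_mul] at e6
  have hf0 : f ≠ 0 := by
    rintro rfl
    simp at hfd
  have e9 : A = 0 := by
    have : (2 * A * q₁) ^ 2 = 0 := (mul_eq_zero.1 e6.symm).resolve_right hf0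
    have := pow_eq_zero_iff (two_ne_zero) |>.1 this
    rcases mul_eq_zero.1 this with h1 | h1
    · exact (mul_eq_zero.1 h1).resolve_left two_ne_zero
    · exact absurd h1 hq
  subst e9
  have e10 : B = 0 := by
    have : B * r₁ = 0 := by simpa using e5
    exact (mul_eq_zero.1 this).resolve_right hr₁
  subst e10
  have e11 : C = 0 := by
    have : C * r₁ ^ 2 = 0 := by simpa using e3
    exact (mul_eq_zero.1 this).resolve_right (pow_ne_zero 2 hr₁)
  exact hne ⟨rfl, rfl, e11⟩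

theorem bound2 {x y x' : L} (hx : Transcendental ℂ x) (f : ℂ[X]) (hy : y ^ 2 = aeval x f)
    (p₁ q₁ r₁ : ℂ[X]) (hr₁ : r₁ ≠ 0) (h : x' * aeval x r₁ = aeval x p₁ + aeval x q₁ * y)
    {P : ℂ[X][Y]} (hP : Irreducible P) (hPv : aevalAeval x x' P = 0) : P.natDegree ≤ 2 := by
  have hF : (C (r₁ ^ 2) * Y ^ 2 + C (-(2 * r₁ * p₁)) * Y + C (p₁ ^ 2 - q₁ ^ 2 * f) : ℂ[X][Y])
      ≠ 0 := by
    intro h0
    have h1 := congrArg (fun G : ℂ[X][Y] => G.coeff 2) h0
    rw [coeff_add, coeff_add, coeff_C_mul, coeff_C_mul, coeff_C, coeff_X_pow, coeff_X] at h1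
    simp at h1
    exact hr₁ h1
  refine (natDegree_le_of_irreducible hx hP hPv hF ?_).trans natDegree_quadratic_le
  simp only [map_add, map_mul, map_pow, aevalAeval_C, aevalAeval_Y, map_neg, map_sub, map_ofNat]
  rw [← hy]
  linear_combination (x' * aeval x r₁ - aeval x p₁ + aeval x q₁ * y) * h

theorem bound1 {x x' : L} (hx : Transcendental ℂ x)
    (p₁ r₁ : ℂ[X]) (hr₁ : r₁ ≠ 0) (h : x' * aeval x r₁ = aeval x p₁)
    {P : ℂ[X][Y]} (hP : Irreducible P) (hPv : aevalAeval x x' P = 0) : P.natDegree ≤ 1 := by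
  have hF : (C r₁ * Y + C (-p₁) : ℂ[X][Y]) ≠ 0 := by
    intro h0
    have := congrArg (fun G : ℂ[X][Y] => G.coeff 1) h0
    simp [coeff_C] at this
    exact hr₁ this
  refine (natDegree_le_of_irreducible hx hP hPv hF ?_).trans natDegree_linear_le
  simp only [map_add, map_mul, aevalAeval_C, aevalAeval_Y, map_neg]
  linear_combination h

theorem coeff_natDegree_le {P : ℂ[X][Y]} {d : ℕ} (h : (swap P).natDegree ≤ d) (j : ℕ) :
    (P.coeff j).natDegree ≤ d := by
  rw [natDegree_le_iff_coeff_eq_zero]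
  intro i hi
  have h1 : (swap P).coeff i = 0 := coeff_eq_zero_of_natDegree_lt (by omega)
  rw [← coeff_coeff_swap, h1, coeff_zero]

theorem q_zero {x y x' : L} (hx : Transcendental ℂ x) (f : ℂ[X]) (hf : Squarefree f)
    (hfd : 5 ≤ f.natDegree) (hy : y ^ 2 = aeval x f) (p₁ q₁ r₁ : ℂ[X]) (hr₁ : r₁ ≠ 0)
    (h : x' * aeval x r₁ = aeval x p₁ + aeval x q₁ * y)
    {P : ℂ[X][Y]} (hP : Irreducible P) (hPv : aevalAeval x x' P = 0) (hd : P.natDegree ≤ 2)
    (hd' : (swap P).natDegree ≤ 2) : q₁ = 0 := by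
  have hq := eq_quadratic_of_degree_le_two (natDegree_le_iff_degree_le.1 hd)
  refine key hx f hf hfd hy p₁ q₁ r₁ hr₁ h (P.coeff 2) (P.coeff 1) (P.coeff 0)
    (coeff_natDegree_le hd' 2) (coeff_natDegree_le hd' 1) (coeff_natDegree_le hd' 0) ?_ ?_
  · rintro ⟨h1, h2, h3⟩
    rw [h1, h2, h3] at hq
    exact hP.ne_zero (by rw [hq]; simp)
  · rw [hq] at hPv
    simpa only [map_add, map_mul, map_pow, aevalAeval_C, aevalAeval_Y] using hPv

theorem coeff_lin_pow (α β : ℂ) (N k : ℕ) :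
    ((C α * X + C β) ^ N : ℂ[X]).coeff k = α ^ k * β ^ (N - k) * (N.choose k : ℂ) := by
  rw [add_pow, finsetSum_coeff]
  have h1 : ∀ m, ((C α * X) ^ m * C β ^ (N - m) * (N.choose m : ℂ[X])).coeff k
      = if k = m then α ^ m * β ^ (N - m) * (N.choose m : ℂ) else 0 := by
    intro m
    have : ((C α * X) ^ m * C β ^ (N - m) * (N.choose m : ℂ[X]))
        = C (α ^ m * β ^ (N - m) * (N.choose m : ℂ)) * X ^ m := by
      rw [C_mul, C_mul, C_pow, C_pow, mul_pow, map_natCast]
      ring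
    rw [this, coeff_C_mul_X_pow]
  rw [Finset.sum_congr rfl (fun m _ => h1 m)]
  rw [Finset.sum_ite_eq]
  split_ifs with hk
  · rfl
  · have : N < k := by simpa using hk
    rw [Nat.choose_eq_zero_of_lt this]
    simp

theorem final (N : ℕ) (hN : 4 ≤ N) (α β γ δ a b c : ℂ) (ha : a ≠ 0) (hc : c ≠ 0)
    (hΔ : α * δ - β * γ ≠ 0)
    (h : (C γ * X + C δ) * (C α * X + C β) ^ (N + 1) + C b * (C γ * X + C δ) ^ (N + 2)
      = C c * (X ^ (N + 1) + C a * X)) : False := by
  have hE : C (((N : ℂ) + 1) * (α * δ - β * γ)) * ((C γ * X + C δ) * (C α * X + C β) ^ N)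
      = C (-c * γ) * X ^ (N + 1) + C (((N : ℂ) + 1) * δ * c) * X ^ N
        + C (-((N : ℂ) + 1) * γ * a * c) * X + C (δ * a * c) := by
    have hd := congrArg derivative h
    simp only [derivative_add, derivative_mul, derivative_pow, derivative_C, derivative_X,
      Nat.add_sub_cancel, Nat.cast_add, Nat.cast_one, Nat.cast_ofNat,
      show N + 2 - 1 = N + 1 by omega] at hd
    simp only [C_mul, C_add, C_sub, C_neg, map_natCast, map_one]
    simp only [C_add, map_natCast, map_one, map_ofNat] at hd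
    linear_combination (C γ * X + C δ) * hd - (N + 2) * C γ * h
  have hco : ∀ k, (C (((N : ℂ) + 1) * (α * δ - β * γ))
      * ((C γ * X + C δ) * (C α * X + C β) ^ N) : ℂ[X]).coeff (k + 1)
      = ((N : ℂ) + 1) * (α * δ - β * γ) * (γ * (α ^ k * β ^ (N - k) * (N.choose k : ℂ))
        + δ * (α ^ (k + 1) * β ^ (N - (k + 1)) * (N.choose (k + 1) : ℂ))) := by
    intro k
    have : (C (((N : ℂ) + 1) * (α * δ - β * γ))
      * ((C γ * X + C δ) * (C α * X + C β) ^ N) : ℂ[X])
      = C (((N : ℂ) + 1) * (α * δ - β * γ)) * (C γ * ((C α * X + C β) ^ N * X)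
        + C δ * (C α * X + C β) ^ N) := by ring
    rw [this, coeff_C_mul, coeff_add, coeff_C_mul, coeff_C_mul, coeff_mul_X, coeff_lin_pow,
      coeff_lin_pow]
  have hco0 : (C (((N : ℂ) + 1) * (α * δ - β * γ))
      * ((C γ * X + C δ) * (C α * X + C β) ^ N) : ℂ[X]).coeff 0
      = ((N : ℂ) + 1) * (α * δ - β * γ) * (δ * β ^ N) := by
    rw [coeff_C_mul, mul_coeff_zero, coeff_lin_pow]
    simp
  have hR : ∀ k, (C (-c * γ) * X ^ (N + 1) + C (((N : ℂ) + 1) * δ * c) * X ^ N
        + C (-((N : ℂ) + 1) * γ * a * c) * X + C (δ * a * c) : ℂ[X]).coeff k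
      = (if k = N + 1 then -c * γ else 0) + (if k = N then ((N : ℂ) + 1) * δ * c else 0)
        + (if k = 1 then -((N : ℂ) + 1) * γ * a * c else 0) + (if k = 0 then δ * a * c else 0) := by
    intro k
    rw [coeff_add, coeff_add, coeff_add, coeff_C_mul_X_pow, coeff_C_mul_X_pow, coeff_C_mul_X,
      coeff_C]
  have hN1 : ((N : ℂ) + 1) ≠ 0 := by
    exact_mod_cast Nat.succ_ne_zero N
  have k0 := congrArg (fun G : ℂ[X] => G.coeff 0) hE
  have k2 := congrArg (fun G : ℂ[X] => G.coeff (1 + 1)) hE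
  have k3 := congrArg (fun G : ℂ[X] => G.coeff (2 + 1)) hE
  have kN := congrArg (fun G : ℂ[X] => G.coeff (N + 1)) hE
  simp only [hco0, hR] at k0
  simp only [hco, hR] at k2 k3 kN
  rw [if_neg (by omega), if_neg (by omega), if_neg (by omega), if_pos trivial] at k0
  rw [if_neg (by omega), if_neg (by omega), if_neg (by omega), if_neg (by omega)] at k2
  rw [if_neg (by omega), if_neg (by omega), if_neg (by omega), if_neg (by omega)] at k3
  rw [if_pos trivial, if_neg (by omega), if_neg (by omega), if_neg (by omega)] at kN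
  rw [Nat.choose_succ_self] at kN
  have hα : α ≠ 0 := by
    rintro rfl
    have hγ : γ = 0 := by
      have : c * γ = 0 := by
        rw [zero_pow (by omega), zero_pow (by omega)] at kN
        linear_combination kN
      exact (mul_eq_zero.1 this).resolve_left hc
    apply hΔ
    rw [hγ]
    ring
  have hβ : β ≠ 0 := by
    rintro rfl
    have hδ : δ = 0 := by
      have : (a * c) * δ = 0 := by
        rw [zero_pow (by omega)] at k0
        linear_combination (-1 : ℂ) * k0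
      exact (mul_eq_zero.1 this).resolve_left (mul_ne_zero ha hc)
    apply hΔ
    rw [hδ]
    ring
  obtain ⟨K, rfl⟩ : ∃ K, N = K + 4 := ⟨N - 4, by omega⟩
  have c1 : ((K + 4).choose 1 : ℂ) = K + 4 := by
    rw [Nat.choose_one_right]
    push_cast
    ring
  have c2 : ((K + 4).choose 2 : ℂ) * 2 = (K + 4) * (K + 3) := by
    have := Nat.choose_succ_right_eq (K + 4) 1
    have h2 : (((K + 4).choose (1 + 1) * (1 + 1) : ℕ) : ℂ) = (((K + 4).choose 1 * (K + 4 - 1) : ℕ) : ℂ) := by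
      rw [this]
    rw [show K + 4 - 1 = K + 3 by omega] at h2
    push_cast at h2
    rw [c1] at h2
    linear_combination h2
  have c3 : ((K + 4).choose 3 : ℂ) * 3 = ((K + 4).choose 2 : ℂ) * (K + 2) := by
    have := Nat.choose_succ_right_eq (K + 4) 2
    have h2 : (((K + 4).choose (2 + 1) * (2 + 1) : ℕ) : ℂ) = (((K + 4).choose 2 * (K + 4 - 2) : ℕ) : ℂ) := by
      rw [this]
    rw [show K + 4 - 2 = K + 2 by omega] at h2
    push_cast at h2
    linear_combination h2
  have e2 : γ * β * ((K + 4).choose 1 : ℂ) + δ * α * ((K + 4).choose 2 : ℂ) = 0 := by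
    have hz : (((K + 4 : ℕ) : ℂ) + 1) * (α * δ - β * γ) * (α * β ^ (K + 2)) ≠ 0 :=
      mul_ne_zero (mul_ne_zero hN1 hΔ) (mul_ne_zero hα (pow_ne_zero _ hβ))
    have : (((K + 4 : ℕ) : ℂ) + 1) * (α * δ - β * γ) * (α * β ^ (K + 2)) *
        (γ * β * ((K + 4).choose 1 : ℂ) + δ * α * ((K + 4).choose 2 : ℂ)) = 0 := by
      rw [show K + 4 - 1 = K + 3 by omega, show K + 4 - (1 + 1) = K + 2 by omega] at k2
      linear_combination k2
    exact (mul_eq_zero.1 this).resolve_left hz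
  have e3 : γ * β * ((K + 4).choose 2 : ℂ) + δ * α * ((K + 4).choose 3 : ℂ) = 0 := by
    have hz : (((K + 4 : ℕ) : ℂ) + 1) * (α * δ - β * γ) * (α ^ 2 * β ^ (K + 1)) ≠ 0 :=
      mul_ne_zero (mul_ne_zero hN1 hΔ) (mul_ne_zero (pow_ne_zero _ hα) (pow_ne_zero _ hβ))
    have : (((K + 4 : ℕ) : ℂ) + 1) * (α * δ - β * γ) * (α ^ 2 * β ^ (K + 1)) *
        (γ * β * ((K + 4).choose 2 : ℂ) + δ * α * ((K + 4).choose 3 : ℂ)) = 0 := by
      rw [show K + 4 - 2 = K + 2 by omega, show K + 4 - (2 + 1) = K + 1 by omega] at k3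
      linear_combination k3
    exact (mul_eq_zero.1 this).resolve_left hz
  have hK4 : ((K : ℂ) + 4) ≠ 0 := by exact_mod_cast Nat.succ_ne_zero (K + 3)
  have hK3 : ((K : ℂ) + 3) ≠ 0 := by exact_mod_cast Nat.succ_ne_zero (K + 2)
  have hK5 : ((K : ℂ) + 5) ≠ 0 := by exact_mod_cast Nat.succ_ne_zero (K + 4)
  rw [c1] at e2
  -- u = γβ, v = δα
  have e4 : ((K : ℂ) + 4) * (2 * (γ * β) + (K + 3) * (δ * α)) = 0 := by
    linear_combination 2 * e2 - (δ * α) * c2
  have e4' := (mul_eq_zero.1 e4).resolve_left hK4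
  have e5 : ((K + 4).choose 2 : ℂ) * (3 * (γ * β) + (K + 2) * (δ * α)) = 0 := by
    linear_combination 3 * e3 - (δ * α) * c3
  have hc2 : ((K + 4).choose 2 : ℂ) ≠ 0 := by
    intro h0
    rw [h0, zero_mul] at c2
    exact (mul_ne_zero hK4 hK3) c2.symm
  have e5' := (mul_eq_zero.1 e5).resolve_left hc2
  have e6 : ((K : ℂ) + 5) * (δ * α) = 0 := by linear_combination 3 * e4' - 2 * e5'
  have e7 := (mul_eq_zero.1 e6).resolve_left hK5
  have e8 : γ * β = 0 := by
    have : (2 : ℂ) * (γ * β) = 0 := by linear_combination e4' - (K + 3) * e7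
    exact (mul_eq_zero.1 this).resolve_left two_ne_zero
  apply hΔ
  linear_combination e7 - e8

theorem squarefree_f (g : ℕ) (b : ℂ) (hb : b ≠ 0) :
    Squarefree (X ^ (2 * g + 1) + C b : ℂ[X]) := by
  have h := separable_X_pow_sub_C (n := 2 * g + 1) (-b)
    (by exact_mod_cast Nat.succ_ne_zero (2 * g)) (neg_ne_zero.2 hb)
  rw [C_neg, sub_neg_eq_add] at h
  exact h.squarefree

theorem squarefree_f' (g : ℕ) (hg : 2 ≤ g) (a : ℂ) (ha : a ≠ 0) :
    Squarefree (X ^ (2 * g + 1) + C a * X : ℂ[X]) := by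
  have h := separable_X_pow_sub_C (n := 2 * g) (-a)
    (by exact_mod_cast (by omega : 2 * g ≠ 0)) (neg_ne_zero.2 ha)
  rw [C_neg, sub_neg_eq_add] at h
  have h2 : IsCoprime (X : ℂ[X]) (X ^ (2 * g) + C a) := by
    refine ⟨-C a⁻¹ * X ^ (2 * g - 1), C a⁻¹, ?_⟩
    have e1 : (X : ℂ[X]) ^ (2 * g) = X ^ (2 * g - 1) * X := by
      rw [← pow_succ]
      congr 1
      omega
    have e2 : C a⁻¹ * C a = (1 : ℂ[X]) := by
      rw [← C_mul, inv_mul_cancel₀ ha, C_1]
    rw [e1]
    linear_combination e2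
  have h3 := (separable_X (R := ℂ)).mul h h2
  have e : (X ^ (2 * g + 1) + C a * X : ℂ[X]) = X * (X ^ (2 * g) + C a) := by ring
  rw [e]
  exact h3.squarefree

end Aux

theorem noniso {g : ℕ} (hg : 2 ≤ g) {L : Type} [Field L] [Algebra ℂ L] (a₀ b₀ : ℂ)
    (ha : a₀ ≠ 0) (hb : b₀ ≠ 0) (x y x' y' : L) (hx : Transcendental ℂ x)
    (hx' : Transcendental ℂ x') (hy : y ^ 2 = x ^ (2*g+1) + algebraMap ℂ L b₀)
    (hy' : y' ^ 2 = x' ^ (2*g+1) + algebraMap ℂ L a₀ * x')
    (hgen : ∀ z : L, ∃ p q r : Polynomial ℂ, Polynomial.aeval x r ≠ 0 ∧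
      z * Polynomial.aeval x r = Polynomial.aeval x p + Polynomial.aeval x q * y)
    (hgen' : ∀ z : L, ∃ p q r : Polynomial ℂ, Polynomial.aeval x' r ≠ 0 ∧
      z * Polynomial.aeval x' r = Polynomial.aeval x' p + Polynomial.aeval x' q * y') :
    False := by
  classical
  have hsf := squarefree_f g b₀ hb
  have hsf' := squarefree_f' g hg a₀ ha
  have hdf : (X ^ (2 * g + 1) + C b₀ : ℂ[X]).natDegree = 2 * g + 1 := by
    rw [natDegree_X_pow_add_C]
  have hdf' : (X ^ (2 * g + 1) + C a₀ * X : ℂ[X]).natDegree = 2 * g + 1 := by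
    rw [natDegree_add_eq_left_of_natDegree_lt]
    · simp
    · rw [natDegree_X_pow, natDegree_C_mul_X _ ha]
      omega
  have hy1 : y ^ 2 = aeval x (X ^ (2 * g + 1) + C b₀ : ℂ[X]) := by
    rw [hy]; simp
  have hy1' : y' ^ 2 = aeval x' (X ^ (2 * g + 1) + C a₀ * X : ℂ[X]) := by
    rw [hy']; simp
  have zne : ∀ (w : L) (r : ℂ[X]), aeval w r ≠ 0 → r ≠ 0 := by
    rintro w r h rfl
    exact h (map_zero _)
  obtain ⟨p₁, q₁, r₁, hr₁, h₁⟩ := hgen x'
  obtain ⟨p₂, q₂, r₂, hr₂, h₂⟩ := hgen' x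
  have hr₁' := zne _ _ hr₁
  have hr₂' := zne _ _ hr₂
  -- irreducible relation
  obtain ⟨P, hPI, hPp⟩ : ∃ P : ℂ[X][Y], aevalAeval x x' P = 0 ∧ Prime P := by
    have hprime : (RingHom.ker (aevalAeval (R := ℂ) x x')).IsPrime := RingHom.ker_isPrime _
    have hne : (RingHom.ker (aevalAeval (R := ℂ) x x')) ≠ ⊥ := by
      intro h0
      have hF : (C (r₁ ^ 2) * Y ^ 2 + C (-(2 * r₁ * p₁)) * Y
          + C (p₁ ^ 2 - q₁ ^ 2 * (X ^ (2 * g + 1) + C b₀)) : ℂ[X][Y])
          ∈ (RingHom.ker (aevalAeval (R := ℂ) x x')) := by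
        rw [RingHom.mem_ker]
        simp only [map_add, map_mul, map_pow, aevalAeval_C, aevalAeval_Y, map_neg, map_sub,
          map_ofNat]
        have hy2 := hy1
        simp only [map_add, map_pow] at hy2
        rw [← hy2]
        linear_combination (x' * aeval x r₁ - aeval x p₁ + aeval x q₁ * y) * h₁
      rw [h0, Ideal.mem_bot] at hF
      have h1 := congrArg (fun G : ℂ[X][Y] => G.coeff 2) hF
      rw [coeff_add, coeff_add, coeff_C_mul, coeff_C_mul, coeff_C, coeff_X_pow, coeff_X] at h1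
      simp at h1
      exact hr₁' h1
    obtain ⟨P, hP1, hP2⟩ := hprime.exists_mem_prime_of_ne_bot hne
    exact ⟨P, by rwa [RingHom.mem_ker] at hP1, hP2⟩
  have hPi : Irreducible P := hPp.irreducible
  have hPi' : Irreducible (swap P) := (MulEquiv.irreducible_iff (swap (R := ℂ))).2 hPi
  have hPI' : aevalAeval x' x (swap P) = 0 := by
    rw [aevalAeval_swap, hPI]
  have hd := bound2 hx _ hy1 p₁ q₁ r₁ hr₁' h₁ hPi hPI
  have hd' := bound2 hx' _ hy1' p₂ q₂ r₂ hr₂' h₂ hPi' hPI'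
  have hq₁ : q₁ = 0 := q_zero hx _ hsf (by omega) hy1 p₁ q₁ r₁ hr₁' h₁ hPi hPI hd hd'
  have hq₂ : q₂ = 0 := q_zero hx' _ hsf' (by omega) hy1' p₂ q₂ r₂ hr₂' h₂ hPi' hPI' hd'
    (by rw [swap_swap_apply]; exact hd)
  subst hq₁
  subst hq₂
  rw [map_zero, zero_mul, add_zero] at h₁ h₂
  have hd1 := bound1 hx p₁ r₁ hr₁' h₁ hPi hPI
  have hd1' := bound1 hx' p₂ r₂ hr₂' h₂ hPi' hPI'
  -- coefficients
  obtain ⟨A, B, hAB⟩ := exists_eq_X_add_C_of_natDegree_le_one hd1
  have hA : A.natDegree ≤ 1 := by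
    have := coeff_natDegree_le hd1' 1
    rw [hAB] at this
    simpa using this
  have hB : B.natDegree ≤ 1 := by
    have := coeff_natDegree_le hd1' 0
    rw [hAB] at this
    simpa using this
  obtain ⟨a, b, rfl⟩ := exists_eq_X_add_C_of_natDegree_le_one hA
  obtain ⟨c, d, rfl⟩ := exists_eq_X_add_C_of_natDegree_le_one hB
  rw [hAB] at hPI
  simp only [map_add, map_mul, aevalAeval_C, aevalAeval_Y, aeval_X, aeval_C] at hPI
  have hMne : ∀ u v : ℂ, ¬ (u = 0 ∧ v = 0) → (C u * X + C v : ℂ[X]) ≠ 0 := by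
    intro u v huv h0
    apply huv
    constructor
    · have := congrArg (fun G : ℂ[X] => G.coeff 1) h0
      simpa [coeff_C] using this
    · have := congrArg (fun G : ℂ[X] => G.coeff 0) h0
      simpa using this
  have hP0 : P ≠ 0 := hPi.ne_zero
  have hℓ : (C a * X + C c : ℂ[X]) ≠ 0 := by
    apply hMne
    rintro ⟨rfl, rfl⟩
    have h1 : aeval x' (C b * X + C d : ℂ[X]) = 0 := by
      simp only [map_add, map_mul, aeval_X, aeval_C]
      rw [map_zero, zero_mul, zero_add, zero_add] at hPI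
      exact hPI
    have h2 := eq_zero_of_aeval hx' h1
    have h3 : ¬ ¬ (b = 0 ∧ d = 0) := fun h => hMne b d h h2
    rw [not_not] at h3
    obtain ⟨rfl, rfl⟩ := h3
    apply hP0
    rw [hAB]
    simp
  have hℓe := aeval_ne_zero hx' hℓ
  have hrel : x * aeval x' (C a * X + C c : ℂ[X]) = aeval x' (C (-b) * X + C (-d) : ℂ[X]) := by
    simp only [map_add, map_mul, aeval_X, aeval_C, map_neg]
    linear_combination hPI
  have hΔ : (-b) * c - (-d) * a ≠ 0 := by
    intro h0
    have h1 : ∀ z : ℂ, aeval x' (C z : ℂ[X]) = algebraMap ℂ L z := fun z => aeval_C _ _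
    by_cases hac : a = 0
    · subst hac
      have hc0 : c ≠ 0 := by
        rintro rfl
        exact hℓ (by simp)
      have hb0 : b = 0 := by
        have : b * c = 0 := by linear_combination -h0
        exact (mul_eq_zero.1 this).resolve_right hc0
      subst hb0
      have h2 : aeval x (C c * X + C d : ℂ[X]) = 0 := by
        simp only [map_add, map_mul, aeval_X, aeval_C]
        simpa using hPI
      exact hMne c d (fun h => hc0 h.1) (eq_zero_of_aeval hx h2)
    · have h2 : aeval x (C a * X + C b : ℂ[X]) * aeval x' (C a * X + C c : ℂ[X]) = 0 := by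
        simp only [map_add, map_mul, aeval_X, aeval_C]
        have h3 : algebraMap ℂ L a * algebraMap ℂ L d = algebraMap ℂ L b * algebraMap ℂ L c := by
          rw [← map_mul, ← map_mul]
          congr 1
          linear_combination h0
        linear_combination algebraMap ℂ L a * hPI - h3
      rcases mul_eq_zero.1 h2 with h3 | h3
      · exact hMne a b (fun h => hac h.1) (eq_zero_of_aeval hx h3)
      · exact hℓe h3
  obtain ⟨p₃, q₃, r₃, hr₃, h₃⟩ := hgen' y
  have hr₃' := zne _ _ hr₃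
  -- the polynomial F
  set F : ℂ[X] := (C a * X + C c) * (C (-b) * X + C (-d)) ^ (2 * g + 1)
    + C b₀ * (C a * X + C c) ^ (2 * g + 2) with hF
  have hFe : y ^ 2 * aeval x' ((C a * X + C c : ℂ[X]) ^ (2 * g + 2)) = aeval x' F := by
    rw [hF, map_add, map_mul, map_mul, map_pow, map_pow, ← hrel, hy, aeval_C]
    ring
  set h : ℂ[X] := (C a * X + C c) ^ (g + 1) with hh
  have hh2 : h ^ 2 = (C a * X + C c : ℂ[X]) ^ (2 * g + 2) := by
    rw [hh]
    ring
  have hh0 : h ≠ 0 := pow_ne_zero _ hℓ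
  have e1 : aeval x' ((p₃ ^ 2 + q₃ ^ 2 * (X ^ (2 * g + 1) + C a₀ * X)) * h ^ 2 - r₃ ^ 2 * F)
      + aeval x' (2 * p₃ * q₃ * h ^ 2) * y' = 0 := by
    simp only [map_sub, map_mul _ _ F, map_mul _ _ (h ^ 2), map_add _ (p₃ ^ 2), map_mul _ (q₃ ^ 2)]
    rw [← hy1', ← hFe, hh2]
    simp only [map_pow, map_mul, map_ofNat]
    linear_combination (-(y * aeval x' r₃ + (aeval x' p₃ + aeval x' q₃ * y'))
      * aeval x' ((C a * X + C c : ℂ[X])) ^ (2 * g + 2)) * h₃
  obtain ⟨e2, e3⟩ := lin_indep hx' _ hsf' (by omega) hy1' _ _ e1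
  by_cases hq : q₃ = 0
  · subst hq
    rw [map_zero, zero_mul, add_zero] at h₃
    -- everything is in ℂ(x')
    have hxK : x ∈ IntermediateField.adjoin ℂ {x'} := by
      rw [IntermediateField.mem_adjoin_simple_iff]
      exact ⟨_, _, (eq_div_iff hℓe).2 hrel⟩
    have hyK : y ∈ IntermediateField.adjoin ℂ {x'} := by
      rw [IntermediateField.mem_adjoin_simple_iff]
      exact ⟨_, _, (eq_div_iff hr₃).2 h₃⟩
    obtain ⟨p₄, q₄, r₄, hr₄, h₄⟩ := hgen y'
    have hpoly : ∀ G : ℂ[X], aeval x G ∈ IntermediateField.adjoin ℂ {x'} := by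
      intro G
      have h5 : Algebra.adjoin ℂ {x} ≤ (IntermediateField.adjoin ℂ {x'}).toSubalgebra := by
        rw [Algebra.adjoin_le_iff, Set.singleton_subset_iff]
        exact hxK
      exact h5 (aeval_mem_adjoin_singleton ℂ x)
    have hyK' : y' ∈ IntermediateField.adjoin ℂ {x'} := by
      rw [← eq_div_iff hr₄] at h₄
      rw [h₄]
      exact div_mem (add_mem (hpoly _) (mul_mem (hpoly _) hyK)) (hpoly _)
    rw [IntermediateField.mem_adjoin_simple_iff] at hyK'
    obtain ⟨u, v, huv⟩ := hyK'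
    have hv : aeval x' v ≠ 0 := by
      intro hv
      rw [hv, div_zero] at huv
      rw [huv] at hy1'
      have h5 : (X ^ (2 * g + 1) + C a₀ * X : ℂ[X]) = 0 :=
        eq_zero_of_aeval hx' (by rw [← hy1']; simp)
      rw [h5] at hdf'
      simp at hdf'
    rw [eq_div_iff hv] at huv
    have h6 := lin_indep hx' _ hsf' (by omega) hy1' (-u) v (by
      rw [map_neg]
      linear_combination huv)
    exact hv (by rw [h6.2, map_zero])
  · have hp : p₃ = 0 := by
      rcases mul_eq_zero.1 e3 with h7 | h7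
      · rcases mul_eq_zero.1 h7 with h8 | h8
        · exact (mul_eq_zero.1 h8).resolve_left two_ne_zero
        · exact absurd h8 hq
      · exact absurd h7 (pow_ne_zero 2 hh0)
    subst hp
    have e4 : F * r₃ ^ 2 = (q₃ * h) ^ 2 * (X ^ (2 * g + 1) + C a₀ * X) := by
      linear_combination -e2
    obtain ⟨G, hG⟩ := dvd_of_sq F (q₃ * h) r₃ _ hsf' hr₃' e4
    have hf0 : (X ^ (2 * g + 1) + C a₀ * X : ℂ[X]) ≠ 0 := by
      intro h5
      rw [h5] at hdf'
      simp at hdf'
    have hF0 : F ≠ 0 := by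
      intro h5
      rw [h5, zero_mul] at e4
      exact (mul_ne_zero (pow_ne_zero 2 (mul_ne_zero hq hh0)) hf0) e4.symm
    have hG0 : G ≠ 0 := by
      rintro rfl
      exact hF0 (by rw [hG, mul_zero])
    have e5 : G * r₃ ^ 2 = (q₃ * h) ^ 2 := by
      rw [hG] at e4
      apply mul_left_cancel₀ hf0
      linear_combination e4
    have d1 : G.natDegree + 2 * r₃.natDegree = 2 * (q₃ * h).natDegree := by
      have := congrArg natDegree e5
      rwa [natDegree_mul hG0 (pow_ne_zero 2 hr₃'), natDegree_pow, natDegree_pow] at this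
    have d2 : F.natDegree ≤ 2 * g + 2 := by
      have l1 : ∀ u v : ℂ, (C u * X + C v : ℂ[X]).natDegree ≤ 1 := fun u v => natDegree_linear_le
      refine (natDegree_add_le _ _).trans (max_le ?_ ?_)
      · refine natDegree_mul_le.trans ?_
        have := l1 a c
        have h8 : ((C (-b) * X + C (-d) : ℂ[X]) ^ (2 * g + 1)).natDegree ≤ 2 * g + 1 := by
          refine natDegree_pow_le.trans ?_
          have := l1 (-b) (-d)
          nlinarith
        omega
      · refine (natDegree_C_mul_le _ _).trans (natDegree_pow_le.trans ?_)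
        have := l1 a c
        nlinarith
    have d3 : F.natDegree = 2 * g + 1 + G.natDegree := by
      rw [hG, natDegree_mul hf0 hG0, hdf']
    have d4 : G.natDegree = 0 := by omega
    obtain ⟨e, rfl⟩ := natDegree_eq_zero.1 d4
    have he : e ≠ 0 := by
      rintro rfl
      exact hG0 C_0
    refine final (2 * g) (by omega) (-b) (-d) a c a₀ b₀ e ha he hΔ ?_
    rw [← hF, hG]
    ring

end Pool.Agent.Work.MP_2eb777_ag
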