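import Pool.Agent.Work.MP_2eb777_ag.IsoField
import Pool.Agent.Work.MP_2eb777_ag.NonIso

set_option autoImplicit false

open CategoryTheory CategoryTheory.Limits AlgebraicGeometry Polynomial

namespace Pool.Agent.Work.MP_2eb777_ag

theorem field_fp {g : ℕ} {K : Type} [Field K] [Algebra ℂ K] (x : K) (a b : ℂ) :
    aeval x (fp g a b) = x ^ (2 * g + 1) + algebraMap ℂ K a * x + algebraMap ℂ K b := by
  simp [fp]

/-- The curves `y ^ 2 = x ^ (2 g + 1) + b₀` and `y ^ 2 = x ^ (2 g + 1) + a₀ x` are not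
isomorphic. -/
theorem curves_not_iso {g : ℕ} (hg : 2 ≤ g) (a₀ b₀ : ℂ) (ha : a₀ ≠ 0) (hb : b₀ ≠ 0)
    (e : (curve g (fp g 0 b₀) (Fp g 0 b₀) (rev_fp g 0 b₀)).X ≅
      (curve g (fp g a₀ 0) (Fp g a₀ 0) (rev_fp g a₀ 0)).X)
    (he : e.hom ≫ (curve g (fp g a₀ 0) (Fp g a₀ 0) (rev_fp g a₀ 0)).toSpec =
      (curve g (fp g 0 b₀) (Fp g 0 b₀) (rev_fp g 0 b₀)).toSpec) : False := by
  have n1 := nonSquare_fp (k := ℂ) g (by omega) 0 b₀
  have n2 := nonSquare_Fp (k := ℂ) g (by omega) 0 b₀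
  have n3 := nonSquare_fp (k := ℂ) g (by omega) a₀ 0
  have n4 := nonSquare_Fp (k := ℂ) g (by omega) a₀ 0
  have d1 : IsDomain (Quad (fp g (0 : ℂ) b₀)) := quad_isDomain _ n1
  have d2 : IsDomain (Quad (Fp g (0 : ℂ) b₀)) := quad_isDomain _ n2
  have d3 : IsDomain (Quad (fp g a₀ (0 : ℂ))) := quad_isDomain _ n3
  have d4 : IsDomain (Quad (Fp g a₀ (0 : ℂ))) := quad_isDomain _ n4
  have hu : ∀ f : ℂ[X], algebraMap ℂ[X] (Quad f) X ≠ 0 := by
    intro f h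
    rw [QuadraticAlgebra.algebraMap_eq] at h
    exact X_ne_zero (congrArg QuadraticAlgebra.re h)
  obtain ⟨θ, hθ, hθa, hθs⟩ := @TwoCharts.iso_field _
    (curve g (fp g 0 b₀) (Fp g 0 b₀) (rev_fp g 0 b₀))
    (curve g (fp g a₀ 0) (Fp g a₀ 0) (rev_fp g a₀ 0)) d1 d2 d3 d4 (hu _) (hu _) e he
  let K : Type := FractionRing (Quad (fp g (0 : ℂ) b₀))
  let κ : Quad (fp g (0 : ℂ) b₀) →+* K := algebraMap _ _
  let θ' : Quad (fp g a₀ (0 : ℂ)) →+* K := θ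
  have hκ : Function.Injective κ := IsFractionRing.injective _ _
  let alg : Algebra ℂ K := (κ.comp (algebraMap ℂ (Quad (fp g (0 : ℂ) b₀)))).toAlgebra
  have halg : ∀ c : ℂ, κ (algebraMap ℂ (Quad (fp g (0 : ℂ) b₀)) c) =
    @algebraMap ℂ K _ _ alg c := fun c => rfl
  have halg' : ∀ c : ℂ, θ' (algebraMap ℂ (Quad (fp g a₀ (0 : ℂ))) c) =
    @algebraMap ℂ K _ _ alg c := fun c => congrArg (fun χ : ℂ →+* K => χ c) hθa
  obtain ⟨t1, s1, g1⟩ := @gen_of _ n1 K _ alg κ halg hκ (fun z => frac_surj z)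
  obtain ⟨t2, s2, g2⟩ := @gen_of _ n3 K _ alg θ' halg' hθ hθs
  rw [@field_fp g K _ alg, map_zero, zero_mul, add_zero] at s1
  rw [@field_fp g K _ alg, map_zero, add_zero] at s2
  exact @noniso g hg K _ alg a₀ b₀ ha hb _ _ _ _ t1 t2 s1 s2 g1 g2

theorem main (g : ℕ) (hg : 2 ≤ g) (𝓜 : CoarseModuliSpace g) :
    ∃ f : AffLine ⟶ 𝓜.M, f ≫ 𝓜.str = AffLine.str ∧ AffLine.pt 0 ≫ f ≠ AffLine.pt 1 ≫ f := by
  have := 𝓜.separated
  obtain ⟨α, hα⟩ : ∃ α : ℂ, (2 * g : ℂ) ^ (2 * g) * α ^ (2 * g + 1) = 1 := by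
    obtain ⟨α, hα⟩ := IsAlgClosed.exists_pow_nat_eq (((2 * g : ℂ) ^ (2 * g))⁻¹)
      (n := 2 * g + 1) (by omega)
    refine ⟨α, ?_⟩
    rw [hα, mul_inv_cancel₀]
    apply pow_ne_zero
    have : (g : ℂ) ≠ 0 := Nat.cast_ne_zero.2 (by omega)
    exact mul_ne_zero two_ne_zero this
  obtain ⟨β, hβ⟩ : ∃ β : ℂ, (2 * g + 1 : ℂ) ^ (2 * g + 1) * β ^ (2 * g) = 1 := by
    obtain ⟨β, hβ⟩ := IsAlgClosed.exists_pow_nat_eq (((2 * g + 1 : ℂ) ^ (2 * g + 1))⁻¹)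
      (n := 2 * g) (by omega)
    refine ⟨β, ?_⟩
    rw [hβ, mul_inv_cancel₀]
    apply pow_ne_zero
    have : ((2 * g + 1 : ℕ) : ℂ) ≠ 0 := Nat.cast_ne_zero.2 (by omega)
    push_cast at this
    exact this
  have hα0 : α ≠ 0 := by
    rintro rfl
    simp at hα
  have hβ0 : β ≠ 0 := by
    rintro rfl
    rw [zero_pow (by omega), mul_zero] at hβ
    exact zero_ne_one hβ
  obtain ⟨f, hf, hpt⟩ := exists_line g (by omega) 𝓜.str 𝓜.rule α β hα hβ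
  refine ⟨f, hf, ?_⟩
  intro heq
  have f0 : IsCurveFamily g (curve g (fp g (α * 0) (β * 1)) (Fp g (α * 0) (β * 1))
      (rev_fp g (α * 0) (β * 1))).toSpec := by
    apply curve_family g (by omega)
    rw [disc, mul_zero, mul_one, zero_pow (by omega), mul_zero, zero_add, hβ]
    exact isUnit_one
  have f1 : IsCurveFamily g (curve g (fp g (α * 1) (β * 0)) (Fp g (α * 1) (β * 0))
      (rev_fp g (α * 1) (β * 0))).toSpec := by
    apply curve_family g (by omega)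
    rw [disc, mul_zero, mul_one, zero_pow (by omega), mul_zero, add_zero, hα]
    exact isUnit_one
  have h0 := hpt 0 1 (by rw [zero_pow (by omega), one_pow, zero_add]) f0
  have h1 := hpt 1 0 (by rw [zero_pow (by omega), one_pow, add_zero]) f1
  rw [zero_pow (by omega)] at h0
  rw [one_pow] at h1
  rw [h0, h1] at heq
  obtain ⟨e, he⟩ := 𝓜.points_injective _ _ f0 f1 heq
  have key : ∀ (a b a' b' : ℂ), a = 0 → b' = 0 → ∀ (e : (curve g (fp g a b) (Fp g a b)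
      (rev_fp g a b)).X ≅ (curve g (fp g a' b') (Fp g a' b') (rev_fp g a' b')).X),
      e.hom ≫ (curve g (fp g a' b') (Fp g a' b') (rev_fp g a' b')).toSpec =
      (curve g (fp g a b) (Fp g a b) (rev_fp g a b)).toSpec → b ≠ 0 → a' ≠ 0 → False := by
    rintro a b a' b' rfl rfl e he hb ha
    exact curves_not_iso hg a' b ha hb e he
  exact key _ _ _ _ (mul_zero α) (mul_zero β) e he (by rwa [mul_one]) (by rwa [mul_one])

end Pool.Agent.Work.MP_2eb777_ag
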