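import Pool.Agent.Work.MP_2eb777_ag.Glue

set_option autoImplicit false

open CategoryTheory CategoryTheory.Limits AlgebraicGeometry

namespace Pool.Agent.Work.MP_2eb777_ag

theorem exists_factor {A O K : Type} [CommRing A] [CommRing O] [CommRing K] (κ : O →+* K)
    (hκ : Function.Injective κ) (φ : A →+* K) (h : ∀ z, φ z ∈ κ.range) :
    ∃ β : A →+* O, κ.comp β = φ := by
  let e : O ≃+* κ.range := RingEquiv.ofBijective κ.rangeRestrict
    ⟨fun a b hab => hκ (congrArg Subtype.val hab), κ.rangeRestrict_surjective⟩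
  refine ⟨e.symm.toRingHom.comp (φ.codRestrict κ.range h), ?_⟩
  ext z
  have h1 : e (e.symm ⟨φ z, h z⟩) = ⟨φ z, h z⟩ := e.apply_symm_apply _
  exact congrArg Subtype.val h1

/-- The elements of `A` are bounded as soon as `x` is. -/
def Bounded {R A : CommRingCat.{0}} (a : R ⟶ A) (x : A) : Prop :=
  ∀ (O K : Type) [CommRing O] [IsDomain O] [ValuationRing O] [Field K] [Algebra O K]
    [IsFractionRing O K] (φ : A →+* K) (ψ : R →+* O), φ.comp a.hom = (algebraMap O K).comp ψ →
    φ x ∈ (algebraMap O K).range → ∀ z, φ z ∈ (algebraMap O K).range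

namespace TwoCharts

variable {R : CommRingCat.{0}} (D : TwoCharts R)

theorem extend_i {T : Type} [CommRing T] (α : D.A →+* T) (h : IsUnit (α D.x)) :
    ∃ γ : D.C →+* T, γ.comp D.i.hom = α := by
  let := D.i.hom.toAlgebra
  have := D.hi
  exact ⟨IsLocalization.Away.lift D.x h, IsLocalization.Away.lift_comp D.x h⟩

theorem extend_j {T : Type} [CommRing T] (α : D.B →+* T) (h : IsUnit (α D.u)) :
    ∃ γ : D.C →+* T, γ.comp D.j.hom = α := by
  let := D.j.hom.toAlgebra
  have := D.hj
  exact ⟨IsLocalization.Away.lift D.u h, IsLocalization.Away.lift_comp D.u h⟩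

theorem ext_i {T : Type} [CommRing T] {γ γ' : D.C →+* T}
    (h : γ.comp D.i.hom = γ'.comp D.i.hom) : γ = γ' := by
  let := D.i.hom.toAlgebra
  have := D.hi
  exact IsLocalization.ringHom_ext (Submonoid.powers D.x) h

theorem exists_lift₁ (hA : Bounded D.a D.x) (hB : Bounded D.b D.u) {O K : Type} [CommRing O]
    [IsDomain O] [ValuationRing O] [Field K] [Algebra O K] [IsFractionRing O K]
    (α : D.A →+* K) (ψ : R →+* O) (h : α.comp D.a.hom = (algebraMap O K).comp ψ) :
    ∃ l : Spec (.of O) ⟶ D.X,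
      Spec.map (CommRingCat.ofHom (algebraMap O K)) ≫ l = Spec.map (CommRingCat.ofHom α) ≫ D.ι₁ ∧
      l ≫ D.toSpec = Spec.map (CommRingCat.ofHom ψ) := by
  have hinj : Function.Injective (algebraMap O K) := IsFractionRing.injective O K
  by_cases hx : α D.x ∈ (algebraMap O K).range
  · obtain ⟨β, hβ⟩ := exists_factor (algebraMap O K) hinj α (hA O K α ψ h hx)
    refine ⟨Spec.map (CommRingCat.ofHom β) ≫ D.ι₁, ?_, ?_⟩
    · rw [← Category.assoc, ← Spec.map_comp, ← CommRingCat.ofHom_comp, hβ]
    · rw [Category.assoc, ι₁_toSpec, ← Spec.map_comp]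
      congr 1
      apply CommRingCat.hom_ext
      apply RingHom.ext
      intro r
      apply hinj
      have h1 := congrArg (fun f : R →+* K => f r) h
      have h2 := congrArg (fun f : D.A →+* K => f (D.a.hom r)) hβ
      exact h2.trans h1
  · have hne : α D.x ≠ 0 := by
      intro h0
      exact hx (h0 ▸ ⟨0, map_zero _⟩)
    obtain ⟨γ, hγ⟩ := D.extend_i α (IsUnit.mk0 _ hne)
    have hxu : γ (D.i.hom D.x) * γ (D.j.hom D.u) = 1 := by rw [← map_mul, D.xu, map_one]
    have hγx : γ (D.i.hom D.x) = α D.x := congrArg (fun f : D.A →+* K => f D.x) hγ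
    have hu : (γ.comp D.j.hom) D.u ∈ (algebraMap O K).range := by
      have h1 : (γ.comp D.j.hom) D.u = (α D.x)⁻¹ := by
        rw [hγx] at hxu
        exact eq_inv_of_mul_eq_one_right hxu
      rw [h1]
      rcases ValuationRing.isInteger_or_isInteger O (α D.x) with h2 | h2
      · exact absurd h2 hx
      · exact h2
    have hcomm : (γ.comp D.j.hom).comp D.b.hom = (algebraMap O K).comp ψ := by
      rw [← h, ← hγ, RingHom.comp_assoc, RingHom.comp_assoc, ← CommRingCat.hom_comp,
        ← CommRingCat.hom_comp, D.comm]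
    obtain ⟨β, hβ⟩ := exists_factor (algebraMap O K) hinj (γ.comp D.j.hom)
      (hB O K (γ.comp D.j.hom) ψ hcomm hu)
    refine ⟨Spec.map (CommRingCat.ofHom β) ≫ D.ι₂, ?_, ?_⟩
    · rw [← Category.assoc, ← Spec.map_comp, ← CommRingCat.ofHom_comp, hβ, CommRingCat.ofHom_comp,
        Spec.map_comp, Category.assoc, CommRingCat.ofHom_hom, ← D.glue, ← Category.assoc,
        ← Spec.map_comp]
      congr 2
      apply CommRingCat.hom_ext
      exact hγ
    · rw [Category.assoc, ι₂_toSpec, ← Spec.map_comp]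
      congr 1
      apply CommRingCat.hom_ext
      apply RingHom.ext
      intro r
      apply hinj
      have h1 := congrArg (fun f : R →+* K => f r) hcomm
      have h2 := congrArg (fun f : D.B →+* K => f (D.b.hom r)) hβ
      exact h2.trans h1

theorem exists_lift₂ (hA : Bounded D.a D.x) (hB : Bounded D.b D.u) {O K : Type} [CommRing O]
    [IsDomain O] [ValuationRing O] [Field K] [Algebra O K] [IsFractionRing O K]
    (α : D.B →+* K) (ψ : R →+* O) (h : α.comp D.b.hom = (algebraMap O K).comp ψ) :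
    ∃ l : Spec (.of O) ⟶ D.X,
      Spec.map (CommRingCat.ofHom (algebraMap O K)) ≫ l = Spec.map (CommRingCat.ofHom α) ≫ D.ι₂ ∧
      l ≫ D.toSpec = Spec.map (CommRingCat.ofHom ψ) := by
  have hinj : Function.Injective (algebraMap O K) := IsFractionRing.injective O K
  by_cases hx : α D.u ∈ (algebraMap O K).range
  · obtain ⟨β, hβ⟩ := exists_factor (algebraMap O K) hinj α (hB O K α ψ h hx)
    refine ⟨Spec.map (CommRingCat.ofHom β) ≫ D.ι₂, ?_, ?_⟩
    · rw [← Category.assoc, ← Spec.map_comp, ← CommRingCat.ofHom_comp, hβ]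
    · rw [Category.assoc, ι₂_toSpec, ← Spec.map_comp]
      congr 1
      apply CommRingCat.hom_ext
      apply RingHom.ext
      intro r
      apply hinj
      have h1 := congrArg (fun f : R →+* K => f r) h
      have h2 := congrArg (fun f : D.B →+* K => f (D.b.hom r)) hβ
      exact h2.trans h1
  · have hne : α D.u ≠ 0 := by
      intro h0
      exact hx (h0 ▸ ⟨0, map_zero _⟩)
    obtain ⟨γ, hγ⟩ := D.extend_j α (IsUnit.mk0 _ hne)
    have hxu : γ (D.i.hom D.x) * γ (D.j.hom D.u) = 1 := by rw [← map_mul, D.xu, map_one]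
    have hγx : γ (D.j.hom D.u) = α D.u := congrArg (fun f : D.B →+* K => f D.u) hγ
    have hu : (γ.comp D.i.hom) D.x ∈ (algebraMap O K).range := by
      have h1 : (γ.comp D.i.hom) D.x = (α D.u)⁻¹ := by
        rw [hγx] at hxu
        exact eq_inv_of_mul_eq_one_left hxu
      rw [h1]
      rcases ValuationRing.isInteger_or_isInteger O (α D.u) with h2 | h2
      · exact absurd h2 hx
      · exact h2
    have hcomm : (γ.comp D.i.hom).comp D.a.hom = (algebraMap O K).comp ψ := by
      rw [← h, ← hγ, RingHom.comp_assoc, RingHom.comp_assoc, ← CommRingCat.hom_comp,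
        ← CommRingCat.hom_comp, D.comm]
    obtain ⟨β, hβ⟩ := exists_factor (algebraMap O K) hinj (γ.comp D.i.hom)
      (hA O K (γ.comp D.i.hom) ψ hcomm hu)
    refine ⟨Spec.map (CommRingCat.ofHom β) ≫ D.ι₁, ?_, ?_⟩
    · rw [← Category.assoc, ← Spec.map_comp, ← CommRingCat.ofHom_comp, hβ, CommRingCat.ofHom_comp,
        Spec.map_comp, Category.assoc, CommRingCat.ofHom_hom, D.glue, ← Category.assoc,
        ← Spec.map_comp]
      congr 2
      apply CommRingCat.hom_ext
      exact hγ
    · rw [Category.assoc, ι₁_toSpec, ← Spec.map_comp]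
      congr 1
      apply CommRingCat.hom_ext
      apply RingHom.ext
      intro r
      apply hinj
      have h1 := congrArg (fun f : R →+* K => f r) hcomm
      have h2 := congrArg (fun f : D.A →+* K => f (D.a.hom r)) hβ
      exact h2.trans h1

/-- A morphism from the spectrum of a local ring factors through one of the charts. -/
theorem factor {O : Type} [CommRing O] [IsLocalRing O] (l : Spec (.of O) ⟶ D.X) :
    (∃ α : D.A →+* O, Spec.map (CommRingCat.ofHom α) ≫ D.ι₁ = l) ∨
      ∃ β : D.B →+* O, Spec.map (CommRingCat.ofHom β) ≫ D.ι₂ = l := by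
  have key : ∀ (E : CommRingCat.{0}) (ι : Spec E ⟶ D.X) [IsOpenImmersion ι],
      l (IsLocalRing.closedPoint O) ∈ ι.opensRange →
      ∃ α : E →+* O, Spec.map (CommRingCat.ofHom α) ≫ ι = l := by
    intro E ι _ h
    have hr : Set.range l ⊆ Set.range ι := by
      rintro _ ⟨q, rfl⟩
      exact ((IsLocalRing.specializes_closedPoint q).map l.continuous).mem_open
        ι.opensRange.2 h
    refine ⟨(Spec.preimage (IsOpenImmersion.lift ι l hr)).hom, ?_⟩
    rw [CommRingCat.ofHom_hom, Spec.map_preimage, IsOpenImmersion.lift_fac]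
  rcases D.exists_mem (l (IsLocalRing.closedPoint O)) with h | h
  · exact Or.inl (key _ D.ι₁ h)
  · exact Or.inr (key _ D.ι₂ h)

theorem unique_aux {O K : Type} [CommRing O] [IsDomain O] [Field K] [Algebra O K]
    [IsFractionRing O K] (α : D.A →+* O) (β : D.B →+* O)
    (h : Spec.map (CommRingCat.ofHom (algebraMap O K)) ≫ Spec.map (CommRingCat.ofHom α) ≫ D.ι₁ =
      Spec.map (CommRingCat.ofHom (algebraMap O K)) ≫ Spec.map (CommRingCat.ofHom β) ≫ D.ι₂) :
    Spec.map (CommRingCat.ofHom α) ≫ D.ι₁ = Spec.map (CommRingCat.ofHom β) ≫ D.ι₂ := by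
  have hinj : Function.Injective (algebraMap O K) := IsFractionRing.injective O K
  rw [← Category.assoc, ← Category.assoc, ← Spec.map_comp, ← Spec.map_comp] at h
  let m : Spec (.of K) ⟶ Spec D.C := D.isPullback.lift _ _ h
  let γ : D.C →+* K := (Spec.preimage m).hom
  have hm : Spec.map (CommRingCat.ofHom γ) = m := by
    rw [CommRingCat.ofHom_hom, Spec.map_preimage]
  have h1 : γ.comp D.i.hom = (algebraMap O K).comp α := by
    have h2 : m ≫ Spec.map D.i = _ := D.isPullback.lift_fst _ _ h
    rw [← hm, ← Spec.map_comp] at h2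
    exact congrArg CommRingCat.Hom.hom (Spec.map_injective h2)
  have h2 : γ.comp D.j.hom = (algebraMap O K).comp β := by
    have h2 : m ≫ Spec.map D.j = _ := D.isPullback.lift_snd _ _ h
    rw [← hm, ← Spec.map_comp] at h2
    exact congrArg CommRingCat.Hom.hom (Spec.map_injective h2)
  have hxu : α D.x * β D.u = 1 := by
    apply hinj
    rw [map_mul, map_one]
    have h3 : γ (D.i.hom D.x) = algebraMap O K (α D.x) :=
      congrArg (fun f : D.A →+* K => f D.x) h1
    have h4 : γ (D.j.hom D.u) = algebraMap O K (β D.u) :=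
      congrArg (fun f : D.B →+* K => f D.u) h2
    rw [← h3, ← h4, ← map_mul, D.xu, map_one]
  obtain ⟨ε, hε⟩ := D.extend_i α (IsUnit.of_mul_eq_one _ hxu)
  have h3 : (algebraMap O K).comp ε = γ := by
    apply D.ext_i
    rw [RingHom.comp_assoc, hε, h1]
  have h4 : ε.comp D.j.hom = β := by
    apply RingHom.ext
    intro z
    apply hinj
    have h5 := congrArg (fun f : D.B →+* K => f z) h2
    rw [← h3] at h5
    exact h5
  rw [← hε, ← h4, CommRingCat.ofHom_comp, CommRingCat.ofHom_comp, Spec.map_comp, Spec.map_comp,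
    Category.assoc, Category.assoc, CommRingCat.ofHom_hom, CommRingCat.ofHom_hom, D.glue]

theorem unique_lift {O K : Type} [CommRing O] [IsDomain O] [IsLocalRing O] [Field K] [Algebra O K]
    [IsFractionRing O K] (l l' : Spec (.of O) ⟶ D.X)
    (h : Spec.map (CommRingCat.ofHom (algebraMap O K)) ≫ l =
      Spec.map (CommRingCat.ofHom (algebraMap O K)) ≫ l') : l = l' := by
  have hinj : Function.Injective (algebraMap O K) := IsFractionRing.injective O K
  have same : ∀ (E : CommRingCat.{0}) (ι : Spec E ⟶ D.X) [IsOpenImmersion ι] (α α' : E →+* O),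
      Spec.map (CommRingCat.ofHom (algebraMap O K)) ≫ Spec.map (CommRingCat.ofHom α) ≫ ι =
      Spec.map (CommRingCat.ofHom (algebraMap O K)) ≫ Spec.map (CommRingCat.ofHom α') ≫ ι →
      α = α' := by
    intro E ι _ α α' h
    rw [← Category.assoc, ← Category.assoc, cancel_mono, ← Spec.map_comp, ← Spec.map_comp] at h
    apply RingHom.ext
    intro z
    apply hinj
    have h1 := congrArg CommRingCat.Hom.hom (Spec.map_injective h)
    exact congrArg (fun f : E →+* K => f z) h1
  rcases D.factor l with ⟨α, rfl⟩ | ⟨α, rfl⟩ <;> rcases D.factor l' with ⟨β, rfl⟩ | ⟨β, rfl⟩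
  · rw [same _ _ _ _ h]
  · exact D.unique_aux α β h
  · exact (D.unique_aux β α h.symm).symm
  · rw [same _ _ _ _ h]

theorem isProper [IsNoetherianRing R] (ha : D.a.hom.FiniteType) (hb : D.b.hom.FiniteType)
    (hA : Bounded D.a D.x) (hB : Bounded D.b D.u) : IsProper D.toSpec := by
  have hft : LocallyOfFiniteType D.toSpec := by
    apply D.of_charts (P := @LocallyOfFiniteType)
    · rw [HasRingHomProperty.Spec_iff (P := @LocallyOfFiniteType)]
      exact ha
    · rw [HasRingHomProperty.Spec_iff (P := @LocallyOfFiniteType)]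
      exact hb
  have : IsLocallyNoetherian D.X := LocallyOfFiniteType.isLocallyNoetherian D.toSpec
  have hqs : QuasiSeparated D.toSpec := inferInstance
  apply IsProper.of_valuativeCriterion
  rw [ValuativeCriterion.iff]
  constructor
  · intro S
    let ψ : R →+* S.R := (Spec.preimage S.i₂).hom
    have hψ : Spec.map (CommRingCat.ofHom ψ) = S.i₂ := by
      rw [CommRingCat.ofHom_hom, Spec.map_preimage]
    have hw := S.commSq.w
    rcases D.factor S.i₁ with ⟨α, hα⟩ | ⟨α, hα⟩
    · have h : α.comp D.a.hom = (algebraMap S.R S.K).comp ψ := by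
        rw [← hα, ← hψ, Category.assoc, ι₁_toSpec, ← Spec.map_comp, ← Spec.map_comp] at hw
        exact congrArg CommRingCat.Hom.hom (Spec.map_injective hw)
      obtain ⟨l, h1, h2⟩ := D.exists_lift₁ hA hB α ψ h
      exact ⟨⟨l, h1.trans hα, h2.trans hψ⟩⟩
    · have h : α.comp D.b.hom = (algebraMap S.R S.K).comp ψ := by
        rw [← hα, ← hψ, Category.assoc, ι₂_toSpec, ← Spec.map_comp, ← Spec.map_comp] at hw
        exact congrArg CommRingCat.Hom.hom (Spec.map_injective hw)
      obtain ⟨l, h1, h2⟩ := D.exists_lift₂ hA hB α ψ h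
      exact ⟨⟨l, h1.trans hα, h2.trans hψ⟩⟩
  · intro S
    refine ⟨fun l l' => ?_⟩
    ext : 1
    exact D.unique_lift _ _ (l.fac_left.trans l'.fac_left.symm)

end TwoCharts

end Pool.Agent.Work.MP_2eb777_ag
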