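import Pool.Agent.Work.MP_2eb777_ag.Proper

set_option autoImplicit false

open CategoryTheory CategoryTheory.Limits AlgebraicGeometry Polynomial

namespace Pool.Agent.Work.MP_2eb777_ag

/-- The ring `S[w] / (w ^ 2 - f)`. -/
abbrev Quad {S : Type} [CommRing S] (f : S) : Type := QuadraticAlgebra S f 0

section Quad

variable {S S' T : Type} [CommRing S] [CommRing S'] [CommRing T]

/-- The square root of `f`. -/
def Quad.w (f : S) : Quad f := ⟨0, 1⟩

theorem Quad.w_sq (f : S) : Quad.w f ^ 2 = algebraMap S (Quad f) f := by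
  rw [sq]
  ext <;> simp [Quad.w, QuadraticAlgebra.algebraMap_eq]

theorem Quad.eq (f : S) (z : Quad f) :
    z = algebraMap S (Quad f) z.re + algebraMap S (Quad f) z.im * Quad.w f := by
  ext <;> simp [Quad.w, QuadraticAlgebra.algebraMap_eq]

/-- Ring homomorphisms out of `Quad f`. -/
def qlift {f : S} (ρ : S →+* T) (w : T) (h : w ^ 2 = ρ f) : Quad f →+* T where
  toFun z := ρ z.re + ρ z.im * w
  map_one' := by
    change ρ 1 + ρ 0 * w = 1
    simp
  map_zero' := by simp
  map_add' := fun z z' => by simp; ring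
  map_mul' := fun z z' => by
    simp only [QuadraticAlgebra.re_mul, QuadraticAlgebra.im_mul, map_add, map_mul, map_zero]
    linear_combination (-(ρ z.im * ρ z'.im)) * h

@[simp]
theorem qlift_algebraMap {f : S} (ρ : S →+* T) (w : T) (h : w ^ 2 = ρ f) (s : S) :
    qlift ρ w h (algebraMap S (Quad f) s) = ρ s := by
  simp [qlift, QuadraticAlgebra.algebraMap_eq]

@[simp]
theorem qlift_w {f : S} (ρ : S →+* T) (w : T) (h : w ^ 2 = ρ f) :
    qlift ρ w h (Quad.w f) = w := by
  simp [qlift, Quad.w]

theorem quad_hom_ext {f : S} {φ ψ : Quad f →+* T}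
    (h : φ.comp (algebraMap S (Quad f)) = ψ.comp (algebraMap S (Quad f)))
    (hw : φ (Quad.w f) = ψ (Quad.w f)) : φ = ψ := by
  ext z
  rw [Quad.eq f z, map_add, map_add, map_mul, map_mul, hw]
  have h1 := congrArg (fun g : S →+* T => g z.re) h
  have h2 := congrArg (fun g : S →+* T => g z.im) h
  simp only [RingHom.comp_apply] at h1 h2
  rw [h1, h2]

/-- The homomorphism `Quad f → Quad f'` over `φ` with `w ↦ m * w'`. -/
def qmap {f : S} {f' : S'} (φ : S →+* S') (m : S') (h : m ^ 2 * f' = φ f) :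
    Quad f →+* Quad f' :=
  qlift ((algebraMap S' (Quad f')).comp φ) (algebraMap S' (Quad f') m * Quad.w f')
    (by rw [mul_pow, Quad.w_sq, ← map_pow, ← map_mul, h]; rfl)

@[simp]
theorem qmap_algebraMap {f : S} {f' : S'} (φ : S →+* S') (m : S') (h : m ^ 2 * f' = φ f) (s : S) :
    qmap φ m h (algebraMap S (Quad f) s) = algebraMap S' (Quad f') (φ s) := by
  simp [qmap]

@[simp]
theorem qmap_w {f : S} {f' : S'} (φ : S →+* S') (m : S') (h : m ^ 2 * f' = φ f) :
    qmap φ m h (Quad.w f) = algebraMap S' (Quad f') m * Quad.w f' := by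
  simp [qmap]

theorem qmap_re {f : S} {f' : S'} (φ : S →+* S') (m : S') (h : m ^ 2 * f' = φ f) (z : Quad f) :
    (qmap φ m h z).re = φ z.re := by
  simp [qmap, qlift, Quad.w, QuadraticAlgebra.algebraMap_eq]

theorem qmap_im {f : S} {f' : S'} (φ : S →+* S') (m : S') (h : m ^ 2 * f' = φ f) (z : Quad f) :
    (qmap φ m h z).im = φ z.im * m := by
  simp [qmap, qlift, Quad.w, QuadraticAlgebra.algebraMap_eq]

theorem qmap_isLocalization {f : S} {f' : S'} (φ : S →+* S') (m m' : S') (h : m ^ 2 * f' = φ f)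
    (hm : m * m' = 1) (s : S) (hs : @IsLocalization.Away _ _ s S' _ φ.toAlgebra) :
    @IsLocalization.Away _ _ (algebraMap S (Quad f) s) (Quad f') _ (qmap φ m h).toAlgebra := by
  let := φ.toAlgebra
  let := (qmap φ m h).toAlgebra
  have hφ : ∀ z, algebraMap S S' z = φ z := fun z => rfl
  have hq : ∀ z, algebraMap (Quad f) (Quad f') z = qmap φ m h z := fun z => rfl
  refine ⟨?_, ?_, ?_⟩
  · rintro ⟨_, n, rfl⟩
    simp only [hq, map_pow, qmap_algebraMap]
    exact ((IsLocalization.Away.algebraMap_isUnit (S := S') s).map (algebraMap S' (Quad f'))).pow n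
  · intro z
    obtain ⟨n, p, hp⟩ := IsLocalization.Away.surj s z.re
    obtain ⟨k, q, hk⟩ := IsLocalization.Away.surj s (z.im * m')
    refine ⟨(⟨p * s ^ k, q * s ^ n⟩, ⟨algebraMap S (Quad f) s ^ (n + k), n + k, rfl⟩), ?_⟩
    simp only [hq, map_pow, qmap_algebraMap]
    simp only [hφ] at hp hk
    rw [← map_pow, QuadraticAlgebra.algebraMap_eq]
    ext
    · rw [qmap_re]
      simp only [QuadraticAlgebra.re_mul, map_mul, map_pow]
      rw [← hp, pow_add]
      ring
    · rw [qmap_im]
      simp only [QuadraticAlgebra.im_mul, map_mul, map_pow]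
      rw [← hk, pow_add]
      linear_combination (-(z.im * φ s ^ n * φ s ^ k)) * hm
  · intro z z' hz
    have h1 : φ z.re = φ z'.re := by
      have := congrArg QuadraticAlgebra.re hz
      simpa only [hq, qmap_re] using this
    have h2 : φ z.im = φ z'.im := by
      have := congrArg QuadraticAlgebra.im hz
      simp only [hq, qmap_im] at this
      linear_combination m' * this + (φ z'.im - φ z.im) * hm
    obtain ⟨⟨_, n, rfl⟩, hn⟩ := IsLocalization.exists_of_eq (M := Submonoid.powers s) (S := S') h1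
    obtain ⟨⟨_, k, rfl⟩, hk⟩ := IsLocalization.exists_of_eq (M := Submonoid.powers s) (S := S') h2
    refine ⟨⟨algebraMap S (Quad f) s ^ (n + k), n + k, rfl⟩, ?_⟩
    simp only at hn hk
    simp only
    rw [← map_pow, QuadraticAlgebra.algebraMap_eq]
    ext
    · simp only [QuadraticAlgebra.re_mul, pow_add]
      linear_combination s ^ k * hn
    · simp only [QuadraticAlgebra.im_mul, pow_add]
      linear_combination s ^ n * hk

end Quad

end Pool.Agent.Work.MP_2eb777_ag
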