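import Pool.Agent.Work.MP_2eb777_ag.Base

set_option autoImplicit false

open CategoryTheory CategoryTheory.Limits AlgebraicGeometry Polynomial
open scoped TensorProduct

namespace Pool.Agent.Work.MP_2eb777_ag

theorem smooth_quad {R : Type} [CommRing R] (f : R[X]) (h2 : IsUnit (2 : R))
    (hf : Ideal.span {f, derivative f} = ⊤) :
    SmoothOfRelativeDimension 1 (Spec.map (CommRingCat.ofHom (algebraMap R (Quad f)))) := by
  have h := smooth_chart f h2 hf
  have hw : Quad.w f * Quad.w f = algebraMap R[X] (Quad f) f := by rw [← sq, Quad.w_sq]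
  let φ : AdjoinRoot (X ^ 2 - C f : R[X][X]) →+* Quad f :=
    AdjoinRoot.lift (algebraMap R[X] (Quad f)) (Quad.w f)
      (by rw [eval₂_sub, eval₂_X_pow, eval₂_C, Quad.w_sq, sub_self])
  have hr : AdjoinRoot.root (X ^ 2 - C f : R[X][X]) ^ 2 = AdjoinRoot.of _ f := by
    have h := AdjoinRoot.eval₂_root (X ^ 2 - C f : R[X][X])
    rw [eval₂_sub, eval₂_X_pow, eval₂_C, sub_eq_zero] at h
    exact h
  let ψ : Quad f →+* AdjoinRoot (X ^ 2 - C f : R[X][X]) :=
    qlift (AdjoinRoot.of _) (AdjoinRoot.root _) hr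
  have h1 : φ.comp ψ = RingHom.id _ := by
    apply quad_hom_ext
    · apply RingHom.ext
      intro r
      simp only [RingHom.comp_apply, ψ, qlift_algebraMap, RingHom.id_apply, φ,
        AdjoinRoot.lift_of]
    · simp only [RingHom.comp_apply, ψ, qlift_w, φ, AdjoinRoot.lift_root, RingHom.id_apply]
  have h2 : ψ.comp φ = RingHom.id _ := by
    apply AdjoinRoot.ringHom_ext
    · apply RingHom.ext
      intro r
      simp only [RingHom.comp_apply, φ, AdjoinRoot.lift_of, ψ, qlift_algebraMap,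
        RingHom.id_apply]
    · simp only [RingHom.comp_apply, φ, AdjoinRoot.lift_root, ψ, qlift_w, RingHom.id_apply]
  let e : CommRingCat.of (Quad f) ≅ CommRingCat.of (AdjoinRoot (X ^ 2 - C f : R[X][X])) :=
    { hom := CommRingCat.ofHom ψ
      inv := CommRingCat.ofHom φ
      hom_inv_id := by rw [← CommRingCat.ofHom_comp, h1]; rfl
      inv_hom_id := by rw [← CommRingCat.ofHom_comp, h2]; rfl }
  have h3 : CommRingCat.ofHom (algebraMap R (Quad f)) ≫ e.hom =
      CommRingCat.ofHom (algebraMap R (AdjoinRoot (X ^ 2 - C f : R[X][X]))) := by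
    rw [← CommRingCat.ofHom_comp]
    congr 1
    apply RingHom.ext
    intro r
    change ψ (algebraMap R[X] (Quad f) (C r)) = AdjoinRoot.of _ (C r)
    simp only [ψ, qlift_algebraMap]
  have h4 : Spec.map e.hom ≫ Spec.map (CommRingCat.ofHom (algebraMap R (Quad f))) =
      Spec.map (CommRingCat.ofHom (algebraMap R (AdjoinRoot (X ^ 2 - C f : R[X][X])))) := by
    rw [← Spec.map_comp, h3]
  rw [← h4] at h
  have hiso : IsIso (Spec.map e.hom) := by
    have : IsIso e.hom := e.isIso_hom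
    infer_instance
  exact (MorphismProperty.cancel_left_of_respectsIso (P := @SmoothOfRelativeDimension 1)
    (Spec.map e.hom) _).1 h

theorem curve_family {R : Type} [CommRing R] [IsNoetherianRing R] [Algebra ℂ R] (g : ℕ)
    (hg : 1 ≤ g) (a b : R) (h : IsUnit (disc g a b)) :
    IsCurveFamily g (curve g (fp g a b) (Fp g a b) (rev_fp g a b)).toSpec := by
  have h2 : IsUnit (2 : R) := by
    have := (isUnit_iff_ne_zero.2 (two_ne_zero : (2 : ℂ) ≠ 0)).map (algebraMap ℂ R)
    rwa [map_ofNat] at this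
  have hn : IsUnit ((2 * g + 1 : ℕ) : R) := by
    have := (isUnit_iff_ne_zero.2 (Nat.cast_ne_zero.2 (by omega : 2 * g + 1 ≠ 0) :
      ((2 * g + 1 : ℕ) : ℂ) ≠ 0)).map (algebraMap ℂ R)
    rwa [map_natCast] at this
  apply isCurveFamily_of
  · exact smooth_quad _ h2 (span_fp g a b h)
  · exact smooth_quad _ h2 (span_Fp g hg a b h hn)
  · intro k _ φ
    rw [sc_fp]
    exact nonSquare_fp g hg _ _
  · intro k _ φ
    rw [sc_Fp]
    exact nonSquare_Fp g hg _ _

theorem scal_fp {R R' : Type} [CommRing R] [CommRing R'] (φ : R →+* R') (g : ℕ) (l m : R'ˣ)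
    (a b : R) (a' b' : R') (h1 : (m : R') ^ 2 = (l : R') ^ (2 * g + 1))
    (h2 : φ a * l = (m : R') ^ 2 * a') (h3 : φ b = (m : R') ^ 2 * b') :
    Scal φ (l : R') (m : R') (fp g a b) (fp g a' b') := by
  unfold Scal
  simp only [fp, map_add, map_mul, map_pow, sc_C, sc_X, h3]
  have e1 : (C (m : R') : R'[X]) ^ 2 = C (l : R') ^ (2 * g + 1) := by
    rw [← map_pow, h1, map_pow]
  have e2 : (C (φ a) : R'[X]) * C (l : R') = C (m : R') ^ 2 * C a' := by
    rw [← map_mul, h2, map_mul, map_pow]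
  rw [mul_pow, ← e1]
  linear_combination (-X) * e2

/-- The homomorphism from `ℂ[s]` to the base ring. -/
noncomputable def sHom (g : ℕ) : ℂ[X] →+* Base g :=
  (algebraMap (Base₁ g) (Base g)).comp (algebraMap ℂ[X] (Base₁ g))

theorem kum_free {S : Type} [CommRing S] [Algebra ℂ S] (m : ℕ) (hm : m ≠ 0) (c s : S)
    (hs : s ∈ nonZeroDivisors S) : algebraMap S (Kum m c) s ∈ nonZeroDivisors (Kum m c) := by
  rw [mem_nonZeroDivisors_iff_right]
  intro t ht
  exact Kum.algebraMap_regular m c hm s hs t (by rwa [mul_comm] at ht)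

theorem kum_epi {S : Type} [CommRing S] [Algebra ℂ S] [Nontrivial S] (m : ℕ) (hm : m ≠ 0)
    (c : S) : Epi (Spec.map (CommRingCat.ofHom (algebraMap S (Kum m c)))) := by
  have h1 : Module.Free S (Kum m c) := .of_basis (Kum.pb m c hm).basis
  have h2 : Nontrivial (Kum m c) := by
    have h3 := Kum.pb_dim m c hm
    have : Nonempty (Fin (Kum.pb m c hm).dim) := ⟨⟨0, by omega⟩⟩
    exact (Kum.pb m c hm).basis.repr.toEquiv.nontrivial
  have h3 : Module.FaithfullyFlat S (Kum m c) := inferInstance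
  have h4 : Surjective (Spec.map (CommRingCat.ofHom (algebraMap S (Kum m c)))) :=
    ⟨PrimeSpectrum.comap_surjective_of_faithfullyFlat⟩
  have h5 : Flat (Spec.map (CommRingCat.ofHom (algebraMap S (Kum m c)))) := by
    rw [HasRingHomProperty.Spec_iff (P := @Flat)]
    exact (RingHom.flat_algebraMap_iff).2 inferInstance
  exact Flat.epi_of_flat_of_surjective _

theorem base_descend (g : ℕ) (hg : 1 ≤ g) {M : Scheme.{0}} (str : M ⟶ SpecC) [IsSeparated str]
    (f : Spec (.of (Base g)) ⟶ M)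
    (hstr : f ≫ str = Spec.map (CommRingCat.ofHom (algebraMap ℂ (Base g))))
    (hinv : ∀ (z x : ℂ), z ^ (2 * g + 1) = 1 → x ^ (2 * g) = 1 → ∀ φ : Base g →+* Base g,
      φ.comp (algebraMap ℂ (Base g)) = algebraMap ℂ (Base g) →
      φ (aB g) = algebraMap ℂ (Base g) z * aB g → φ (bB g) = algebraMap ℂ (Base g) x * bB g →
      Spec.map (CommRingCat.ofHom φ) ≫ f = f) :
    ∃ h : AffLine ⟶ M, Spec.map (CommRingCat.ofHom (sHom g)) ≫ h = f ∧ h ≫ str = AffLine.str := by
  have hX : (X : ℂ[X]) ∈ nonZeroDivisors ℂ[X] := mem_nonZeroDivisors_of_ne_zero X_ne_zero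
  have hX1 : (1 - X : ℂ[X]) ∈ nonZeroDivisors ℂ[X] := by
    apply mem_nonZeroDivisors_of_ne_zero
    intro h
    have := congrArg (fun p : ℂ[X] => p.coeff 1) h
    simp [coeff_one] at this
  have hs1 : (1 - sPar g : Base₁ g) ∈ nonZeroDivisors (Base₁ g) := by
    have := kum_free (2 * g + 1) (by omega) (X : ℂ[X]) (1 - X) hX1
    rwa [map_sub, map_one] at this
  have hnt : Nontrivial (Base₁ g) := by
    have h3 := Kum.pb_dim (2 * g + 1) (X : ℂ[X]) (by omega)
    have : Nonempty (Fin (Kum.pb (2 * g + 1) (X : ℂ[X]) (by omega)).dim) := ⟨⟨0, by omega⟩⟩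
    exact (Kum.pb (2 * g + 1) (X : ℂ[X]) (by omega)).basis.repr.toEquiv.nontrivial
  -- first step
  obtain ⟨f₁, hf₁⟩ : ∃ h : Spec (.of (Base₁ g)) ⟶ M,
      Spec.map (CommRingCat.ofHom (algebraMap (Base₁ g) (Base g))) ≫ h = f := by
    apply kummer_descend (2 * g) (by omega) (1 - sPar g) hs1 str f
      (Spec.map (CommRingCat.ofHom (algebraMap ℂ (Base₁ g))))
    · rw [hstr, ← Spec.map_comp, ← CommRingCat.ofHom_comp]
      rfl
    · intro x hx
      apply hinv 1 x (one_pow _) hx
      · apply RingHom.ext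
        intro z
        exact (Kum.tw (2 * g) (1 - sPar g) x hx).commutes (algebraMap ℂ (Base₁ g) z)
      · rw [map_one, one_mul]
        exact (Kum.tw (2 * g) (1 - sPar g) x hx).commutes _
      · exact Kum.tw_y _ _ _ _
  have hepi : ∀ {N : Scheme.{0}} (p q : Spec (.of (Base₁ g)) ⟶ N),
      Spec.map (CommRingCat.ofHom (algebraMap (Base₁ g) (Base g))) ≫ p =
      Spec.map (CommRingCat.ofHom (algebraMap (Base₁ g) (Base g))) ≫ q → p = q := by
    intro N p q hpq
    have := kum_epi (2 * g) (by omega) (1 - sPar g)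
    exact (cancel_epi _).1 hpq
  have hepi₀ : ∀ {N : Scheme.{0}} (p q : AffLine ⟶ N),
      Spec.map (CommRingCat.ofHom (algebraMap ℂ[X] (Base₁ g))) ≫ p =
      Spec.map (CommRingCat.ofHom (algebraMap ℂ[X] (Base₁ g))) ≫ q → p = q := by
    intro N p q hpq
    have := kum_epi (2 * g + 1) (by omega) (X : ℂ[X])
    exact (cancel_epi _).1 hpq
  have hstr₁ : f₁ ≫ str = Spec.map (CommRingCat.ofHom (algebraMap ℂ (Base₁ g))) := by
    apply hepi
    rw [← Category.assoc, hf₁, hstr, ← Spec.map_comp, ← CommRingCat.ofHom_comp]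
    rfl
  -- second step
  obtain ⟨h, hh⟩ : ∃ h : AffLine ⟶ M,
      Spec.map (CommRingCat.ofHom (algebraMap ℂ[X] (Base₁ g))) ≫ h = f₁ := by
    apply kummer_descend (2 * g + 1) (by omega) (X : ℂ[X]) hX str f₁ AffLine.str
    · rw [hstr₁, ← Spec.map_comp, ← CommRingCat.ofHom_comp]
      rfl
    · intro z hz
      apply hepi
      obtain ⟨φ, hφ₁, hφ₂, hφ₃, -⟩ := exists_base_hom g (algebraMap ℂ (Base g))
        (algebraMap ℂ (Base g) z * aB g) (bB g)
        (by rw [mul_pow, ← map_pow, hz, map_one, one_mul, aB_bB])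
      have hφf := hinv z 1 hz (one_pow _) φ hφ₁ hφ₂ (by rw [map_one, one_mul, hφ₃])
      have hcomm : φ.comp (algebraMap (Base₁ g) (Base g)) = (algebraMap (Base₁ g) (Base g)).comp
          (Kum.tw (2 * g + 1) (X : ℂ[X]) z hz).toRingHom := by
        apply Kum.hom_ext
        · apply Polynomial.ringHom_ext
          · intro t
            have h1 := congrArg (fun χ : ℂ →+* Base g => χ t) hφ₁
            refine Eq.trans h1 ?_
            have h2 := (Kum.tw (2 * g + 1) (X : ℂ[X]) z hz).commutes (C t)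
            exact (congrArg (algebraMap (Base₁ g) (Base g)) h2).symm
          · have h2 := (Kum.tw (2 * g + 1) (X : ℂ[X]) z hz).commutes X
            refine Eq.trans ?_ (congrArg (algebraMap (Base₁ g) (Base g)) h2).symm
            have h3 : algebraMap ℂ[X] (Base₁ g) X = Kum.y (2 * g + 1) (X : ℂ[X]) ^ (2 * g + 1) :=
              (Kum.y_pow _ _).symm
            change φ (algebraMap (Base₁ g) (Base g) (algebraMap ℂ[X] (Base₁ g) X)) =
              algebraMap (Base₁ g) (Base g) (algebraMap ℂ[X] (Base₁ g) X)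
            rw [h3, map_pow, map_pow]
            change φ (aB g) ^ (2 * g + 1) = aB g ^ (2 * g + 1)
            rw [hφ₂, mul_pow, ← map_pow, hz, map_one, one_mul]
        · change φ (aB g) = algebraMap (Base₁ g) (Base g)
            (Kum.tw (2 * g + 1) (X : ℂ[X]) z hz (Kum.y (2 * g + 1) X))
          rw [Kum.tw_y, map_mul, hφ₂]
          rfl
      rw [← Category.assoc, ← Spec.map_comp, ← CommRingCat.ofHom_comp, ← hcomm,
        CommRingCat.ofHom_comp, Spec.map_comp, Category.assoc, hf₁, hφf]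
  refine ⟨h, ?_, ?_⟩
  · rw [sHom, CommRingCat.ofHom_comp, Spec.map_comp, Category.assoc, hh, hf₁]
  · apply hepi₀
    rw [← Category.assoc, hh, hstr₁, ← Spec.map_comp, ← CommRingCat.ofHom_comp]
    rfl

/-- The main construction, for a rule compatible with pullbacks. -/
theorem exists_line (g : ℕ) (hg : 1 ≤ g) {M : Scheme.{0}} (str : M ⟶ SpecC) [IsSeparated str]
    (rule : ModuliRule g str) (α β : ℂ) (hα : (2 * g : ℂ) ^ (2 * g) * α ^ (2 * g + 1) = 1)
    (hβ : (2 * g + 1 : ℂ) ^ (2 * g + 1) * β ^ (2 * g) = 1) :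
    ∃ (f : AffLine ⟶ M), f ≫ str = AffLine.str ∧
      ∀ (a b : ℂ) (hab : a ^ (2 * g + 1) + b ^ (2 * g) = 1)
        (hfam : IsCurveFamily g (curve g (fp g (α * a) (β * b)) (Fp g (α * a) (β * b))
          (rev_fp g (α * a) (β * b))).toSpec),
        AffLine.pt (a ^ (2 * g + 1)) ≫ f = rule.map _ (𝟙 _) hfam := by
  set A : Base g := algebraMap ℂ (Base g) α * aB g with hA
  set B : Base g := algebraMap ℂ (Base g) β * bB g with hB
  have hdisc : disc g A B = 1 := by
    have h1 := congrArg (algebraMap ℂ (Base g)) hα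
    have h2 := congrArg (algebraMap ℂ (Base g)) hβ
    simp only [map_mul, map_pow, map_add, map_one, map_natCast, map_ofNat] at h1 h2
    rw [disc, hA, hB, mul_pow, mul_pow]
    linear_combination (aB g ^ (2 * g + 1)) * h1 + (bB g ^ (2 * g)) * h2 + aB_bB g
  have hD := curve_family g hg A B (by rw [hdisc]; exact isUnit_one)
  set σ : Spec (.of (Base g)) ⟶ SpecC :=
    Spec.map (CommRingCat.ofHom (algebraMap ℂ (Base g))) with hσ
  set μ := rule.map _ σ hD with hμ
  obtain ⟨f, hf, hfs⟩ := base_descend g hg str μ (rule.map_str _ _ _) (by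
    intro z x hz hx φ hφ ha hb
    have hz0 : z ≠ 0 := by
      rintro rfl
      simp at hz
    have hx0 : x ≠ 0 := by
      rintro rfl
      rw [zero_pow (by omega)] at hx
      exact zero_ne_one hx
    obtain ⟨m₀, hm₀⟩ := IsAlgClosed.exists_pow_nat_eq x (n := 2) (by norm_num)
    have hm0 : m₀ ≠ 0 := by
      rintro rfl
      rw [zero_pow two_ne_zero] at hm₀
      exact hx0 hm₀.symm
    let l : (Base g)ˣ := Units.map (algebraMap ℂ (Base g)).toMonoidHom
      (Units.mk0 (x / z) (div_ne_zero hx0 hz0))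
    let m : (Base g)ˣ := Units.map (algebraMap ℂ (Base g)).toMonoidHom (Units.mk0 m₀ hm0)
    have hl : (l : Base g) = algebraMap ℂ (Base g) (x / z) := rfl
    have hm : (m : Base g) = algebraMap ℂ (Base g) m₀ := rfl
    have hφc : ∀ t, φ (algebraMap ℂ (Base g) t) = algebraMap ℂ (Base g) t := fun t =>
      congrArg (fun χ : ℂ →+* Base g => χ t) hφ
    have hs : Scal φ (l : Base g) (m : Base g) (fp g A B) (fp g A B) := by
      apply scal_fp
      · have hx1 : (x / z) ^ (2 * g + 1) = x := by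
          rw [div_pow, hz, div_one, pow_succ, hx, one_mul]
        rw [hl, hm, ← map_pow, ← map_pow, hm₀, hx1]
      · rw [hl, hm, ← map_pow, hm₀, hA, map_mul, hφc, ha]
        have : algebraMap ℂ (Base g) z * algebraMap ℂ (Base g) (x / z) =
            algebraMap ℂ (Base g) x := by
          rw [← map_mul, mul_div_cancel₀ _ hz0]
        linear_combination (algebraMap ℂ (Base g) α * aB g) * this
      · rw [hm, ← map_pow, hm₀, hB, map_mul, hφc, hb]
        ring
    have hpb := curveMap_isPullback φ l m hs (rev_fp g A B) (rev_fp g A B)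
    have h1 := rule.map_pullback _ σ hD _ hD _ _ hpb
    have h2 : Spec.map (CommRingCat.ofHom φ) ≫ σ = σ := by
      rw [hσ, ← Spec.map_comp, ← CommRingCat.ofHom_comp, hφ]
    rw [h2] at h1
    exact h1.symm)
  refine ⟨f, hfs, ?_⟩
  intro a b hab hfam
  obtain ⟨ε, hε₁, hε₂, hε₃, hε₄⟩ := exists_base_hom g (RingHom.id ℂ) a b hab
  have hεc : ∀ t, ε (algebraMap ℂ (Base g) t) = t := fun t =>
    congrArg (fun χ : ℂ →+* ℂ => χ t) hε₁
  have hs : Scal ε ((1 : ℂˣ) : ℂ) ((1 : ℂˣ) : ℂ) (fp g A B) (fp g (α * a) (β * b)) := by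
    apply scal_fp
    · simp
    · rw [hA, map_mul, hεc, hε₂]; simp
    · rw [hB, map_mul, hεc, hε₃]; simp
  have hpb := curveMap_isPullback ε 1 1 hs (rev_fp g A B) (rev_fp g (α * a) (β * b))
  have h1 := rule.map_pullback _ σ hD _ hfam _ _ hpb
  have h2 : Spec.map (CommRingCat.ofHom ε) ≫ σ = 𝟙 _ := by
    rw [hσ, ← Spec.map_comp, ← CommRingCat.ofHom_comp, hε₁]
    exact Spec.map_id _
  rw [h2] at h1
  have h3 : AffLine.pt (a ^ (2 * g + 1)) = Spec.map (CommRingCat.ofHom (ε.comp (sHom g))) := by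
    rw [sHom, hε₄]
    rfl
  rw [h1, ← hμ, ← hf, ← Category.assoc, ← Spec.map_comp, ← CommRingCat.ofHom_comp, h3]

end Pool.Agent.Work.MP_2eb777_ag
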